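import Pool.Agent.W5h24.SP.Sparse

/-!
# Zero-free half-planes: the bound outside few integers; powers
-/

set_option autoImplicit false

open MeasureTheory Filter Topology Set
open scoped ENNReal
open Pool.Agent.TH942.LS (Dat)
open Pool.Agent.TH942.SL
open Pool.Agent.TH942.ES
open Pool.Agent.TH270.MS
open Pool.Agent.TH270.RS (cS' dat' DD_neg)
open Pool.Agent.W5h26.ES
open Pool.Agent.W5h26.ML
open Pool.Agent.W5h26.OS

namespace Pool.Agent.W5h24.SP

/-- few exceptions leave something in each interval -/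
theorem samples_of_few {S : ℕ → Prop} (h : Few S) : ∃ l : ℝ, 0 < l ∧ Samples l fun n => ¬ S n := by
  classical
  obtain ⟨l, hl, hF⟩ := h
  set l' : ℝ := min (l / 2) (1 / 2) with hl'
  have hl'0 : 0 < l' := lt_min (by linarith) (by norm_num)
  have hl'l : l' < l := (min_le_left _ _).trans_lt (by linarith)
  have hl'1 : l' ≤ 1 / 2 := min_le_right _ _
  refine ⟨l', hl'0, ?_⟩
  filter_upwards [hF, eventually_ge_atTop 1] with x hx hx1
  have hx0 : (1 : ℝ) ≤ x := by exact_mod_cast hx1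
  by_contra hcon
  push Not at hcon
  set m : ℕ := ⌊(x : ℝ) ^ (1 - l')⌋₊ with hm
  have hm1 : (m : ℝ) ≤ (x : ℝ) ^ (1 - l') := Nat.floor_le (by positivity)
  have hm2 : (x : ℝ) ^ (1 - l') < m + 1 := Nat.lt_floor_add_one _
  have hmx : m ≤ x := by
    have : (x : ℝ) ^ (1 - l') ≤ x := by
      calc (x : ℝ) ^ (1 - l') ≤ (x : ℝ) ^ (1 : ℝ) :=
            Real.rpow_le_rpow_of_exponent_le hx0 (by linarith)
        _ = x := Real.rpow_one _
    exact_mod_cast hm1.trans this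
  have hsub : Finset.Icc x (x + m) ⊆ (Finset.Icc x (2 * x)).filter S := by
    intro n hn
    obtain ⟨h1, h2⟩ := Finset.mem_Icc.1 hn
    refine Finset.mem_filter.2 ⟨Finset.mem_Icc.2 ⟨h1, by omega⟩, ?_⟩
    have h3 := hcon n h1 (by
      have : (n : ℝ) ≤ x + m := by exact_mod_cast h2
      linarith)
    exact h3
  have hcard := Finset.card_le_card hsub
  rw [Nat.card_Icc] at hcard
  have h4 : ((m : ℝ) + 1) ≤ (x : ℝ) ^ (1 - l) := by
    have h5 : (((Finset.Icc x (2 * x)).filter S).card : ℝ) ≤ (x : ℝ) ^ (1 - l) := by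
      convert hx
    refine le_trans ?_ h5
    have h6 : m + 1 ≤ ((Finset.Icc x (2 * x)).filter S).card := by omega
    exact_mod_cast h6
  have h5 : (x : ℝ) ^ (1 - l) ≤ (x : ℝ) ^ (1 - l') :=
    Real.rpow_le_rpow_of_exponent_le hx0 (by linarith)
  linarith

/-- the `k`-th powers meet the intervals -/
theorem samples_pow {A : ℕ → Prop} {k : ℕ} (hk : 1 ≤ k) (h : ∀ᶠ j : ℕ in atTop, A (j ^ k)) :
    ∃ l : ℝ, 0 < l ∧ Samples l A := by
  have hk0 : (0 : ℝ) < k := by exact_mod_cast hk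
  refine ⟨1 / (2 * k), by positivity, ?_⟩
  have hroot : Tendsto (fun x : ℕ => ⌈(x : ℝ) ^ (1 / (k : ℝ))⌉₊) atTop atTop :=
    tendsto_nat_ceil_atTop.comp ((tendsto_rpow_atTop (by positivity)).comp
      tendsto_natCast_atTop_atTop)
  have hbig : Tendsto (fun x : ℕ => (x : ℝ) ^ (1 / (2 * (k : ℝ)))) atTop atTop :=
    (tendsto_rpow_atTop (by positivity)).comp tendsto_natCast_atTop_atTop
  filter_upwards [hroot.eventually h, hbig.eventually_ge_atTop ((k : ℝ) * 2 ^ k),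
    eventually_ge_atTop 1] with x hx hx2 hx1
  set j : ℕ := ⌈(x : ℝ) ^ (1 / (k : ℝ))⌉₊ with hj
  have hx0 : (1 : ℝ) ≤ x := by exact_mod_cast hx1
  have hxp : (0 : ℝ) < x := by linarith
  set y : ℝ := (x : ℝ) ^ (1 / (k : ℝ)) with hy
  have hy1 : 1 ≤ y := Real.one_le_rpow hx0 (by positivity)
  have hyk : y ^ k = x := by
    rw [hy, ← Real.rpow_natCast, ← Real.rpow_mul hxp.le, one_div_mul_cancel hk0.ne', Real.rpow_one]
  have hj1 : y ≤ j := Nat.le_ceil _
  have hj2 : (j : ℝ) < y + 1 := Nat.ceil_lt_add_one (by linarith)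
  refine ⟨j ^ k, ?_, ?_, hx⟩
  · have : (x : ℝ) ≤ (j : ℝ) ^ k := by
      rw [← hyk]
      exact pow_le_pow_left₀ (by linarith) hj1 k
    exact_mod_cast this
  · push_cast
    have h1 : (j : ℝ) ^ k ≤ (y + 1) ^ k := pow_le_pow_left₀ (Nat.cast_nonneg _) hj2.le k
    -- `(y + 1)^k - y^k ≤ k (y + 1)^(k - 1) ≤ k 2^(k-1) y^(k-1)`
    have h2 : (y + 1) ^ k ≤ y ^ k + k * 2 ^ k * (y ^ k / y) := by
      obtain ⟨m, rfl⟩ : ∃ m, k = m + 1 := ⟨k - 1, by omega⟩
      have h3 : (y + 1) ^ (m + 1) - y ^ (m + 1) ≤ (m + 1) * (y + 1) ^ m := by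
        have h4 := (Commute.all (y + 1) y).geom_sum₂_mul (n := m + 1)
        have h5 : ∑ i ∈ Finset.range (m + 1), (y + 1) ^ i * y ^ (m + 1 - 1 - i) ≤
            ∑ _i ∈ Finset.range (m + 1), (y + 1) ^ m := by
          refine Finset.sum_le_sum fun i hi => ?_
          have him : i ≤ m := by
            have := Finset.mem_range.1 hi
            omega
          calc (y + 1) ^ i * y ^ (m + 1 - 1 - i) ≤ (y + 1) ^ i * (y + 1) ^ (m + 1 - 1 - i) := by
                gcongr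
                linarith
            _ = (y + 1) ^ m := by
                rw [← pow_add]
                congr 1
                omega
        rw [Finset.sum_const, Finset.card_range, nsmul_eq_mul, Nat.cast_add, Nat.cast_one] at h5
        have h6 : y + 1 - y = 1 := by ring
        rw [h6, mul_one] at h4
        linarith
      have h4 : (y + 1) ^ m ≤ 2 ^ m * y ^ m := by
        rw [← mul_pow]
        exact pow_le_pow_left₀ (by linarith) (by linarith) m
      have h5 : y ^ (m + 1) / y = y ^ m := by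
        rw [pow_succ]
        field_simp
      rw [h5]
      have h6 : (2 : ℝ) ^ m ≤ 2 ^ (m + 1) := pow_le_pow_right₀ (by norm_num) (by omega)
      have h7 : ((m : ℝ) + 1) * (y + 1) ^ m ≤ (m + 1) * (2 ^ (m + 1) * y ^ m) := by
        refine mul_le_mul_of_nonneg_left (h4.trans ?_) (by positivity)
        exact mul_le_mul_of_nonneg_right h6 (by positivity)
      push_cast
      linarith
    rw [hyk] at h2
    have h3 : (k : ℝ) * 2 ^ k * (x / y) ≤ (x : ℝ) ^ (1 - 1 / (2 * (k : ℝ))) := by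
      have e1 : (x : ℝ) / y = (x : ℝ) ^ (1 - 1 / (k : ℝ)) := by
        rw [hy, Real.rpow_sub hxp, Real.rpow_one]
      have e2 : (x : ℝ) ^ (1 - 1 / (2 * (k : ℝ))) =
          (x : ℝ) ^ (1 / (2 * (k : ℝ))) * (x : ℝ) ^ (1 - 1 / (k : ℝ)) := by
        rw [← Real.rpow_add hxp]
        congr 1
        field_simp
        ring
      rw [e1, e2]
      exact mul_le_mul_of_nonneg_right hx2 (by positivity)
    linarith

variable {X : Type} {d : ℕ} {N : X → ℕ} {α : X → Fin d → ℂ} {e : X × ℕ → ℕ}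
  {Ψ G₀ : ℂ → ℂ} {k κ : ℕ} {η C : ℝ}

/-- **zero-free half-planes: the partial sums outside a thin set** -/
theorem thin_of_free {lam c : ℕ → ℝ} {δ σ : ℝ} {g : ℂ → ℂ} {p : ℕ}
    (E : Cn lam c δ σ G₀ g k p κ η C) {x₁ ε : ℝ} (hx₁ : 0 < x₁)
    (hne : ∀ s : ℂ, x₁ < s.re → G₀ s ≠ 0) (hε : 0 < ε) :
    ∃ l : ℝ, 0 < l ∧ Thin {u | Real.exp ((x₁ + ε) * u) < |Sh lam c u|} l := by
  have D := E.D
  set x : ℝ := x₁ + ε / 4 with hx
  obtain ⟨q, hq⟩ := sq_shift E hx₁ (x := x) (by rw [hx]; linarith) hne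
  obtain ⟨K, hK0, hK⟩ := sh_point D (x := x) (by rw [hx]; linarith) hq
  set h : ℝ → ℝ := fun u => Sh lam (cx lam c x) u - q with hh
  have hm : Measurable h := (sh_meas (dat_cx D (show 0 ≤ x by rw [hx]; linarith))).sub_const q
  set I : ℝ := ∫ u in Ioi (1 : ℝ), h u ^ 2 with hI
  have hI0 : 0 ≤ I := integral_nonneg fun u => sq_nonneg _
  refine ⟨ε / 4, by linarith, ?_⟩
  have hexpt : ∀ r : ℝ, 0 < r → Tendsto (fun n : ℕ => Real.exp (r * n)) atTop atTop := fun r hr =>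
    Real.tendsto_exp_atTop.comp (tendsto_natCast_atTop_atTop.const_mul_atTop hr)
  filter_upwards [(hexpt (ε / 4) (by linarith)).eventually_ge_atTop (2 * (K + 1)),
    (hexpt (ε / 4) (by linarith)).eventually_ge_atTop I,
    (hexpt (ε / 4) (by linarith)).eventually_ge_atTop 2, eventually_ge_atTop 1] with n h1 h2 h3 h4
  have hn1 : (1 : ℝ) ≤ n := by exact_mod_cast h4
  set Bn : Set ℝ := {u | Real.exp ((x₁ + ε) * u) < |Sh lam c u|} ∩ Ioc (n : ℝ) (n + 1) with hBn
  have hlow : ∀ u ∈ Bn, Real.exp (ε / 4 * n) ≤ |h u| := by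
    rintro u ⟨hu, hu1, hu2⟩
    have hu3 : Real.exp ((x₁ + ε) * u) < |Sh lam c u| := hu
    have hu4 := hK u (by linarith)
    have e1 : Real.exp ((x₁ + ε) * u) = Real.exp (x * u) * Real.exp (3 * ε / 4 * u) := by
      rw [← Real.exp_add]
      congr 1
      rw [hx]
      ring
    have e2 : Real.exp (3 * ε / 4 * u) < K * (1 + |h u|) := by
      have e3 := hu3.trans_le hu4
      rw [e1] at e3
      have e4 : K * Real.exp (x * u) * (1 + |h u|) = Real.exp (x * u) * (K * (1 + |h u|)) := by ring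
      rw [e4] at e3
      exact lt_of_mul_lt_mul_left e3 (Real.exp_pos _).le
    have e5 : Real.exp (ε / 4 * n) * Real.exp (ε / 4 * n) ≤ Real.exp (3 * ε / 4 * u) := by
      rw [← Real.exp_add]
      apply Real.exp_le_exp.2
      nlinarith
    set E1 := Real.exp (ε / 4 * n)
    by_contra hcon
    push Not at hcon
    have e6 : K * (1 + |h u|) ≤ (K + 1) * (1 + |h u|) :=
      mul_le_mul_of_nonneg_right (by linarith) (by positivity)
    have e7 : (K + 1) * (1 + |h u|) ≤ (E1 / 2) * (1 + |h u|) :=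
      mul_le_mul_of_nonneg_right (by linarith) (by positivity)
    have e8 : (1 + |h u|) ≤ 2 * E1 := by linarith
    have e9 : (E1 / 2) * (1 + |h u|) ≤ (E1 / 2) * (2 * E1) :=
      mul_le_mul_of_nonneg_left e8 (by linarith)
    nlinarith
  have hvol : volume Bn < ⊤ := lt_of_le_of_lt (measure_mono inter_subset_right) (by simp)
  have hBm : MeasurableSet Bn := by
    refine MeasurableSet.inter ?_ measurableSet_Ioc
    exact measurableSet_lt (by fun_prop) (sh_meas D).abs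
  have hBsub : Bn ⊆ Ioi 1 := fun u hu => lt_of_le_of_lt hn1 hu.2.1
  have hint : (volume Bn).toReal * Real.exp (ε / 4 * n) ^ 2 ≤ I := by
    calc (volume Bn).toReal * Real.exp (ε / 4 * n) ^ 2 =
        ∫ _ in Bn, Real.exp (ε / 4 * n) ^ 2 := by rw [setIntegral_const, smul_eq_mul]; rfl
      _ ≤ ∫ u in Bn, h u ^ 2 := by
        refine setIntegral_mono_on (integrableOn_const hvol.ne) (hq.mono_set hBsub) hBm
          fun u hu => ?_
        rw [← sq_abs (h u)]
        exact pow_le_pow_left₀ (Real.exp_pos _).le (hlow u hu) 2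
      _ ≤ I := setIntegral_mono_set hq (Eventually.of_forall fun u => sq_nonneg _)
        hBsub.eventuallyLE
  have h5 : (volume Bn).toReal ≤ Real.exp (-(ε / 4 * n)) := by
    set E1 := Real.exp (ε / 4 * n) with hE1
    have hE0 : 0 < E1 := Real.exp_pos _
    have e1 : Real.exp (-(ε / 4 * n)) = E1⁻¹ := by rw [hE1, Real.exp_neg]
    rw [e1]
    have e2 : (volume Bn).toReal * E1 ^ 2 ≤ E1 := hint.trans h2
    have e3 : (volume Bn).toReal * E1 ≤ 1 := by
      by_contra hcon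
      push Not at hcon
      nlinarith
    rw [← one_div, le_div_iff₀ hE0]
    exact e3
  rw [← ENNReal.ofReal_toReal hvol.ne]
  exact ENNReal.ofReal_le_ofReal h5

/-- **Zero-free half-planes: bounds for all but few integers.** -/
theorem few_of_free (H : Mc N α Ψ G₀ k κ η C) {θ : ℝ} (hθ : 0 ≤ θ)
    (hne : ∀ s : ℂ, θ < s.re → G₀ s ≠ 0) {ε : ℝ} (hε : 0 < ε) :
    Few fun n => (n : ℝ) ^ (θ + ε) < |LP N α n| := by
  obtain ⟨e, g, p, he, Q⟩ := H.cn
  obtain ⟨M, hM0, hM⟩ := sh_lp H.E he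
  obtain ⟨l, hl, hT⟩ := thin_of_free Q (x₁ := θ + ε / 4) (ε := ε / 4) (by linarith)
    (fun s hs => hne s (by linarith)) (by linarith)
  refine few_of_thin hl (hT.mono ?_)
  have hexpt : ∀ r : ℝ, 0 < r → Tendsto (fun n : ℕ => Real.exp (r * n)) atTop atTop := fun r hr =>
    Real.tendsto_exp_atTop.comp (tendsto_natCast_atTop_atTop.const_mul_atTop hr)
  filter_upwards [(hexpt (ε / 2) (by linarith)).eventually_ge_atTop ((1 + M) * 2 ^ (θ + ε)),
    eventually_ge_atTop 1] with n h1 h2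
  rintro u ⟨hu, hu1, -⟩
  have hn1 : (1 : ℝ) ≤ n := by exact_mod_cast h2
  have hu0 : 0 ≤ u := by linarith
  obtain ⟨f1, f2, f3⟩ := floor_bounds hu0
  have f4 : ((⌊Real.exp u⌋₊ : ℕ) : ℝ) ^ (θ + ε) < |LP N α (⌊Real.exp u⌋₊ : ℕ)| := hu
  have f5 : (Real.exp u / 2) ^ (θ + ε) ≤ ((⌊Real.exp u⌋₊ : ℕ) : ℝ) ^ (θ + ε) :=
    Real.rpow_le_rpow (by positivity) f2 (by linarith)
  rw [Real.div_rpow (Real.exp_pos _).le (by norm_num), ← Real.exp_mul] at f5
  have hp : (0 : ℝ) < 2 ^ (θ + ε) := by positivity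
  rw [div_le_iff₀ hp] at f5
  have f6 : |LP N α (⌊Real.exp u⌋₊ : ℕ)| ≤ |Sh (lamS N e) (cS' N α e) u| + M := by
    have e1 := hM u hu0
    have e2 : LP N α (⌊Real.exp u⌋₊ : ℕ) = Sh (lamS N e) (cS' N α e) u -
      (Sh (lamS N e) (cS' N α e) u - LP N α (⌊Real.exp u⌋₊ : ℕ)) := by ring
    rw [e2]
    refine (abs_sub _ _).trans ?_
    linarith
  show Real.exp ((θ + ε / 4 + ε / 4) * u) < |Sh (lamS N e) (cS' N α e) u|
  by_contra hcon
  push Not at hcon
  have f7 : Real.exp (u * (θ + ε)) = Real.exp ((θ + ε / 4 + ε / 4) * u) * Real.exp (ε / 2 * u) := by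
    rw [← Real.exp_add]
    congr 1
    ring
  have f8 : Real.exp (ε / 2 * n) ≤ Real.exp (ε / 2 * u) :=
    Real.exp_le_exp.2 (mul_le_mul_of_nonneg_left hu1.le (by linarith))
  set E1 := Real.exp ((θ + ε / 4 + ε / 4) * u) with hE1
  have hE1p : 1 ≤ E1 := Real.one_le_exp (mul_nonneg (by linarith) hu0)
  have f9 : |LP N α (⌊Real.exp u⌋₊ : ℕ)| ≤ (1 + M) * E1 := by nlinarith
  have f10 : E1 * ((1 + M) * 2 ^ (θ + ε)) ≤ E1 * Real.exp (ε / 2 * u) :=
    mul_le_mul_of_nonneg_left (h1.trans f8) (by linarith)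
  rw [f7] at f5
  have f11 : ((⌊Real.exp u⌋₊ : ℕ) : ℝ) ^ (θ + ε) * 2 ^ (θ + ε) < (1 + M) * E1 * 2 ^ (θ + ε) :=
    mul_lt_mul_of_pos_right (f4.trans_le f9) hp
  nlinarith

end Pool.Agent.W5h24.SP
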