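import Pool.Agent.W5h26.ES.Thin

/-!
# Chaining: from one point in each short interval to almost all points
-/

set_option autoImplicit false

open MeasureTheory Filter Topology Set
open scoped ENNReal

namespace Pool.Agent.W5h24.SP

open Pool.Agent.W5h26.ES (Thin)

/-- **chaining on a dyadic grid** -/
lemma chain (f : ℕ → ℝ) (J i : ℕ) (hi : i ≤ 2 ^ J) :
    (f i - f 0) ^ 2 ≤ (J + 1) * ∑ j ∈ Finset.range (J + 1), ∑ k ∈ Finset.range (2 ^ (J - j)),
      (f ((k + 1) * 2 ^ j) - f (k * 2 ^ j)) ^ 2 := by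
  set a : ℕ → ℝ := fun j => f (i / 2 ^ j * 2 ^ j) - f (i / 2 ^ (j + 1) * 2 ^ (j + 1)) with ha
  have htel : ∑ j ∈ Finset.range (J + 1), a j = f i - f 0 := by
    rw [Finset.sum_range_sub' (fun j => f (i / 2 ^ j * 2 ^ j))]
    have h1 : i / 2 ^ (J + 1) = 0 := Nat.div_eq_of_lt (by
      rw [pow_succ]
      have := Nat.two_pow_pos J
      omega)
    rw [h1]
    simp
  have hstep : ∀ j ∈ Finset.range (J + 1), a j ^ 2 ≤ ∑ k ∈ Finset.range (2 ^ (J - j)),
      (f ((k + 1) * 2 ^ j) - f (k * 2 ^ j)) ^ 2 := by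
    intro j hj
    have hjJ : j ≤ J := by
      have := Finset.mem_range.1 hj
      omega
    have hq : i / 2 ^ (j + 1) = i / 2 ^ j / 2 := by
      rw [pow_succ, Nat.div_div_eq_div_mul]
    have hle : i / 2 ^ j ≤ 2 ^ (J - j) := by
      have h1 : i / 2 ^ j ≤ 2 ^ J / 2 ^ j := Nat.div_le_div_right hi
      rwa [Nat.pow_div hjJ (by norm_num)] at h1
    have hnn : 0 ≤ ∑ k ∈ Finset.range (2 ^ (J - j)),
        (f ((k + 1) * 2 ^ j) - f (k * 2 ^ j)) ^ 2 := Finset.sum_nonneg fun k _ => sq_nonneg _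
    set q := i / 2 ^ j with hqd
    rcases Nat.even_or_odd' q with ⟨r, hr | hr⟩
    · have h1 : i / 2 ^ (j + 1) * 2 ^ (j + 1) = q * 2 ^ j := by
        rw [hq, hr, pow_succ]
        have : 2 * r / 2 = r := by omega
        rw [this]
        ring
      have h2 : a j = 0 := by
        simp only [ha]
        rw [h1, ← hqd, sub_self]
      rw [h2]
      simpa using hnn
    · have h1 : i / 2 ^ (j + 1) * 2 ^ (j + 1) = (2 * r) * 2 ^ j := by
        rw [hq, hr, pow_succ]
        have : (2 * r + 1) / 2 = r := by omega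
        rw [this]
        ring
      have h2 : a j = f ((2 * r + 1) * 2 ^ j) - f ((2 * r) * 2 ^ j) := by
        simp only [ha]
        rw [h1, ← hqd, hr]
      rw [h2]
      exact Finset.single_le_sum (f := fun k => (f ((k + 1) * 2 ^ j) - f (k * 2 ^ j)) ^ 2)
        (fun k _ => sq_nonneg _) (Finset.mem_range.2 (show 2 * r < 2 ^ (J - j) by omega))
  rw [← htel]
  have hcs := sq_sum_le_card_mul_sum_sq (s := Finset.range (J + 1)) (f := a)
  rw [Finset.card_range] at hcs
  refine hcs.trans ?_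
  push_cast
  exact mul_le_mul_of_nonneg_left (Finset.sum_le_sum hstep) (by positivity)

/-- the sum of the squares of the increments of `S` on the block which begins at `A` -/
noncomputable def Qb (S : ℝ → ℝ) (w : ℝ) (J : ℕ) (A : ℝ) : ℝ :=
  ∑ j ∈ Finset.range (J + 1), ∑ k ∈ Finset.range (2 ^ (J - j)),
    (S (A + (k + 1) * (2 ^ j * w)) - S (A + k * (2 ^ j * w))) ^ 2

lemma Qb_nonneg (S : ℝ → ℝ) (w : ℝ) (J : ℕ) (A : ℝ) : 0 ≤ Qb S w J A :=
  Finset.sum_nonneg fun _ _ => Finset.sum_nonneg fun _ _ => sq_nonneg _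

lemma block_grid (S : ℝ → ℝ) (w : ℝ) (J : ℕ) (A : ℝ) {i : ℕ} (hi : i ≤ 2 ^ J) :
    (S (A + i * w) - S A) ^ 2 ≤ (J + 1) * Qb S w J A := by
  have h := chain (fun i : ℕ => S (A + i * w)) J i hi
  unfold Qb
  simp only [Nat.cast_zero, zero_mul, add_zero] at h
  refine h.trans (le_of_eq ?_)
  congr 1
  refine Finset.sum_congr rfl fun j _ => Finset.sum_congr rfl fun k _ => ?_
  push_cast
  congr 3
  · ring_nf
  · ring_nf

/-- `S` on the whole block -/
lemma block_all {S : ℝ → ℝ} (hstep : ∀ u u' : ℝ, ⌊Real.exp u⌋₊ = ⌊Real.exp u'⌋₊ → S u = S u')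
    {w : ℝ} (hw : 0 < w) (J : ℕ) {A y : ℝ} (hsmall : Real.exp (A + 2 ^ J * w) * (2 * w) < 1)
    (hw1 : w ≤ 1) (h1 : A ≤ y) (h2 : y ≤ A + 2 ^ J * w) :
    (S y - S A) ^ 2 ≤ (J + 1) * Qb S w J A := by
  set i : ℕ := ⌊(y - A) / w⌋₊ with hi
  have hyA : 0 ≤ (y - A) / w := div_nonneg (by linarith) hw.le
  have hi1 : (i : ℝ) ≤ (y - A) / w := Nat.floor_le hyA
  have hi2 : (y - A) / w < i + 1 := Nat.lt_floor_add_one _
  rw [le_div_iff₀ hw] at hi1
  rw [div_lt_iff₀ hw] at hi2
  have hiJ : i ≤ 2 ^ J := by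
    have h3 : (i : ℝ) ≤ 2 ^ J := by
      by_contra hcon
      push Not at hcon
      have : (2 ^ J : ℝ) * w < i * w := mul_lt_mul_of_pos_right hcon hw
      linarith
    exact_mod_cast h3
  rcases hiJ.eq_or_lt with h3 | h3
  · -- the last point
    have h4 : y = A + i * w := by
      have : (i : ℝ) * w = 2 ^ J * w := by rw [h3]; push_cast; rfl
      linarith
    rw [h4]
    exact block_grid S w J A hiJ
  · -- the floor takes at most two values
    have h3' : i + 1 ≤ 2 ^ J := h3
    have h3R : ((i : ℝ) + 1) ≤ 2 ^ J := by exact_mod_cast h3'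
    set y0 : ℝ := A + i * w with hy0
    set y1 : ℝ := A + (i + 1) * w with hy1
    have e1 : y0 ≤ y := by rw [hy0]; linarith
    have e2 : y ≤ y1 := by rw [hy1]; linarith
    have e3 : y1 ≤ A + 2 ^ J * w := by
      rw [hy1]
      have := mul_le_mul_of_nonneg_right h3R hw.le
      linarith
    have e4 : Real.exp y1 < Real.exp y0 + 1 := by
      have h5 : y1 = y0 + w := by rw [hy0, hy1]; ring
      have h6 : Real.exp w ≤ 1 + 2 * w := by
        have := Real.exp_bound_div_one_sub_of_interval hw.le (x := w)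
        have h7 := Real.abs_exp_sub_one_le (x := w) (by rw [abs_of_pos hw]; exact hw1)
        rw [abs_of_pos hw] at h7
        have h8 := (abs_le.1 h7).2
        linarith
      have h7 : Real.exp y0 * (2 * w) < 1 := by
        refine lt_of_le_of_lt ?_ hsmall
        refine mul_le_mul_of_nonneg_right (Real.exp_le_exp.2 ?_) (by positivity)
        linarith
      rw [h5, Real.exp_add]
      nlinarith [Real.exp_pos y0]
    have f1 : ⌊Real.exp y0⌋₊ ≤ ⌊Real.exp y⌋₊ := Nat.floor_le_floor (Real.exp_le_exp.2 e1)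
    have f2 : ⌊Real.exp y⌋₊ ≤ ⌊Real.exp y1⌋₊ := Nat.floor_le_floor (Real.exp_le_exp.2 e2)
    have f3 : ⌊Real.exp y1⌋₊ ≤ ⌊Real.exp y0⌋₊ + 1 := by
      have h5 : ⌊Real.exp y1⌋₊ ≤ ⌊Real.exp y0 + 1⌋₊ := Nat.floor_le_floor e4.le
      rwa [Nat.floor_add_one (Real.exp_pos _).le] at h5
    rcases Nat.lt_or_ge ⌊Real.exp y0⌋₊ ⌊Real.exp y⌋₊ with h5 | h5
    · have h6 : ⌊Real.exp y⌋₊ = ⌊Real.exp y1⌋₊ := by omega
      rw [hstep y y1 h6, hy1]
      have := block_grid S w J A h3'
      push_cast at this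
      exact this
    · have h6 : ⌊Real.exp y⌋₊ = ⌊Real.exp y0⌋₊ := by omega
      rw [hstep y y0 h6, hy0]
      exact block_grid S w J A hiJ

/-- consecutive intervals -/
lemma sum_shift (g : ℝ → ℝ≥0∞) (α : ℝ) {v : ℝ} (hv : 0 ≤ v) (B : ℕ) :
    ∑ b ∈ Finset.range B, ∫⁻ a in Ioc α (α + v), g (a + b * v) = ∫⁻ a in Ioc α (α + B * v), g a := by
  induction B with
  | zero => simp
  | succ B ih =>
    rw [Finset.sum_range_succ, ih]
    have h1 : ∫⁻ a in Ioc α (α + v), g (a + B * v) =
        ∫⁻ a in Ioc (α + B * v) (α + B * v + v), g a := by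
      rw [← lintegral_indicator measurableSet_Ioc, ← lintegral_indicator measurableSet_Ioc,
        ← lintegral_add_right_eq_self (fun a => (Ioc (α + B * v) (α + B * v + v)).indicator g a) (B * v)]
      refine lintegral_congr fun a => ?_
      by_cases ha : a ∈ Ioc α (α + v)
      · rw [indicator_of_mem ha, indicator_of_mem]
        exact ⟨by linarith [ha.1], by linarith [ha.2]⟩
      · rw [indicator_of_notMem ha, indicator_of_notMem]
        intro h
        exact ha ⟨by linarith [h.1], by linarith [h.2]⟩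
    rw [h1, ← lintegral_union measurableSet_Ioc]
    · congr 2
      rw [Ioc_union_Ioc_eq_Ioc]
      · congr 1
        push_cast
        ring
      · have : 0 ≤ (B : ℝ) * v := by positivity
        linarith
      · linarith
    · rw [Set.disjoint_left]
      intro a h2 h3
      exact absurd h3.1 (not_lt.2 h2.2)

/-- the total of the squares of the increments, averaged over the position of the blocks -/
lemma average {S : ℝ → ℝ} (hS : Measurable S) {x K ε : ℝ} (hx : 0 < x) (hK : 0 ≤ K)
    (hε : 0 < ε) (hε1 : ε < 1)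
    (hd : ∀ w : ℝ, 0 < w → ∫⁻ u : ℝ, ENNReal.ofReal (((S u - S (u - w)) *
      Real.exp (-(x * u))) ^ 2) ≤ ENNReal.ofReal (K * w ^ (1 - ε)))
    {w : ℝ} (hw : 0 < w) (J : ℕ) {v : ℝ} (hv : v = 2 ^ J * w) (hv1 : v ≤ 1) {n : ℝ} {B : ℕ}
    (hB : B * v ≤ 4) :
    ∫⁻ a in Ioc (n - v) (n - v + v), ENNReal.ofReal (∑ b ∈ Finset.range B, Qb S w J (a + b * v)) ≤
      ENNReal.ofReal ((J + 1) * (v * (w ^ (-ε) * Real.exp (2 * (x * (n + 6))) * K))) := by
  have hv0 : 0 < v := by rw [hv]; positivity
  have hgm : ∀ y : ℝ, Measurable fun a : ℝ => ENNReal.ofReal ((S (a + y) - S a) ^ 2) := fun y =>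
    (((hS.comp (measurable_id.add_const y)).sub hS).pow_const 2).ennreal_ofReal
  -- one increment
  have hone : ∀ y : ℝ, 0 < y → y ≤ 1 →
      ∫⁻ a in Ioc (n - 1) (n + 5), ENNReal.ofReal ((S (a + y) - S a) ^ 2) ≤
        ENNReal.ofReal (Real.exp (2 * (x * (n + 6))) * (K * y ^ (1 - ε))) := by
    intro y hy hy1
    have h1 : ∫⁻ a in Ioc (n - 1) (n + 5), ENNReal.ofReal ((S (a + y) - S a) ^ 2) ≤
        ∫⁻ a : ℝ, ENNReal.ofReal (Real.exp (2 * (x * (n + 6)))) *
          ENNReal.ofReal (((S (a + y) - S (a + y - y)) * Real.exp (-(x * (a + y)))) ^ 2) := by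
      rw [← lintegral_indicator measurableSet_Ioc]
      refine lintegral_mono fun a => ?_
      by_cases ha : a ∈ Ioc (n - 1) (n + 5)
      · rw [indicator_of_mem ha, ← ENNReal.ofReal_mul (by positivity)]
        apply ENNReal.ofReal_le_ofReal
        have e1 : a + y ≤ n + 6 := by linarith [ha.2]
        have e2 : 1 ≤ Real.exp (2 * (x * (n + 6))) * Real.exp (-(x * (a + y))) ^ 2 := by
          rw [← Real.exp_nat_mul, ← Real.exp_add]
          apply Real.one_le_exp
          push_cast
          have := mul_le_mul_of_nonneg_left e1 hx.le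
          linarith
        have e3 : a + y - y = a := by ring
        rw [e3, mul_pow]
        calc (S (a + y) - S a) ^ 2 = (S (a + y) - S a) ^ 2 * 1 := (mul_one _).symm
          _ ≤ (S (a + y) - S a) ^ 2 *
              (Real.exp (2 * (x * (n + 6))) * Real.exp (-(x * (a + y))) ^ 2) :=
            mul_le_mul_of_nonneg_left e2 (sq_nonneg _)
          _ = _ := by ring
      · rw [indicator_of_notMem ha]
        exact bot_le
    refine h1.trans ?_
    rw [lintegral_const_mul' _ _ ENNReal.ofReal_ne_top, ENNReal.ofReal_mul (by positivity)]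
    gcongr
    have h2 := hd y hy
    rw [← lintegral_add_right_eq_self (fun u => ENNReal.ofReal (((S u - S (u - y)) *
      Real.exp (-(x * u))) ^ 2)) y] at h2
    exact h2
  -- one scale and one phase
  have hjk : ∀ j ∈ Finset.range (J + 1), ∀ i ∈ Finset.range (2 ^ (J - j)),
      ∑ b ∈ Finset.range B, ∫⁻ a in Ioc (n - v) (n - v + v),
        ENNReal.ofReal ((S (a + b * v + (i + 1) * (2 ^ j * w)) -
          S (a + b * v + i * (2 ^ j * w))) ^ 2) ≤
      ENNReal.ofReal (Real.exp (2 * (x * (n + 6))) * (K * (2 ^ j * w) ^ (1 - ε))) := by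
    intro j hj i hi
    have hjJ : j ≤ J := by
      have := Finset.mem_range.1 hj
      omega
    have hwj : 0 < (2 : ℝ) ^ j * w := by positivity
    have hjv : (2 : ℝ) ^ j * w ≤ v := by
      rw [hv]
      exact mul_le_mul_of_nonneg_right (pow_le_pow_right₀ (by norm_num) hjJ) hw.le
    have hiv : (i : ℝ) * (2 ^ j * w) ≤ v := by
      have h1 : (i : ℝ) ≤ 2 ^ (J - j) := by
        have := (Finset.mem_range.1 hi).le
        exact_mod_cast this
      calc (i : ℝ) * (2 ^ j * w) ≤ 2 ^ (J - j) * (2 ^ j * w) :=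
            mul_le_mul_of_nonneg_right h1 hwj.le
        _ = v := by
          rw [hv, ← mul_assoc, ← pow_add]
          congr 2
          omega
    have hi0 : 0 ≤ (i : ℝ) * (2 ^ j * w) := by positivity
    have h1 : ∀ b ∈ Finset.range B, ∫⁻ a in Ioc (n - v) (n - v + v),
        ENNReal.ofReal ((S (a + b * v + (i + 1) * (2 ^ j * w)) -
          S (a + b * v + i * (2 ^ j * w))) ^ 2) =
        ∫⁻ a in Ioc (n - v) (n - v + v),
          (fun y : ℝ => ENNReal.ofReal ((S (y + i * (2 ^ j * w) + 2 ^ j * w) -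
            S (y + i * (2 ^ j * w))) ^ 2)) (a + b * v) := by
      intro b _
      refine lintegral_congr fun a => ?_
      simp only
      congr 4
      ring
    rw [Finset.sum_congr rfl h1]
    have h3 := sum_shift (fun y : ℝ => ENNReal.ofReal ((S (y + i * (2 ^ j * w) + 2 ^ j * w) -
            S (y + i * (2 ^ j * w))) ^ 2)) (n - v) hv0.le B
    rw [h3]
    · have h2 : ∫⁻ a in Ioc (n - v) (n - v + B * v), ENNReal.ofReal
          ((S (a + i * (2 ^ j * w) + 2 ^ j * w) - S (a + i * (2 ^ j * w))) ^ 2) ≤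
          ∫⁻ a in Ioc (n - 1) (n + 5), ENNReal.ofReal ((S (a + 2 ^ j * w) - S a) ^ 2) := by
        rw [← lintegral_indicator measurableSet_Ioc, ← lintegral_indicator measurableSet_Ioc,
          ← lintegral_add_right_eq_self (fun a => (Ioc (n - 1) (n + 5)).indicator
            (fun a => ENNReal.ofReal ((S (a + 2 ^ j * w) - S a) ^ 2)) a) (i * (2 ^ j * w))]
        refine lintegral_mono fun a => ?_
        by_cases ha : a ∈ Ioc (n - v) (n - v + B * v)
        · rw [indicator_of_mem ha, indicator_of_mem]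
          exact ⟨by linarith [ha.1], by linarith [ha.2]⟩
        · rw [indicator_of_notMem ha]
          exact bot_le
      exact h2.trans (hone _ hwj (hjv.trans hv1))
  -- the sum
  have hswap : ∫⁻ a in Ioc (n - v) (n - v + v), ENNReal.ofReal
      (∑ b ∈ Finset.range B, Qb S w J (a + b * v)) =
      ∑ j ∈ Finset.range (J + 1), ∑ i ∈ Finset.range (2 ^ (J - j)), ∑ b ∈ Finset.range B,
        ∫⁻ a in Ioc (n - v) (n - v + v),
        ENNReal.ofReal ((S (a + b * v + (i + 1) * (2 ^ j * w)) -
          S (a + b * v + i * (2 ^ j * w))) ^ 2) := by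
    have hmeas : ∀ (b j i : ℕ), Measurable fun a : ℝ =>
        ENNReal.ofReal ((S (a + b * v + (i + 1) * (2 ^ j * w)) -
          S (a + b * v + i * (2 ^ j * w))) ^ 2) := by
      intro b j i
      have m1 : Measurable fun a : ℝ => S (a + b * v + (i + 1) * (2 ^ j * w)) :=
        hS.comp ((measurable_id.add_const _).add_const _)
      have m2 : Measurable fun a : ℝ => S (a + b * v + i * (2 ^ j * w)) :=
        hS.comp ((measurable_id.add_const _).add_const _)
      exact ((m1.sub m2).pow_const 2).ennreal_ofReal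
    have h1 : ∀ a : ℝ, ENNReal.ofReal (∑ b ∈ Finset.range B, Qb S w J (a + b * v)) =
        ∑ j ∈ Finset.range (J + 1), ∑ i ∈ Finset.range (2 ^ (J - j)), ∑ b ∈ Finset.range B,
          ENNReal.ofReal ((S (a + b * v + (i + 1) * (2 ^ j * w)) -
            S (a + b * v + i * (2 ^ j * w))) ^ 2) := by
      intro a
      unfold Qb
      rw [Finset.sum_comm, ENNReal.ofReal_sum_of_nonneg fun j _ => Finset.sum_nonneg fun b _ =>
        Finset.sum_nonneg fun i _ => sq_nonneg _]
      refine Finset.sum_congr rfl fun j _ => ?_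
      rw [Finset.sum_comm, ENNReal.ofReal_sum_of_nonneg fun i _ => Finset.sum_nonneg fun b _ =>
        sq_nonneg _]
      refine Finset.sum_congr rfl fun i _ => ?_
      rw [ENNReal.ofReal_sum_of_nonneg fun b _ => sq_nonneg _]
    simp only [h1]
    rw [lintegral_finsetSum _ fun j _ => Finset.measurable_fun_sum _ fun i _ =>
      Finset.measurable_fun_sum _ fun b _ => hmeas b j i]
    refine Finset.sum_congr rfl fun j _ => ?_
    rw [lintegral_finsetSum _ fun i _ => Finset.measurable_fun_sum _ fun b _ => hmeas b j i]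
    refine Finset.sum_congr rfl fun i _ => ?_
    rw [lintegral_finsetSum _ fun b _ => hmeas b j i]
  rw [hswap]
  calc _ ≤ ∑ j ∈ Finset.range (J + 1), ∑ i ∈ Finset.range (2 ^ (J - j)),
        ENNReal.ofReal (Real.exp (2 * (x * (n + 6))) * (K * (2 ^ j * w) ^ (1 - ε))) :=
        Finset.sum_le_sum fun j hj => Finset.sum_le_sum fun i hi => hjk j hj i hi
    _ = ENNReal.ofReal (∑ j ∈ Finset.range (J + 1), (2 : ℝ) ^ (J - j) *
        (Real.exp (2 * (x * (n + 6))) * (K * (2 ^ j * w) ^ (1 - ε)))) := by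
        rw [ENNReal.ofReal_sum_of_nonneg fun j _ => by positivity]
        refine Finset.sum_congr rfl fun j _ => ?_
        rw [Finset.sum_const, Finset.card_range, nsmul_eq_mul,
          ENNReal.ofReal_mul (p := (2 : ℝ) ^ (J - j)) (by positivity),
          ENNReal.ofReal_pow (by norm_num), ENNReal.ofReal_ofNat]
        push_cast
        rfl
    _ ≤ _ := by
        apply ENNReal.ofReal_le_ofReal
        have h1 : ∀ j ∈ Finset.range (J + 1), (2 : ℝ) ^ (J - j) *
            (Real.exp (2 * (x * (n + 6))) * (K * (2 ^ j * w) ^ (1 - ε))) ≤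
            v * (w ^ (-ε) * Real.exp (2 * (x * (n + 6))) * K) := by
          intro j hj
          have hjJ : j ≤ J := by
            have := Finset.mem_range.1 hj
            omega
          have e1 : ((2 : ℝ) ^ j * w) ^ (1 - ε) ≤ (2 ^ j * w) * w ^ (-ε) := by
            have h2 : (0 : ℝ) < 2 ^ j * w := by positivity
            rw [show (1 - ε) = 1 + (-ε) by ring, Real.rpow_add h2, Real.rpow_one]
            refine mul_le_mul_of_nonneg_left ?_ h2.le
            refine Real.rpow_le_rpow_of_nonpos hw ?_ (by linarith)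
            have : (1 : ℝ) ≤ 2 ^ j := one_le_pow₀ (by norm_num)
            nlinarith
          calc (2 : ℝ) ^ (J - j) * (Real.exp (2 * (x * (n + 6))) * (K * (2 ^ j * w) ^ (1 - ε)))
              ≤ (2 : ℝ) ^ (J - j) * (Real.exp (2 * (x * (n + 6))) *
                (K * ((2 ^ j * w) * w ^ (-ε)))) := by gcongr
            _ = ((2 : ℝ) ^ (J - j) * 2 ^ j) * w * (w ^ (-ε) * Real.exp (2 * (x * (n + 6))) * K) := by
                ring
            _ = _ := by
                rw [← pow_add, Nat.sub_add_cancel hjJ, ← hv]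
        calc _ ≤ ∑ _j ∈ Finset.range (J + 1), v * (w ^ (-ε) * Real.exp (2 * (x * (n + 6))) * K) :=
              Finset.sum_le_sum h1
          _ = _ := by
              rw [Finset.sum_const, Finset.card_range, nsmul_eq_mul]
              push_cast
              ring

end Pool.Agent.W5h24.SP
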