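import Pool.Agent.W5h24.SP.Many

/-!
# Numbers of large values at sparse sets of integers
-/

set_option autoImplicit false

open MeasureTheory Filter Topology Set Complex
open scoped ENNReal
open H313.TK (MM mm)
open Pool.Agent.W5h26.ES (Thin US)
open Pool.Agent.W5h38.ML (Good ll Big RHS)

namespace Pool.Agent.W5h24.SP

lemma near_le {l : ℝ} (hl : 0 < l) : ∀ᶠ y : ℝ in atTop, 31 * y ^ (1 - l) ≤ y / 2 := by
  filter_upwards [pow_gap (show 1 - l < 1 by linarith) 62] with y h1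
  rw [Real.rpow_one] at h1
  linarith

lemma two_mul_tendsto : Tendsto (fun x : ℝ => 2 * x) atTop atTop :=
  tendsto_id.const_mul_atTop (by norm_num)

lemma two_pow (a : ℝ) {lam : ℝ} (hlam : 0 < lam) : ∀ᶠ x : ℝ in atTop, x ^ (a - lam) ≤ (2 * x) ^ a := by
  filter_upwards [pow_gap (show a - lam < a by linarith) ((2 : ℝ) ^ a)⁻¹, eventually_gt_atTop 0]
    with x h1 h2
  have h3 : (0 : ℝ) < 2 ^ a := Real.rpow_pos_of_pos (by norm_num) _
  rw [Real.mul_rpow (by norm_num) h2.le]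
  rw [inv_mul_le_iff₀ h3] at h1
  exact h1

lemma to_window {l : ℝ} (hl : 0 < l) : ∀ᶠ x : ℝ in atTop, ∀ (y : ℝ) (m : ℕ), 2 * x ≤ y →
    y ≤ 2 * x * Real.log (2 * x) → |(m : ℝ) - y| ≤ 31 * y ^ (1 - l) →
    x ≤ m ∧ (m : ℝ) ≤ x * Real.log x ^ 2 ∧ y / 2 ≤ m ∧ (m : ℝ) ≤ 2 * y := by
  filter_upwards [Real.tendsto_log_atTop.eventually_ge_atTop 6, eventually_ge_atTop 2,
    ev_win (near_le hl)] with x h1 hx h3 y m hy1 hy2 hm
  have h4 := h3 y (by linarith)
  have h5 := abs_le.1 (hm.trans h4)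
  have h2 : Real.log (2 * x) ≤ 2 * Real.log x := by
    rw [Real.log_mul (by norm_num) (by linarith)]
    have : Real.log 2 ≤ Real.log x := Real.log_le_log (by norm_num) hx
    linarith
  refine ⟨by linarith, ?_, by linarith, by linarith⟩
  calc (m : ℝ) ≤ 3 / 2 * y := by linarith
    _ ≤ 3 / 2 * (2 * x * (2 * Real.log x)) := by
        refine mul_le_mul_of_nonneg_left (hy2.trans ?_) (by norm_num)
        exact mul_le_mul_of_nonneg_left h2 (by linarith)
    _ = x * (6 * Real.log x) := by ring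
    _ ≤ x * Real.log x ^ 2 := by
        refine mul_le_mul_of_nonneg_left ?_ (by linarith)
        rw [sq]
        exact mul_le_mul_of_nonneg_right h1 (by linarith)

/-- the members of `A` in the window `[x, x (log x)^2]` with `s E(m) ≥ g(m)`, `E(m) = f(log m)` -/
def WS (f : ℝ → ℝ) (A : ℕ → Prop) (g : ℝ → ℝ) (s x : ℝ) : Set ℕ :=
  {m : ℕ | A m ∧ x ≤ m ∧ (m : ℝ) ≤ x * Real.log x ^ 2 ∧ g m ≤ s * f (Real.log m)}

lemma ws_fin (f : ℝ → ℝ) (A : ℕ → Prop) (g : ℝ → ℝ) (s x : ℝ) : (WS f A g s x).Finite :=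
  (Set.finite_Iic ⌊x * Real.log x ^ 2⌋₊).subset fun _ hm => Nat.le_floor hm.2.2.1

/-- the number of the sampled integers with large values -/
theorem count_win {f g g' : ℝ → ℝ}
    (hstep : ∀ u u' : ℝ, ⌊Real.exp u⌋₊ = ⌊Real.exp u'⌋₊ → f u = f u')
    {A : ℕ → Prop} {β l l' : ℝ} (hl : 0 < l) (hl1 : l ≤ 1) (hl' : 0 < l')
    (hT : Thin {u | ¬ ∃ q ∈ US A, |q - u| ≤ 15 * Real.exp (-(l * u)) ∧
      |f u - f q| ≤ Real.exp (β * u)} l')
    (hB : ∀ lam : ℝ, 0 < lam → ∀ᶠ x : ℝ in atTop, ∀ s : ℝ, s = 1 ∨ s = -1 →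
      x ^ (1 - lam) ≤ (volume (Big f g s x)).toReal)
    (hg : ∀ᶠ y : ℝ in atTop, ∀ m : ℕ, y / 2 ≤ m → (m : ℝ) ≤ 2 * y → g' m ≤ g y - y ^ β)
    {lam : ℝ} (hlam : 0 < lam) :
    ∀ᶠ x : ℝ in atTop, ∀ s : ℝ, s = 1 ∨ s = -1 → x ^ (l - lam) ≤ ((WS f A g' s x).ncard : ℝ) := by
  have key : ∀ s : ℝ, s = 1 ∨ s = -1 →
      ∀ᶠ x : ℝ in atTop, x ^ (l - lam) ≤ ((WS f A g' s x).ncard : ℝ) := by
    intro s hs
    have h1 := many hstep (A := A) hl hl1 hl' hT (T := fun x => Big f g s x)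
      (Eventually.of_forall fun x y hy => hy.1)
      (fun lam hlam => (hB lam hlam).mono fun x hx => hx s hs) (lam := lam / 2) (by linarith)
    filter_upwards [two_mul_tendsto.eventually h1, to_window hl, ev_win hg,
      two_pow (l - lam / 2) (show 0 < lam / 2 by linarith), eventually_gt_atTop 0]
      with x g1 g2 g3 g4 hx0
    have e1 : l - lam / 2 - lam / 2 = l - lam := by ring
    rw [e1] at g4
    refine g4.trans (g1.trans ?_)
    have hsub : {m : ℕ | A m ∧ ∃ y ∈ Big f g s (2 * x), |(m : ℝ) - y| ≤ 31 * y ^ (1 - l) ∧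
        |f (Real.log y) - f (Real.log m)| ≤ y ^ β} ⊆ WS f A g' s x := by
      rintro m ⟨k1, y, ⟨⟨k2, k3⟩, k4⟩, k5, k6⟩
      obtain ⟨w1, w2, w3, w4⟩ := g2 y m k2 k3 k5
      refine ⟨k1, w1, w2, ?_⟩
      have e2 := g3 y (by linarith) m w3 w4
      have e3 : g y ≤ s * f (Real.log y) := k4
      have e4 : s * f (Real.log y) - s * f (Real.log m) ≤ |f (Real.log y) - f (Real.log m)| := by
        rw [← mul_sub]
        refine (le_abs_self _).trans ?_
        rw [abs_mul]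
        rcases hs with rfl | rfl <;> simp
      linarith
    exact_mod_cast Set.ncard_le_ncard hsub (ws_fin _ _ _ _ _)
  filter_upwards [key 1 (Or.inl rfl), key (-1) (Or.inr rfl)] with x h1 h2 s hs
  rcases hs with rfl | rfl
  · exact h1
  · exact h2

/-- an exponent slightly smaller than `l` -/
lemma near_exp {l lam : ℝ} (hl : 0 < l) (hlam : 0 < lam) :
    ∃ l₁ : ℝ, 0 < l₁ ∧ l₁ < l ∧ l - lam ≤ l₁ - lam / 2 := by
  have h1 := min_le_left (lam / 2) (l / 2)
  have h2 := min_le_right (lam / 2) (l / 2)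
  have h3 : 0 < min (lam / 2) (l / 2) := lt_min (by linarith) (by linarith)
  exact ⟨l - min (lam / 2) (l / 2), by linarith, by linarith, by linarith⟩

lemma sqrt_two_le {y : ℝ} {m : ℕ} (h : (m : ℝ) ≤ 2 * y) : √(m : ℝ) ≤ 2 * √y := by
  rw [show (2 : ℝ) = √4 by rw [show (4 : ℝ) = 2 ^ 2 by norm_num]; exact (Real.sqrt_sq (by norm_num)).symm,
    ← Real.sqrt_mul (by norm_num)]
  refine Real.sqrt_le_sqrt ?_
  have : (0 : ℝ) ≤ m := Nat.cast_nonneg m
  linarith

/-- **Zeros to the right.** -/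
theorem count_right {f : ℝ → ℝ} (hf : Good f) (hTr : TrC f)
    (hstep : ∀ u u' : ℝ, ⌊Real.exp u⌋₊ = ⌊Real.exp u'⌋₊ → f u = f u') {A : ℕ → Prop} {l : ℝ}
    (hl : 0 < l) (hl1 : l ≤ 1) (hA : Samples l A) {θ : ℝ} (hθ : 1 / 2 ≤ θ)
    (hz : ∃ z : ℂ, riemannZeta z = 0 ∧ θ < z.re) {lam : ℝ} (hlam : 0 < lam) :
    ∀ᶠ x : ℝ in atTop, ∀ s : ℝ, s = 1 ∨ s = -1 →
      x ^ (l - lam) ≤ ((WS f A (fun y => y ^ θ) s x).ncard : ℝ) := by
  obtain ⟨σ0, h1, h2, h3, h4⟩ := Pool.Agent.R303.SW.supre hz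
  obtain ⟨l₁, hl₁, hl₂, hl₃⟩ := near_exp hl hlam
  set β : ℝ := max θ (σ0 - l₁ / 4) with hβ
  have hβ1 : θ ≤ β := le_max_left _ _
  have hβ2 : σ0 - l₁ / 4 ≤ β := le_max_right _ _
  have hβ3 : β < σ0 := max_lt h1 (by linarith)
  obtain ⟨ρ, hρ, hρe⟩ := h4 ((σ0 - β) / 2) (by linarith)
  obtain ⟨l', hl', hT⟩ := hTr σ0 l₁ β (by linarith) h3 hl₁ (by linarith) (by linarith) (US A)
    (meets_of hA hl hl₂ (by linarith))
  set θ₂ : ℝ := (β + σ0) / 2 with hθ₂
  have hp := count_win hstep (g := fun y => y ^ θ₂) (g' := fun y => y ^ θ) hl₁ (by linarith) hl' hT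
    (fun lam hlam => Pool.Agent.W5h38.ML.big1 hf θ₂ (by linarith) ⟨ρ, hρ, by linarith⟩ lam hlam)
    (by
      filter_upwards [pow_gap (show β < θ₂ by linarith) 3, eventually_ge_atTop 1] with y g3 hy m _ k5
      have hy0 : 0 < y := by linarith
      have e2 : (m : ℝ) ^ θ ≤ 2 * y ^ β := by
        calc (m : ℝ) ^ θ ≤ (2 * y) ^ θ := Real.rpow_le_rpow (Nat.cast_nonneg m) k5 (by linarith)
          _ ≤ (2 * y) ^ β := Real.rpow_le_rpow_of_exponent_le (by linarith) hβ1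
          _ = 2 ^ β * y ^ β := Real.mul_rpow (by norm_num) hy0.le
          _ ≤ 2 * y ^ β := by
            refine mul_le_mul_of_nonneg_right ?_ (Real.rpow_nonneg hy0.le _)
            calc (2 : ℝ) ^ β ≤ 2 ^ (1 : ℝ) :=
                  Real.rpow_le_rpow_of_exponent_le (by norm_num) (by linarith)
              _ = 2 := Real.rpow_one 2
      show (m : ℝ) ^ θ ≤ y ^ θ₂ - y ^ β
      linarith) (show 0 < lam / 2 by linarith)
  filter_upwards [hp, eventually_ge_atTop 1] with x hx hx1 s hs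
  exact (Real.rpow_le_rpow_of_exponent_le hx1 hl₃).trans (hx s hs)

/-- the exceptional set, all zeros on the left of `1/2` -/
lemma trc_half {f : ℝ → ℝ} (hTr : TrC f) (h0 : ∀ s : ℂ, 1 / 2 < s.re → riemannZeta s ≠ 0)
    {A : ℕ → Prop} {l l₁ : ℝ} (hl : 0 < l) (hl1 : l ≤ 1) (hA : Samples l A) (hl₁ : 0 < l₁)
    (hl₂ : l₁ < l) :
    ∃ β l' : ℝ, β < 1 / 2 ∧ 0 < l' ∧
      Thin {u | ¬ ∃ q ∈ US A, |q - u| ≤ 15 * Real.exp (-(l₁ * u)) ∧
        |f u - f q| ≤ Real.exp (β * u)} l' := by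
  obtain ⟨l', hl', hT⟩ := hTr (1 / 2) l₁ (1 / 2 - l₁ / 4) le_rfl h0 hl₁ (by linarith)
    (by linarith) (US A) (meets_of hA hl hl₂ (by linarith))
  exact ⟨_, l', by linarith, hl', hT⟩

/-- **(S) fails.** -/
theorem count_fail {f : ℝ → ℝ} (hf : Good f) (hTr : TrC f)
    (hstep : ∀ u u' : ℝ, ⌊Real.exp u⌋₊ = ⌊Real.exp u'⌋₊ → f u = f u') (hn : ¬ RHS) :
    ∃ c : ℝ, 0 < c ∧ ∀ (l : ℝ) (A : ℕ → Prop), 0 < l → l ≤ 1 → Samples l A → ∀ lam : ℝ, 0 < lam →
    ∀ᶠ x : ℝ in atTop, ∀ s : ℝ, s = 1 ∨ s = -1 →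
      x ^ (l - lam) ≤ ((WS f A (fun y => c * (√y * Real.log y)) s x).ncard : ℝ) := by
  by_cases hoff : ∃ s : ℂ, riemannZeta s = 0 ∧ 1 / 2 < s.re
  · obtain ⟨s0, hs0, hs1⟩ := hoff
    set θ := (1 / 2 + s0.re) / 2 with hθ
    have h1 : 1 / 2 < θ := by rw [hθ]; linarith
    have h2 : θ < s0.re := by rw [hθ]; linarith
    refine ⟨1, one_pos, fun l A hl hl1 hA lam hlam => ?_⟩
    have t1 : ∀ᶠ y : ℝ in atTop, √y * Real.log y ≤ y ^ θ := by
      filter_upwards [log_gap (show 0 < θ - 1 / 2 by linarith) 1, eventually_ge_atTop 1] with y hy hy1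
      have e1 : y ^ θ = √y * y ^ (θ - 1 / 2) := by
        rw [Real.sqrt_eq_rpow, ← Real.rpow_add (by linarith)]; congr 1; ring
      rw [e1]
      refine mul_le_mul_of_nonneg_left ?_ (Real.sqrt_nonneg _)
      linarith
    filter_upwards [count_right hf hTr hstep hl hl1 hA h1.le ⟨s0, hs0, h2⟩ hlam, ev_win t1]
      with x g1 g2 s hs
    refine (g1 s hs).trans ?_
    have hsub : WS f A (fun y => y ^ θ) s x ⊆ WS f A (fun y => 1 * (√y * Real.log y)) s x := by
      rintro m ⟨k1, k2, k3, k4⟩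
      refine ⟨k1, k2, k3, ?_⟩
      show 1 * (√(m : ℝ) * Real.log m) ≤ _
      rw [one_mul]
      exact (g2 m k2).trans k4
    exact_mod_cast Set.ncard_le_ncard hsub (ws_fin _ _ _ _ _)
  · push Not at hoff
    obtain ⟨c, hc, h⟩ := Pool.Agent.W5h38.ML.big2 hf hn
    refine ⟨c / 8, by positivity, fun l A hl hl1 hA lam hlam => ?_⟩
    obtain ⟨l₁, hl₁, hl₂, hl₃⟩ := near_exp hl hlam
    obtain ⟨β, l', hβ, hl', hT⟩ := trc_half hTr
      (fun s hs h0 => absurd (hoff s h0) (by linarith)) hl hl1 hA hl₁ hl₂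
    have hp := count_win hstep (g' := fun y => c / 8 * (√y * Real.log y)) hl₁ (by linarith) hl' hT h
      (by
        filter_upwards [pow_gap hβ (2 / c), eventually_ge_atTop 4] with y e1 hy4 m k4 k5
        have hm0 : (0 : ℝ) < m := by linarith
        rw [← Real.sqrt_eq_rpow, div_mul_eq_mul_div, div_le_iff₀ hc] at e1
        have e2 : √(m : ℝ) ≤ 2 * √y := sqrt_two_le k5
        have e3 : Real.log m ≤ 2 * Real.log y := by
          have h1 : Real.log m ≤ Real.log (2 * y) := Real.log_le_log hm0 k5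
          rw [Real.log_mul (by norm_num) (by linarith)] at h1
          have h2 : Real.log 2 ≤ Real.log y := Real.log_le_log (by norm_num) (by linarith)
          linarith
        have e4 : 1 ≤ Real.log y := by
          rw [Real.le_log_iff_exp_le (by linarith)]
          have := Real.exp_one_lt_d9
          linarith
        have e5 : 0 ≤ Real.log m := Real.log_nonneg (by linarith)
        have e6 : √(m : ℝ) * Real.log m ≤ 4 * (√y * Real.log y) := by
          calc √(m : ℝ) * Real.log m ≤ (2 * √y) * (2 * Real.log y) :=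
                mul_le_mul e2 e3 e5 (by positivity)
            _ = _ := by ring
        have e7 : √y * 1 ≤ √y * Real.log y := mul_le_mul_of_nonneg_left e4 (Real.sqrt_nonneg _)
        have e8 : 2 * y ^ β ≤ c * (√y * Real.log y) := by
          calc 2 * y ^ β ≤ √y * c := e1
            _ = c * (√y * 1) := by ring
            _ ≤ _ := mul_le_mul_of_nonneg_left e7 hc.le
        have e9 := mul_le_mul_of_nonneg_left e6 (show 0 ≤ c / 8 by positivity)
        show c / 8 * (√(m : ℝ) * Real.log m) ≤ c * (√y * Real.log y) - y ^ β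
        linarith) (show 0 < lam / 2 by linarith)
    filter_upwards [hp, eventually_ge_atTop 1] with x hx hx1 s hs
    exact (Real.rpow_le_rpow_of_exponent_le hx1 hl₃).trans (hx s hs)

lemma mm_step (u u' : ℝ) (h : ⌊Real.exp u⌋₊ = ⌊Real.exp u'⌋₊) : mm u = mm u' := by
  rw [mm_eq, mm_eq]
  exact Sa_step _ u u' h

/-- **`M`, unconditionally.** -/
theorem count_mob : ∃ c : ℝ, 0 < c ∧ ∀ (l : ℝ) (A : ℕ → Prop), 0 < l → l ≤ 1 → Samples l A →
    ∀ lam : ℝ, 0 < lam → ∀ᶠ x : ℝ in atTop, ∀ s : ℝ, s = 1 ∨ s = -1 →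
      x ^ (l - lam) ≤ ((WS mm A (fun y => c * √y) s x).ncard : ℝ) := by
  by_cases hn : RHS
  · obtain ⟨ρ, hρ, hρ1, hρ2⟩ := H313.TK.exists_zero
    have hρ3 : ρ.re = 1 / 2 := (hn ρ hρ (by linarith) hρ2).1
    have hfree : ∀ s : ℂ, 1 / 2 < s.re → riemannZeta s ≠ 0 := by
      intro s hs h0
      have := (hn s h0 (by linarith) (Pool.Agent.W190.zero_FF h0).2).1
      linarith
    obtain ⟨c, hc, hcore⟩ := H313.TK.core1' ρ hρ (by linarith) hρ2
    rw [hρ3] at hcore
    set c' : ℝ := c / (4 * (4 * H313.TK.C0 * H313.TK.D1 + 1)) with hc'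
    have hc'0 : 0 < c' := by
      have := H313.TK.C0_nonneg
      have := H313.TK.D1_nonneg
      positivity
    have hB : ∀ lam : ℝ, 0 < lam → ∀ᶠ x : ℝ in atTop, ∀ s : ℝ, s = 1 ∨ s = -1 →
        x ^ (1 - lam) ≤ (volume (Big mm (fun y => c' * y ^ (1 / 2 : ℝ)) s x)).toReal := by
      intro lam hlam
      obtain ⟨K, hK, hup⟩ := Pool.Agent.W5h38.ML.good_mm.up (1 / 2) le_rfl hfree (1 / 2 + lam / 2)
        (by linarith)
      have H := Pool.Agent.W5h38.ML.large_of_core mm H313.TK.mm_meas H313.TK.abs_mm_le (1 / 2)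
        (1 / 2 + lam / 2) K le_rfl (by norm_num) (by linarith) hK hup (fun _ => 1)
        (Eventually.of_forall fun _ => le_rfl) c hc hcore lam (by linarith)
      refine Pool.Agent.W5h38.ML.big_of (fun y => y ^ (1 / 2 : ℝ)) (fun _ => c') lam ?_ _
        (Eventually.of_forall fun x y _ => le_rfl)
      filter_upwards [H] with t ht s hs
      simpa only [one_mul] using ht s hs
    refine ⟨c' / 4, by positivity, fun l A hl hl1 hA lam hlam => ?_⟩
    obtain ⟨l₁, hl₁, hl₂, hl₃⟩ := near_exp hl hlam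
    obtain ⟨β, l', hβ, hl', hT⟩ := trc_half trc_mm hfree hl hl1 hA hl₁ hl₂
    have hp := count_win mm_step (g' := fun y => c' / 4 * √y) hl₁ (by linarith) hl' hT hB
      (by
        filter_upwards [pow_gap hβ (2 / c')] with y e1 m k4 k5
        rw [← Real.sqrt_eq_rpow, div_mul_eq_mul_div, div_le_iff₀ hc'0] at e1
        have e3 := mul_le_mul_of_nonneg_left (sqrt_two_le k5) (show 0 ≤ c' / 4 by positivity)
        show c' / 4 * √(m : ℝ) ≤ c' * y ^ (1 / 2 : ℝ) - y ^ β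
        rw [← Real.sqrt_eq_rpow]
        linarith) (show 0 < lam / 2 by linarith)
    filter_upwards [hp, eventually_ge_atTop 1] with x hx hx1 s hs
    exact (Real.rpow_le_rpow_of_exponent_le hx1 hl₃).trans (hx s hs)
  · obtain ⟨c, hc, h⟩ := count_fail Pool.Agent.W5h38.ML.good_mm trc_mm mm_step hn
    refine ⟨c, hc, fun l A hl hl1 hA lam hlam => ?_⟩
    filter_upwards [h l A hl hl1 hA lam hlam, eventually_ge_atTop (Real.exp 1)] with x g1 g2 s hs
    refine (g1 s hs).trans ?_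
    have hsub : WS mm A (fun y => c * (√y * Real.log y)) s x ⊆ WS mm A (fun y => c * √y) s x := by
      rintro m ⟨k1, k2, k3, k4⟩
      refine ⟨k1, k2, k3, le_trans ?_ k4⟩
      refine mul_le_mul_of_nonneg_left ?_ hc.le
      have h1 : 1 ≤ Real.log m := by
        rw [Real.le_log_iff_exp_le (by linarith [Real.exp_pos 1])]
        linarith
      nlinarith [Real.sqrt_nonneg (m : ℝ)]
    exact_mod_cast Set.ncard_le_ncard hsub (ws_fin _ _ _ _ _)

/-- the `k`-th powers meet the intervals, for all `l < 1/k` -/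
theorem pow_meets {k : ℕ} (hk : 1 ≤ k) {l : ℝ} (hl : l < 1 / k) :
    Samples l fun m => ∃ j : ℕ, m = j ^ k := by
  have hk0 : (0 : ℝ) < k := by exact_mod_cast hk
  have hbig : Tendsto (fun x : ℕ => (x : ℝ) ^ (1 / (k : ℝ) - l)) atTop atTop :=
    (tendsto_rpow_atTop (by linarith)).comp tendsto_natCast_atTop_atTop
  filter_upwards [hbig.eventually_ge_atTop ((k : ℝ) * 2 ^ k), eventually_ge_atTop 1] with x hx2 hx1
  set j : ℕ := ⌈(x : ℝ) ^ (1 / (k : ℝ))⌉₊ with hj
  have hx0 : (1 : ℝ) ≤ x := by exact_mod_cast hx1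
  have hxp : (0 : ℝ) < x := by linarith
  set y : ℝ := (x : ℝ) ^ (1 / (k : ℝ)) with hy
  have hy1 : 1 ≤ y := Real.one_le_rpow hx0 (by positivity)
  have hyk : y ^ k = x := by
    rw [hy, ← Real.rpow_natCast, ← Real.rpow_mul hxp.le, one_div_mul_cancel hk0.ne', Real.rpow_one]
  have hj1 : y ≤ j := Nat.le_ceil _
  have hj2 : (j : ℝ) < y + 1 := Nat.ceil_lt_add_one (by linarith)
  refine ⟨j ^ k, ?_, ?_, ⟨j, rfl⟩⟩
  · have : (x : ℝ) ≤ (j : ℝ) ^ k := by
      rw [← hyk]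
      exact pow_le_pow_left₀ (by linarith) hj1 k
    exact_mod_cast this
  · push_cast
    have h1 : (j : ℝ) ^ k ≤ (y + 1) ^ k := pow_le_pow_left₀ (Nat.cast_nonneg _) hj2.le k
    have h2 : (y + 1) ^ k ≤ y ^ k + k * 2 ^ k * (y ^ k / y) := by
      obtain ⟨m, rfl⟩ : ∃ m, k = m + 1 := ⟨k - 1, by omega⟩
      have h3 : (y + 1) ^ (m + 1) - y ^ (m + 1) ≤ (m + 1) * (y + 1) ^ m := by
        have h4 := (Commute.all (y + 1) y).geom_sum₂_mul (n := m + 1)
        have h5 : ∑ i ∈ Finset.range (m + 1), (y + 1) ^ i * y ^ (m + 1 - 1 - i) ≤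
            ∑ _i ∈ Finset.range (m + 1), (y + 1) ^ m := by
          refine Finset.sum_le_sum fun i hi => ?_
          have him : i ≤ m := by
            have := Finset.mem_range.1 hi
            omega
          calc (y + 1) ^ i * y ^ (m + 1 - 1 - i) ≤ (y + 1) ^ i * (y + 1) ^ (m + 1 - 1 - i) := by
                gcongr
                linarith
            _ = (y + 1) ^ m := by
                rw [← pow_add]
                congr 1
                omega
        rw [Finset.sum_const, Finset.card_range, nsmul_eq_mul, Nat.cast_add, Nat.cast_one] at h5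
        have h6 : y + 1 - y = 1 := by ring
        rw [h6, mul_one] at h4
        linarith
      have h4 : (y + 1) ^ m ≤ 2 ^ m * y ^ m := by
        rw [← mul_pow]
        exact pow_le_pow_left₀ (by linarith) (by linarith) m
      have h5 : y ^ (m + 1) / y = y ^ m := by
        rw [pow_succ]
        field_simp
      rw [h5]
      have h6 : (2 : ℝ) ^ m ≤ 2 ^ (m + 1) := pow_le_pow_right₀ (by norm_num) (by omega)
      have h7 : ((m : ℝ) + 1) * (y + 1) ^ m ≤ (m + 1) * (2 ^ (m + 1) * y ^ m) := by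
        refine mul_le_mul_of_nonneg_left (h4.trans ?_) (by positivity)
        exact mul_le_mul_of_nonneg_right h6 (by positivity)
      push_cast
      linarith
    rw [hyk] at h2
    have h3 : (k : ℝ) * 2 ^ k * (x / y) ≤ (x : ℝ) ^ (1 - l) := by
      have e1 : (x : ℝ) / y = (x : ℝ) ^ (1 - 1 / (k : ℝ)) := by
        rw [hy, Real.rpow_sub hxp, Real.rpow_one]
      have e2 : (x : ℝ) ^ (1 - l) = (x : ℝ) ^ (1 / (k : ℝ) - l) * (x : ℝ) ^ (1 - 1 / (k : ℝ)) := by
        rw [← Real.rpow_add hxp]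
        congr 1
        ring
      rw [e1, e2]
      exact mul_le_mul_of_nonneg_right hx2 (by positivity)
    linarith

end Pool.Agent.W5h24.SP
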