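import Pool.Agent.W5h24.SP.Forward
import Pool.Agent.W5h26.ES.Curve
import Pool.Agent.W5h26.ML.Curve

/-!
# The product of Birch and Swinnerton-Dyer at sparse sets of integers
-/

set_option autoImplicit false

open MeasureTheory Filter Topology Set
open scoped ENNReal
open Pool.Agent.TH942.LS (Dat)
open Pool.Agent.TH942.SL
open Pool.Agent.TH942.ES
open Pool.Agent.TH270.MS Pool.Agent.TH270.MS.EQ
open Pool.Agent.TH270.RS (cS' dat' DD_neg)
open Pool.Agent.W5h26.ES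
open Pool.Agent.W5h26.ML
open Pool.Agent.W5h26.OS
open Pool.Agent.W263.BSD (GoodPrime pointCount IsLSeries bsdProduct bsdStar bsdProduct_pos
  bsdStar_pos rsSum)

namespace Pool.Agent.W5h24.SP

variable {a b : ℤ} {F : ℂ → ℂ}

/-- the logarithm of the product and the sum of the local terms -/
theorem lp_close (hΔ : 4 * a ^ 3 + 27 * b ^ 2 ≠ 0) (hrs : Tendsto (rsSum a b) atTop (𝓝 0)) :
    ∃ K : ℝ, 0 ≤ K ∧ ∀ᶠ n : ℕ in atTop,
      |Real.log (bsdProduct a b n) - LP (nQ a b) (alQ a b) n| ≤ K := by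
  have E := sysQ a b
  have := E.cnt
  obtain ⟨e, he⟩ := Countable.exists_injective_nat ({p : ℕ // GoodPrime a b p} × ℕ)
  obtain ⟨M, hM0, hM⟩ := sh_lp E he
  have hlim := sh_product hΔ hrs he
  refine ⟨M + 1, by linarith, ?_⟩
  have hlog : Tendsto (fun n : ℕ => Real.log n) atTop atTop :=
    Real.tendsto_log_atTop.comp tendsto_natCast_atTop_atTop
  have h1 : Tendsto (fun u : ℝ => |Sh (lamS (nQ a b) e) (cS' (nQ a b) (alQ a b) e) u -
      Real.log (bsdProduct a b (Real.exp u))|) atTop (𝓝 |-(Real.log 2 / 2)|) := hlim.abs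
  have h2 : |-(Real.log 2 / 2)| < 1 := by
    rw [abs_neg, abs_of_pos (by have := Real.log_pos one_lt_two; linarith)]
    have := Real.log_le_sub_one_of_pos (x := 2) (by norm_num)
    linarith
  filter_upwards [hlog.eventually (h1.eventually (gt_mem_nhds h2)), eventually_ge_atTop 1] with n h3 h4
  have hn : (0 : ℝ) < n := by exact_mod_cast h4
  have hn1 : (1 : ℝ) ≤ n := by exact_mod_cast h4
  have h5 := hM (Real.log n) (Real.log_nonneg hn1)
  rw [Real.exp_log hn] at h3 h5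
  rw [Nat.floor_natCast] at h5
  have h6 := abs_sub_le (Real.log (bsdProduct a b n))
    (Sh (lamS (nQ a b) e) (cS' (nQ a b) (alQ a b) e) (Real.log n)) (LP (nQ a b) (alQ a b) n)
  rw [abs_sub_comm] at h3
  linarith

lemma pow_absorb {θ ε K : ℝ} (hθ : 0 ≤ θ) (hε : 0 < ε) :
    ∀ᶠ n : ℕ in atTop, (n : ℝ) ^ (θ + ε / 2) + K ≤ (n : ℝ) ^ (θ + ε) := by
  have h1 : Tendsto (fun n : ℕ => (n : ℝ) ^ (ε / 2)) atTop atTop :=
    (tendsto_rpow_atTop (by linarith)).comp tendsto_natCast_atTop_atTop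
  filter_upwards [h1.eventually_ge_atTop (|K| + 1), eventually_ge_atTop 1] with n h2 h3
  have hn : (1 : ℝ) ≤ n := by exact_mod_cast h3
  have h4 : (1 : ℝ) ≤ (n : ℝ) ^ (θ + ε / 2) := Real.one_le_rpow hn (by linarith)
  have h5 : (n : ℝ) ^ (θ + ε) = (n : ℝ) ^ (θ + ε / 2) * (n : ℝ) ^ (ε / 2) := by
    rw [← Real.rpow_add (by linarith)]
    congr 1
    ring
  rw [h5]
  have h6 := le_abs_self K
  have h7 := abs_nonneg K
  nlinarith

/-- **upper bounds for `P(n)` at a sparse set of integers: zero-free half-planes** -/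
theorem curve_free_upper (hΔ : 4 * a ^ 3 + 27 * b ^ 2 ≠ 0) (hF : IsLSeries a b F)
    (hrs : Tendsto (rsSum a b) atTop (𝓝 0)) {η C₀ : ℝ} {κ : ℕ} (hη : 0 < η)
    (hg : ∀ s : ℂ, 1 - η < s.re → ‖F s‖ ≤ C₀ * (1 + ‖s‖) ^ κ) {θ : ℝ} (hθ : 0 ≤ θ)
    (h : ∀ ε : ℝ, 0 < ε → ∃ l : ℝ, 0 < l ∧ Samples l fun n =>
      Real.log (bsdProduct a b n) ≤ (n : ℝ) ^ (θ + ε)) :
    ∀ s : ℂ, 1 + θ < s.re → F s ≠ 0 := by
  obtain ⟨K, hK0, hK⟩ := lp_close hΔ hrs
  have h1 := free_upper (curve_mc hF hη hg) hθ fun ε hε => by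
    obtain ⟨l, hl, h2⟩ := h (ε / 2) (by linarith)
    refine ⟨l, hl, h2.mono ?_⟩
    filter_upwards [hK, pow_absorb (K := K) hθ hε] with n h3 h4 h5
    have := (abs_le.1 h3).1
    linarith
  intro s hs
  have h2 := h1 (s - 1) (by rw [Complex.sub_re, Complex.one_re]; linarith)
  simpa using h2

/-- **lower bounds for `P(n)` at a sparse set of integers: zero-free half-planes** -/
theorem curve_free_lower (hΔ : 4 * a ^ 3 + 27 * b ^ 2 ≠ 0) (hF : IsLSeries a b F)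
    (hrs : Tendsto (rsSum a b) atTop (𝓝 0)) {η C₀ : ℝ} {κ : ℕ} (hη : 0 < η)
    (hg : ∀ s : ℂ, 1 - η < s.re → ‖F s‖ ≤ C₀ * (1 + ‖s‖) ^ κ) {θ : ℝ} (hθ : 0 ≤ θ)
    (h : ∀ ε : ℝ, 0 < ε → ∃ l : ℝ, 0 < l ∧ Samples l fun n =>
      -(n : ℝ) ^ (θ + ε) ≤ Real.log (bsdProduct a b n))
    (hreal : ∀ x : ℝ, 1 + θ < x → F x ≠ 0) :
    ∀ s : ℂ, 1 + θ < s.re → F s ≠ 0 := by
  obtain ⟨K, hK0, hK⟩ := lp_close hΔ hrs
  have h1 := free_lower (curve_mc hF hη hg) hθ (fun ε hε => by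
    obtain ⟨l, hl, h2⟩ := h (ε / 2) (by linarith)
    refine ⟨l, hl, h2.mono ?_⟩
    filter_upwards [hK, pow_absorb (K := K) hθ hε] with n h3 h4 h5
    have := (abs_le.1 h3).2
    linarith) (fun x hx => by
    have := hreal (1 + x) (by linarith)
    push_cast at this
    exact this)
  intro s hs
  have h2 := h1 (s - 1) (by rw [Complex.sub_re, Complex.one_re]; linarith)
  simpa using h2

lemma log_bound {ρ C : ℝ} (hC : 0 < C) {n : ℕ} (hn : 2 ≤ n) :
    0 < C * Real.log n ^ ρ ∧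
      Real.log (C * Real.log n ^ ρ) = Real.log C + ρ * Real.log (Real.log n) := by
  have h1 : 0 < Real.log n := Real.log_pos (by exact_mod_cast hn)
  have h2 : 0 < Real.log n ^ ρ := Real.rpow_pos_of_pos h1 _
  exact ⟨mul_pos hC h2, by rw [Real.log_mul hC.ne' h2.ne', Real.log_rpow h1]⟩

lemma order_one (hF : IsLSeries a b F) (r : ℕ) :
    analyticOrderAt (fun s => F (1 + s)) 0 = r ↔ analyticOrderAt F 1 = r :=
  Pool.Agent.W5h26.ML.order_shift (hF.1.analyticAt 1) r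

/-- **upper bounds for `P(n)` at a sparse set of integers: the order** -/
theorem curve_order_upper (hΔ : 4 * a ^ 3 + 27 * b ^ 2 ≠ 0) (hF : IsLSeries a b F)
    (hrs : Tendsto (rsSum a b) atTop (𝓝 0)) {η C₀ : ℝ} {κ : ℕ} (hη : 0 < η)
    (hg : ∀ s : ℂ, 1 - η < s.re → ‖F s‖ ≤ C₀ * (1 + ‖s‖) ^ κ) {l ρ C : ℝ} (hl : 0 < l) (hC : 0 < C)
    (h : Samples l fun n => bsdProduct a b n ≤ C * Real.log n ^ ρ) {r : ℕ}
    (hr : analyticOrderAt F 1 = r) :
    (∀ s : ℂ, 1 < s.re → F s ≠ 0) ∧ (r : ℝ) ≤ ρ := by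
  obtain ⟨K, hK0, hK⟩ := lp_close hΔ hrs
  obtain ⟨h1, h2⟩ := order_upper (curve_mc hF hη hg) (l := l) (ρ := ρ) (q := Real.log C + K) hl
    (h.mono (by
      filter_upwards [hK, eventually_ge_atTop 2] with n h3 h4 h5
      have h6 := Real.log_le_log (bsdProduct_pos _) h5
      rw [(log_bound hC h4).2] at h6
      have := (abs_le.1 h3).1
      linarith))
  refine ⟨fun s hs => ?_, ?_⟩
  · have h2 := h1 (s - 1) (by rw [Complex.sub_re, Complex.one_re]; linarith)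
    simpa using h2
  · have h3 := h2 r ((order_one hF r).2 hr)
    rwa [Nat.cast_zero, zero_add] at h3

/-- **lower bounds for `P(n)` at a sparse set of integers: the order** -/
theorem curve_order_lower (hΔ : 4 * a ^ 3 + 27 * b ^ 2 ≠ 0) (hF : IsLSeries a b F)
    (hrs : Tendsto (rsSum a b) atTop (𝓝 0)) {η C₀ : ℝ} {κ : ℕ} (hη : 0 < η)
    (hg : ∀ s : ℂ, 1 - η < s.re → ‖F s‖ ≤ C₀ * (1 + ‖s‖) ^ κ) {l ρ C : ℝ} (hl : 0 < l) (hC : 0 < C)
    (h : Samples l fun n => C * Real.log n ^ ρ ≤ bsdProduct a b n)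
    (hreal : ∀ x : ℝ, 1 < x → F x ≠ 0) {r : ℕ} (hr : analyticOrderAt F 1 = r) :
    (∀ s : ℂ, 1 < s.re → F s ≠ 0) ∧ ρ ≤ r := by
  obtain ⟨K, hK0, hK⟩ := lp_close hΔ hrs
  obtain ⟨h1, h2⟩ := order_lower (curve_mc hF hη hg) (l := l) (ρ := ρ) (q := K - Real.log C) hl
    (h.mono (by
      filter_upwards [hK, eventually_ge_atTop 2] with n h3 h4 h5
      have h6 := Real.log_le_log (log_bound hC h4).1 h5
      rw [(log_bound hC h4).2] at h6
      have := (abs_le.1 h3).2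
      linarith)) (fun x hx => by
    have := hreal (1 + x) (by linarith)
    push_cast at this
    exact this)
  refine ⟨fun s hs => ?_, ?_⟩
  · have h2 := h1 (s - 1) (by rw [Complex.sub_re, Complex.one_re]; linarith)
    simpa using h2
  · have h3 := h2 r ((order_one hF r).2 hr)
    rwa [Nat.cast_zero, zero_add] at h3

/-- **The values at a sparse set of integers determine all but few of the values.** -/
theorem curve_few (hΔ : 4 * a ^ 3 + 27 * b ^ 2 ≠ 0) (hF : IsLSeries a b F)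
    (hrs : Tendsto (rsSum a b) atTop (𝓝 0)) {η C₀ : ℝ} {κ : ℕ} (hη : 0 < η)
    (hg : ∀ s : ℂ, 1 - η < s.re → ‖F s‖ ≤ C₀ * (1 + ‖s‖) ^ κ) {ρ A : ℝ} (hA : A ≠ 0)
    (h : ∀ ε : ℝ, 0 < ε → ∃ l : ℝ, 0 < l ∧ Samples l fun n =>
      |bsdProduct a b n / Real.log n ^ ρ - A| < ε) :
    ∀ ε : ℝ, 0 < ε → Few fun n => ε ≤ |bsdProduct a b n / Real.log n ^ ρ - A| := by
  have hlogpos : ∀ n : ℕ, 2 ≤ n → 0 < Real.log n := fun n hn => Real.log_pos (by exact_mod_cast hn)
  have hpos : ∀ n : ℕ, 2 ≤ n → 0 < bsdProduct a b n / Real.log n ^ ρ := fun n hn =>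
    div_pos (bsdProduct_pos _) (Real.rpow_pos_of_pos (hlogpos n hn) _)
  have hA0 : 0 < A := by
    rcases lt_or_gt_of_ne hA with h1 | h1
    · exfalso
      obtain ⟨l, hl, h2⟩ := h (-A) (by linarith)
      obtain ⟨x, ⟨n, h3, -, h4⟩, h5⟩ := (h2.and (eventually_ge_atTop 2)).exists
      have h6 := hpos n (h5.trans h3)
      rw [abs_of_pos (by linarith)] at h4
      linarith
    · exact h1
  obtain ⟨r, hr⟩ := Pool.Agent.W263.BSD.order_finite hF
  have hne1 : ∀ s : ℂ, 1 < s.re → F s ≠ 0 := by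
    obtain ⟨l, hl, h1⟩ := h 1 one_pos
    refine (curve_order_upper hΔ hF hrs hη hg (l := l) (ρ := ρ) (C := A + 1) hl (by linarith)
      (h1.mono ?_) hr).1
    filter_upwards [eventually_ge_atTop 2] with n hn h2
    have h3 := (abs_lt.1 h2).2
    have h4 := Real.rpow_pos_of_pos (hlogpos n hn) ρ
    rw [← div_le_iff₀ h4]
    linarith
  have hne : ∀ s : ℂ, 0 < s.re → (fun s => F (1 + s)) s ≠ 0 := fun s hs => hne1 _ (by
    rw [Complex.add_re, Complex.one_re]
    linarith)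
  have H := curve_mc hF hη hg
  obtain ⟨e, g, p, he, Q⟩ := H.cn
  set lam := lamS (nQ a b) e with hlam
  set c := cS' (nQ a b) (alQ a b) e with hc
  have hlim := sh_product hΔ hrs he
  rw [← hlam, ← hc] at hlim
  intro ε hε
  -- continuity of the exponential function at `log A`
  obtain ⟨d, hd, hexpA⟩ : ∃ d : ℝ, 0 < d ∧ ∀ y : ℝ, |y - Real.log A| < d → |Real.exp y - A| < ε := by
    obtain ⟨d, hd, h2⟩ := Metric.continuousAt_iff.1 (Real.continuous_exp.continuousAt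
      (x := Real.log A)) ε hε
    refine ⟨d, hd, fun y hy => ?_⟩
    have := h2 (x := y) (by rwa [Real.dist_eq])
    rwa [Real.dist_eq, Real.exp_log hA0] at this
  -- continuity of the logarithm at `A`
  obtain ⟨ε', hε', hlogA⟩ : ∃ ε' : ℝ, 0 < ε' ∧ ∀ y : ℝ, |y - A| < ε' →
      |Real.log y - Real.log A| < d / 8 := by
    obtain ⟨d', hd', h2⟩ := Metric.continuousAt_iff.1 (Real.continuousAt_log hA0.ne') (d / 8)
      (by linarith)
    refine ⟨d', hd', fun y hy => ?_⟩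
    have := h2 (x := y) (by rwa [Real.dist_eq])
    rwa [Real.dist_eq] at this
  obtain ⟨l, hl, hS⟩ := h ε' hε'
  obtain ⟨m0, m1, m2, m3⟩ := half_lt hl
  obtain ⟨l', hl', hT⟩ := thin_dev Q (sh_floor H.E he) hne m0 m1 (meets_of hS hl m2 m3) ρ
    (show 0 < d / 8 by linarith)
  refine few_of_thin hl' (hT.mono ?_)
  have hnat : ∀ {P : ℝ → Prop}, (∀ᶠ u : ℝ in atTop, P u) →
      ∀ᶠ n : ℕ in atTop, ∀ u : ℝ, (n : ℝ) - 1 ≤ u → P u := by
    intro P hP
    obtain ⟨A, hA⟩ := eventually_atTop.1 hP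
    filter_upwards [eventually_ge_atTop (⌈A⌉₊ + 1)] with n hn u hu
    refine hA u ?_
    have h1 := Nat.le_ceil A
    have h2 : ((⌈A⌉₊ : ℕ) : ℝ) + 1 ≤ n := by exact_mod_cast hn
    linarith
  have c1 : ∀ᶠ u : ℝ in atTop, |Sh lam c u - Real.log (bsdProduct a b (Real.exp u)) +
      Real.log 2 / 2| < d / 8 := by
    have h1 := (Metric.tendsto_nhds.1 hlim) (d / 8) (by linarith)
    filter_upwards [h1] with u hu
    rw [Real.dist_eq, sub_neg_eq_add] at hu
    exact hu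
  have c2 : ∀ᶠ u : ℝ in atTop,
      |ρ * (Real.log u - Real.log (Real.log (⌊Real.exp u⌋₊ : ℕ)))| < d / 8 := by
    have h1 : Tendsto (fun u : ℝ => |ρ| * (4 * Real.exp (-u))) atTop (𝓝 0) := by
      have h2 : Tendsto (fun u : ℝ => Real.exp (-u)) atTop (𝓝 0) :=
        Real.tendsto_exp_atBot.comp tendsto_neg_atTop_atBot
      have h3 := (h2.const_mul 4).const_mul |ρ|
      simpa using h3
    filter_upwards [h1.eventually (gt_mem_nhds (by linarith : (0 : ℝ) < d / 8)),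
      eventually_ge_atTop 2] with u h2 h3
    obtain ⟨f1, f2, f3, f4⟩ := floor_facts h3
    refine lt_of_le_of_lt ?_ h2
    rw [abs_mul]
    refine mul_le_mul_of_nonneg_left ?_ (abs_nonneg ρ)
    set v : ℝ := Real.log (⌊Real.exp u⌋₊ : ℕ) with hv
    have e1 : 2 * Real.exp (-u) ≤ 1 := by
      have h5 : Real.exp (-u) ≤ Real.exp (-1) := Real.exp_le_exp.2 (by linarith)
      have h6 : Real.exp (-1) < 1 / 2 := by
        rw [Real.exp_neg, inv_lt_comm₀ (Real.exp_pos _) (by norm_num)]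
        have := Real.exp_one_gt_d9
        norm_num
        linarith
      linarith
    have f5 := abs_le.1 f4
    have hv1 : 1 ≤ v := by linarith [f5.2]
    have hvu : v ≤ u := by
      rw [hv]
      have : Real.log (⌊Real.exp u⌋₊ : ℕ) ≤ Real.log (Real.exp u) :=
        Real.log_le_log (by linarith) f2
      rwa [Real.log_exp] at this
    rw [← Real.log_div (by linarith) (by linarith), abs_of_nonneg (Real.log_nonneg (by
      rw [le_div_iff₀ (by linarith)]
      linarith))]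
    have h7 := Real.log_le_sub_one_of_pos (x := u / v) (by positivity)
    have h8 : u / v - 1 = (u - v) / v := by field_simp
    have h9 : (u - v) / v ≤ u - v := div_le_self (by linarith) hv1
    have h10 : u - v ≤ 2 * Real.exp (-u) := by
      rw [abs_of_nonneg (by linarith)] at f4
      exact f4
    have := Real.exp_pos (-u)
    linarith
  -- the deviation in terms of the product
  have hdev : ∀ w : ℝ, 2 ≤ w → |Sh lam c w - Real.log (bsdProduct a b (Real.exp w)) +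
      Real.log 2 / 2| < d / 8 →
      |ρ * (Real.log w - Real.log (Real.log (⌊Real.exp w⌋₊ : ℕ)))| < d / 8 →
      |(Sh lam c w - ρ * Real.log w + Real.log 2 / 2) -
        Real.log (bsdProduct a b ((⌊Real.exp w⌋₊ : ℕ) : ℝ) /
          Real.log ((⌊Real.exp w⌋₊ : ℕ) : ℝ) ^ ρ)| < d / 4 := by
    intro w hw g1 g2
    obtain ⟨f1, f2, f3, f4⟩ := floor_facts hw
    have hv0 : 0 < Real.log (⌊Real.exp w⌋₊ : ℕ) := Real.log_pos f1
    rw [← product_floor, Real.log_div (bsdProduct_pos _).ne' (Real.rpow_pos_of_pos hv0 _).ne',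
      Real.log_rpow hv0]
    have e1 : (Sh lam c w - ρ * Real.log w + Real.log 2 / 2) -
        (Real.log (bsdProduct a b (Real.exp w)) -
          ρ * Real.log (Real.log ((⌊Real.exp w⌋₊ : ℕ) : ℝ))) =
        (Sh lam c w - Real.log (bsdProduct a b (Real.exp w)) + Real.log 2 / 2) -
        ρ * (Real.log w - Real.log (Real.log (⌊Real.exp w⌋₊ : ℕ))) := by ring
    rw [e1]
    have e2 := abs_sub (Sh lam c w - Real.log (bsdProduct a b (Real.exp w)) + Real.log 2 / 2)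
      (ρ * (Real.log w - Real.log (Real.log (⌊Real.exp w⌋₊ : ℕ))))
    linarith
  filter_upwards [hnat c1, hnat c2, eventually_ge_atTop 3] with n h1 h2 h3
  rintro u ⟨hu, hu1, hu2⟩ ⟨y, hy, hy1, hy2⟩
  have hn3 : (3 : ℝ) ≤ n := by exact_mod_cast h3
  have hyu := abs_le.1 hy1
  have g1 := hdev u (by linarith) (h1 u (by linarith)) (h2 u (by linarith))
  have g2 := hdev y (by linarith) (h1 y (by linarith)) (h2 y (by linarith))
  have hy' : |bsdProduct a b ((⌊Real.exp y⌋₊ : ℕ) : ℝ) /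
      Real.log ((⌊Real.exp y⌋₊ : ℕ) : ℝ) ^ ρ - A| < ε' := hy
  have g3 := hlogA _ hy'
  have hu' : ε ≤ |bsdProduct a b ((⌊Real.exp u⌋₊ : ℕ) : ℝ) /
      Real.log ((⌊Real.exp u⌋₊ : ℕ) : ℝ) ^ ρ - A| := hu
  set Pu : ℝ := bsdProduct a b ((⌊Real.exp u⌋₊ : ℕ) : ℝ) /
      Real.log ((⌊Real.exp u⌋₊ : ℕ) : ℝ) ^ ρ with hPu
  have hPu0 : 0 < Pu := by
    obtain ⟨f1, f2, f3, f4⟩ := floor_facts (show 2 ≤ u by linarith)
    exact div_pos (bsdProduct_pos _) (Real.rpow_pos_of_pos (Real.log_pos f1) _)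
  have g4 : |Real.log Pu - Real.log A| < d := by
    have e1 := abs_lt.1 g1
    have e2 := abs_lt.1 g2
    have e3 := abs_lt.1 g3
    have e4 := abs_le.1 hy2
    rw [abs_lt]
    constructor <;> linarith [e1.1, e1.2, e2.1, e2.2, e3.1, e3.2, e4.1, e4.2]
  have g5 := hexpA _ g4
  rw [Real.exp_log hPu0] at g5
  linarith

end Pool.Agent.W5h24.SP
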