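import Pool.Agent.W5h26.ES.Main

/-!
# The mean square of the differences of the partial sums, to the right of all zeros
-/

set_option autoImplicit false

open MeasureTheory Filter Topology Set Complex
open scoped ENNReal
open Pool.Agent.TH942.LS (Dat)
open Pool.Agent.TH942.SL
open Pool.Agent.TH942.RZ
open Pool.Agent.TH270.MS
open Pool.Agent.W5h26.ES

namespace Pool.Agent.W5h24.SP

variable {lam c : ℕ → ℝ} {δ σ : ℝ} {G₀ g : ℂ → ℂ} {k p κ : ℕ} {η C : ℝ}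

lemma one_sub_exp_le {ζ : ℂ} (h : 0 ≤ ζ.re) : ‖1 - exp (-ζ)‖ ≤ ‖ζ‖ := by
  have hconv : Convex ℝ {z : ℂ | 0 ≤ z.re} := convex_halfSpace_re_ge 0
  have h1 := hconv.norm_image_sub_le_of_norm_hasDerivWithin_le (f := fun z : ℂ => exp (-z))
    (f' := fun z : ℂ => -exp (-z)) (C := 1) (x := ζ) (y := 0)
    (fun z _ => by
      have := ((hasDerivAt_id z).neg.cexp)
      simpa using this.hasDerivWithinAt)
    (fun z hz => by
      rw [norm_neg, Complex.norm_exp, Complex.neg_re, Real.exp_le_one_iff]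
      have : 0 ≤ z.re := hz
      linarith) h (by simp)
  simpa using h1

lemma one_sub_exp_le_two {ζ : ℂ} (h : 0 ≤ ζ.re) : ‖1 - exp (-ζ)‖ ≤ 2 := by
  refine (norm_sub_le _ _).trans ?_
  rw [norm_one, Complex.norm_exp, Complex.neg_re]
  have : Real.exp (-ζ.re) ≤ 1 := by
    rw [Real.exp_le_one_iff]
    linarith
  linarith

/-- the square of the multiplier -/
lemma mult_sq {ζ : ℂ} (h : 0 ≤ ζ.re) {θ : ℝ} (h0 : 0 ≤ θ) (h2 : θ ≤ 2) :
    ‖1 - exp (-ζ)‖ ^ 2 ≤ 4 * ‖ζ‖ ^ θ := by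
  rcases le_or_gt ‖ζ‖ 1 with h1 | h1
  · have e1 : ‖1 - exp (-ζ)‖ ^ 2 ≤ ‖ζ‖ ^ 2 :=
      pow_le_pow_left₀ (norm_nonneg _) (one_sub_exp_le h) 2
    rcases (norm_nonneg ζ).eq_or_lt with hz | hz
    · rw [← hz] at e1 ⊢
      have e2 : (0 : ℝ) ≤ 4 * 0 ^ θ := by positivity
      linarith
    · have e2 : ‖ζ‖ ^ (2 : ℝ) ≤ ‖ζ‖ ^ θ := Real.rpow_le_rpow_of_exponent_ge hz h1 h2
      rw [Real.rpow_two] at e2
      have e3 : 0 ≤ ‖ζ‖ ^ θ := by positivity
      linarith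
  · have e1 : ‖1 - exp (-ζ)‖ ^ 2 ≤ 2 ^ 2 :=
      pow_le_pow_left₀ (norm_nonneg _) (one_sub_exp_le_two h) 2
    have e2 : 1 ≤ ‖ζ‖ ^ θ := Real.one_le_rpow h1.le h0
    linarith

/-- the integrable majorant -/
lemma decay {ε : ℝ} (hε : 0 < ε) : ∫⁻ t : ℝ, ENNReal.ofReal ((1 + |t|) ^ (-(1 + ε))) < ⊤ := by
  have h1 := integrable_one_add_norm (E := ℝ) (μ := volume) (r := 1 + ε) (by
    rw [Module.finrank_self]; push_cast; linarith)
  have h2 := h1.lintegral_lt_top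
  refine lt_of_le_of_lt (le_of_eq ?_) h2
  refine lintegral_congr fun t => ?_
  rw [Real.norm_eq_abs]

/-- **the mean square of the differences** to the right of all zeros -/
theorem diff_sq (E : Cn lam c δ σ G₀ g k p κ η C) {x₁ x : ℝ} (hx₁ : 0 < x₁) (hx : x₁ < x)
    (hx' : x ≤ x₁ + 1) (hne : ∀ s : ℂ, x₁ < s.re → G₀ s ≠ 0) {ε : ℝ} (hε : 0 < ε) (hε1 : ε < 1) :
    ∃ K : ℝ, 0 ≤ K ∧ ∀ w : ℝ, 0 < w →
      ∫⁻ u : ℝ, ENNReal.ofReal (((Sh lam c u - Sh lam c (u - w)) * Real.exp (-(x * u))) ^ 2) ≤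
        ENNReal.ofReal (K * w ^ (1 - ε)) := by
  have D := E.D
  have hσ := D.σ0
  have hx0 : 0 < x := hx₁.trans hx
  set Ψ : ℂ → ℂ := fun s => G₀ (s + x₁) / (s + x₁) ^ k with hΨ
  have hre : ∀ s : ℂ, (s + (x₁ : ℂ)).re = s.re + x₁ := fun s => by simp
  have hnz : ∀ s : ℂ, 0 < s.re → s + (x₁ : ℂ) ≠ 0 := by
    intro s hs h0
    have := hre s
    rw [h0, Complex.zero_re] at this
    linarith
  have hC0 : 0 ≤ C := by
    have := (norm_nonneg _).trans (E.hgrow 0 (by simpa using E.hη))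
    simpa using this
  have hΨd : ∀ s : ℂ, 0 < s.re → DifferentiableAt ℂ Ψ s := by
    intro s hs
    have h1 : DifferentiableAt ℂ G₀ (s + x₁) := E.hG _ (by rw [hre]; linarith [E.hη])
    have h2 : DifferentiableAt ℂ (fun s : ℂ => s + (x₁ : ℂ)) s := by fun_prop
    exact (h1.comp s h2).div (h2.pow k) (pow_ne_zero _ (hnz s hs))
  have hΨn : ∀ s : ℂ, 0 < s.re → Ψ s ≠ 0 := fun s hs =>
    div_ne_zero (hne _ (by rw [hre]; linarith)) (pow_ne_zero _ (hnz s hs))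
  have hΨg : ∀ s : ℂ, 0 < s.re →
      ‖Ψ s‖ ≤ (C * (1 + x₁) ^ κ / x₁ ^ k) * (1 + ‖s‖) ^ κ * (1 + 1 / s.re) ^ κ := by
    intro s hs
    have h2 := E.hgrow (s + x₁) (by rw [hre]; linarith [E.hη])
    have h3 : x₁ ≤ ‖s + (x₁ : ℂ)‖ := by
      have := Complex.re_le_norm (s + (x₁ : ℂ))
      rw [hre] at this
      linarith
    have h4 : 1 + ‖s + (x₁ : ℂ)‖ ≤ (1 + x₁) * (1 + ‖s‖) := by
      have h5 := norm_add_le s (x₁ : ℂ)
      rw [Complex.norm_real, Real.norm_of_nonneg hx₁.le] at h5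
      nlinarith [norm_nonneg s]
    have h6 : 1 ≤ (1 + 1 / s.re) ^ κ := one_le_pow₀ (by
      have : 0 ≤ 1 / s.re := by positivity
      linarith)
    rw [hΨ]
    simp only
    rw [norm_div, norm_pow]
    calc ‖G₀ (s + x₁)‖ / ‖s + (x₁ : ℂ)‖ ^ k ≤ (C * ((1 + x₁) * (1 + ‖s‖)) ^ κ) / x₁ ^ k := by
          refine div_le_div₀ (by positivity) (h2.trans ?_) (by positivity)
            (pow_le_pow_left₀ hx₁.le h3 k)
          exact mul_le_mul_of_nonneg_left (pow_le_pow_left₀ (by positivity) h4 κ) hC0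
      _ = (C * (1 + x₁) ^ κ / x₁ ^ k) * (1 + ‖s‖) ^ κ * 1 := by
        rw [mul_pow]
        ring
      _ ≤ _ := mul_le_mul_of_nonneg_left h6 (by positivity)
  obtain ⟨L, A₀, hLD, hLd, hLe, hLf⟩ := Pool.Agent.TH270.RS.exists_LD (G := fun _ => 0) (A' := 0)
    (dat_cx D hx₁.le) hΨd hΨn (fun s _ => differentiableAt_const _) (fun s hs => by
      have h1 : s + (x₁ : ℂ) ≠ 0 := hnz s (hσ.trans hs)
      rw [dd_cx, hΨ]
      simp only
      rw [← E.hexp _ (by rw [hre]; linarith), zero_sub]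
      field_simp) hΨg (fun s _ => by simp)
  set d : ℝ := x - x₁ with hd
  have hd0 : 0 < d := by rw [hd]; linarith
  obtain ⟨B, hB, hBB⟩ := hLD.pow hd0 (ε := ε / 4) (by linarith)
  set m : ℝ := min x 1 / 2 with hm
  have hm0 : 0 < m := by
    rw [hm]
    have : 0 < min x 1 := lt_min hx0 one_pos
    linarith
  set K₀ : ℝ := 4 * B ^ 2 * m ^ (-(1 + ε)) with hK₀
  have hK₀0 : 0 ≤ K₀ := by positivity
  set I₀ : ℝ := (∫⁻ t : ℝ, ENNReal.ofReal ((1 + |t|) ^ (-(1 + ε / 2)))).toReal with hI₀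
  have hI₀f := decay (ε := ε / 2) (by linarith)
  refine ⟨K₀ * I₀, mul_nonneg hK₀0 ENNReal.toReal_nonneg, fun w hw => ?_⟩
  set kf : ℝ → ℂ := fun u => ((Sh lam c u - Sh lam c (u - w) : ℝ) : ℂ) * exp (-((x₁ : ℂ) * u)) with hkf
  set H : ℂ → ℂ := fun s => (1 - exp (-((w : ℂ) * (s + x₁)))) * (-L s) / (s + x₁) with hH
  -- the bound on vertical lines
  have hHb : ∀ s : ℂ, d ≤ s.re → ‖H s‖ ^ 2 ≤
      4 * B ^ 2 * w ^ (1 - ε) * (1 + |s.im|) ^ (ε / 2) * ‖s + (x₁ : ℂ)‖ ^ (-(1 + ε)) := by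
    intro s hs
    have hs0 : 0 < s.re := hd0.trans_le hs
    have hz0 : 0 < ‖s + (x₁ : ℂ)‖ := norm_pos_iff.2 (hnz s hs0)
    have e1 : ‖1 - exp (-((w : ℂ) * (s + x₁)))‖ ^ 2 ≤ 4 * ‖(w : ℂ) * (s + x₁)‖ ^ (1 - ε) := by
      refine mult_sq ?_ (by linarith) (by linarith)
      rw [Complex.re_ofReal_mul, hre]
      have : 0 < s.re + x₁ := by linarith
      positivity
    rw [norm_mul (w : ℂ), Complex.norm_real, Real.norm_of_nonneg hw.le,
      Real.mul_rpow hw.le (norm_nonneg _)] at e1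
    have e2 : ‖L s‖ ^ 2 ≤ B ^ 2 * (1 + |s.im|) ^ (ε / 2) := by
      have := pow_le_pow_left₀ (norm_nonneg _) (hBB s hs) 2
      rw [mul_pow, ← Real.rpow_natCast ((1 + |s.im|) ^ (ε / 4)) 2, ← Real.rpow_mul (by positivity)] at this
      have h9 : ε / 4 * ((2 : ℕ) : ℝ) = ε / 2 := by push_cast; ring
      rwa [h9] at this
    rw [hH]
    simp only
    rw [norm_div, norm_mul, norm_neg, div_pow, mul_pow]
    have e3 : ‖s + (x₁ : ℂ)‖ ^ (1 - ε) / ‖s + (x₁ : ℂ)‖ ^ 2 = ‖s + (x₁ : ℂ)‖ ^ (-(1 + ε)) := by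
      rw [← Real.rpow_two, ← Real.rpow_sub hz0]
      congr 1
      ring
    rw [← e3]
    calc ‖1 - exp (-((w : ℂ) * (s + x₁)))‖ ^ 2 * ‖L s‖ ^ 2 / ‖s + (x₁ : ℂ)‖ ^ 2
        ≤ (4 * (w ^ (1 - ε) * ‖s + (x₁ : ℂ)‖ ^ (1 - ε))) * (B ^ 2 * (1 + |s.im|) ^ (ε / 2)) /
          ‖s + (x₁ : ℂ)‖ ^ 2 := by gcongr
      _ = _ := by ring
  have hd1 : ∀ s : ℂ, 0 < s.re → DifferentiableAt ℂ H s := by
    intro s hs
    have h1 : DifferentiableAt ℂ (fun s : ℂ => 1 - exp (-((w : ℂ) * (s + x₁)))) s := by fun_prop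
    have h2 : DifferentiableAt ℂ (fun s : ℂ => s + (x₁ : ℂ)) s := by fun_prop
    exact (h1.mul (hLd s hs).differentiableAt.neg).div h2 (hnz s hs)
  -- the Laplace transform
  have hshift : ∀ s : ℂ, σ < s.re → Integrable (fun u : ℝ => (Sh lam c (u - w) : ℂ) * exp (-(s * u))) ∧
      ∫ u : ℝ, (Sh lam c (u - w) : ℂ) * exp (-(s * u)) = exp (-((w : ℂ) * s)) * (DD lam c s / s) := by
    intro s hs
    have e1 : (fun u : ℝ => (Sh lam c (u - w) : ℂ) * exp (-(s * u))) =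
        fun u : ℝ => exp (-((w : ℂ) * s)) * ((Sh lam c (u - w) : ℂ) * exp (-(s * ((u - w : ℝ) : ℂ)))) := by
      funext u
      rw [mul_left_comm, ← Complex.exp_add]
      congr 2
      push_cast
      ring
    have i1 : Integrable fun u : ℝ => (Sh lam c (u - w) : ℂ) * exp (-(s * ((u - w : ℝ) : ℂ))) :=
      (sh_int D hs).comp_sub_right w
    rw [e1]
    refine ⟨i1.const_mul _, ?_⟩
    rw [integral_const_mul, integral_sub_right_eq_self
      (fun u : ℝ => (Sh lam c u : ℂ) * exp (-(s * (u : ℂ)))) w, sh_lap D hs]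
  have hlap : ∀ s : ℂ, σ < s.re → Integrable (fun u : ℝ => kf u * exp (-(s * u))) ∧
      H s = ∫ u : ℝ, kf u * exp (-(s * u)) := by
    intro s hs
    have hs1 : σ < (s + (x₁ : ℂ)).re := by rw [hre]; linarith
    obtain ⟨i1, i2⟩ := hshift (s + x₁) hs1
    have e1 : (fun u : ℝ => kf u * exp (-(s * u))) = fun u : ℝ =>
        (Sh lam c u : ℂ) * exp (-((s + x₁) * u)) - (Sh lam c (u - w) : ℂ) * exp (-((s + x₁) * u)) := by
      funext u
      rw [hkf]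
      simp only
      rw [mul_assoc, ← Complex.exp_add, ← sub_mul]
      push_cast
      congr 2
      ring
    rw [e1]
    refine ⟨(sh_int D hs1).sub i1, ?_⟩
    rw [integral_sub (sh_int D hs1) i1, sh_lap D hs1, i2, hH]
    simp only
    rw [hLf s hs, dd_cx]
    ring
  have hpt : ∀ t : ℝ, ‖H (d + t * I)‖ₑ ^ 2 ≤
      ENNReal.ofReal (K₀ * w ^ (1 - ε)) * ENNReal.ofReal ((1 + |t|) ^ (-(1 + ε / 2))) := by
    intro t
    have h1 := hHb (d + t * I) (by simp)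
    have him : ((d : ℂ) + t * I).im = t := by simp
    have hsum : ((d : ℂ) + t * I + x₁) = ((x : ℝ) : ℂ) + t * I := by
      rw [hd]
      push_cast
      ring
    rw [him, hsum] at h1
    have h2 : m * (1 + |t|) ≤ ‖((x : ℝ) : ℂ) + t * I‖ := by
      have e1 : x ≤ ‖((x : ℝ) : ℂ) + t * I‖ := by
        have := Complex.re_le_norm (((x : ℝ) : ℂ) + t * I)
        simpa using this
      have e2 : |t| ≤ ‖((x : ℝ) : ℂ) + t * I‖ := by
        have := Complex.abs_im_le_norm (((x : ℝ) : ℂ) + t * I)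
        simpa using this
      have e3 : min x 1 ≤ x := min_le_left _ _
      have e4 : min x 1 ≤ 1 := min_le_right _ _
      have e5 := abs_nonneg t
      rw [hm]
      nlinarith
    have hm1 : 0 < m * (1 + |t|) := by positivity
    have h3 : ‖((x : ℝ) : ℂ) + t * I‖ ^ (-(1 + ε)) ≤ (m * (1 + |t|)) ^ (-(1 + ε)) :=
      Real.rpow_le_rpow_of_nonpos hm1 h2 (by linarith)
    rw [Real.mul_rpow hm0.le (by positivity)] at h3
    rw [← ofReal_norm, ← ENNReal.ofReal_pow (norm_nonneg _), ← ENNReal.ofReal_mul (by positivity)]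
    apply ENNReal.ofReal_le_ofReal
    refine h1.trans ?_
    calc 4 * B ^ 2 * w ^ (1 - ε) * (1 + |t|) ^ (ε / 2) * ‖((x : ℝ) : ℂ) + t * I‖ ^ (-(1 + ε))
        ≤ 4 * B ^ 2 * w ^ (1 - ε) * (1 + |t|) ^ (ε / 2) *
          (m ^ (-(1 + ε)) * (1 + |t|) ^ (-(1 + ε))) := by gcongr
      _ = K₀ * w ^ (1 - ε) * ((1 + |t|) ^ (ε / 2) * (1 + |t|) ^ (-(1 + ε))) := by
        rw [hK₀]
        ring
      _ = _ := by
        rw [← Real.rpow_add (by positivity)]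
        congr 2
        ring
  have hfin : ∫⁻ t : ℝ, ‖H (d + t * I)‖ₑ ^ 2 ≤ ENNReal.ofReal (K₀ * I₀ * w ^ (1 - ε)) := by
    refine (lintegral_mono hpt).trans ?_
    rw [lintegral_const_mul' _ _ ENNReal.ofReal_ne_top, ← ENNReal.ofReal_toReal hI₀f.ne, ← hI₀,
      ← ENNReal.ofReal_mul (by positivity)]
    apply ENNReal.ofReal_le_ofReal
    apply le_of_eq
    ring
  have hbd : ∀ s : ℂ, d ≤ s.re → s.re ≤ σ + 1 → ‖H s‖ ≤ (4 * B ^ 2 * w ^ (1 - ε) * m ^ (-(1 + ε)) + 1) := by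
    intro s hs _
    have h1 := hHb s hs
    have h2 : m * (1 + |s.im|) ≤ ‖s + (x₁ : ℂ)‖ := by
      have e1 : x ≤ ‖s + (x₁ : ℂ)‖ := by
        have := Complex.re_le_norm (s + (x₁ : ℂ))
        rw [hre] at this
        rw [hd] at hs
        linarith
      have e2 : |s.im| ≤ ‖s + (x₁ : ℂ)‖ := by
        have := Complex.abs_im_le_norm (s + (x₁ : ℂ))
        simpa using this
      have e3 : min x 1 ≤ x := min_le_left _ _
      have e4 : min x 1 ≤ 1 := min_le_right _ _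
      have e5 := abs_nonneg s.im
      rw [hm]
      nlinarith
    have hm1 : 0 < m * (1 + |s.im|) := by positivity
    have h3 : ‖s + (x₁ : ℂ)‖ ^ (-(1 + ε)) ≤ (m * (1 + |s.im|)) ^ (-(1 + ε)) :=
      Real.rpow_le_rpow_of_nonpos hm1 h2 (by linarith)
    rw [Real.mul_rpow hm0.le (by positivity)] at h3
    have h4 : (1 + |s.im|) ^ (ε / 2) * (1 + |s.im|) ^ (-(1 + ε)) ≤ 1 := by
      rw [← Real.rpow_add (by positivity)]
      apply Real.rpow_le_one_of_one_le_of_nonpos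
      · linarith [abs_nonneg s.im]
      · linarith
    have h5 : ‖H s‖ ^ 2 ≤ 4 * B ^ 2 * w ^ (1 - ε) * m ^ (-(1 + ε)) := by
      refine h1.trans ?_
      calc 4 * B ^ 2 * w ^ (1 - ε) * (1 + |s.im|) ^ (ε / 2) * ‖s + (x₁ : ℂ)‖ ^ (-(1 + ε))
          ≤ 4 * B ^ 2 * w ^ (1 - ε) * (1 + |s.im|) ^ (ε / 2) *
            (m ^ (-(1 + ε)) * (1 + |s.im|) ^ (-(1 + ε))) := by gcongr
        _ = 4 * B ^ 2 * w ^ (1 - ε) * m ^ (-(1 + ε)) *
            ((1 + |s.im|) ^ (ε / 2) * (1 + |s.im|) ^ (-(1 + ε))) := by ring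
        _ ≤ 4 * B ^ 2 * w ^ (1 - ε) * m ^ (-(1 + ε)) * 1 :=
            mul_le_mul_of_nonneg_left h4 (by positivity)
        _ = _ := mul_one _
    nlinarith [norm_nonneg (H s), sq_nonneg (‖H s‖ - 1)]
  have key := PW.strip (k := kf) (H := H) (a := σ) (δ := d) hd0 (by rw [hd]; linarith)
    (by
      have := (hlap ((σ + 1 : ℝ) : ℂ) (by simp)).1
      exact this)
    (fun s hs => (hlap s hs).2) hd1 hbd (lt_of_le_of_lt hfin ENNReal.ofReal_lt_top)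
  refine le_trans (le_of_eq ?_) (key.trans hfin)
  refine lintegral_congr fun u => ?_
  rw [← ofReal_norm, ← ENNReal.ofReal_pow (norm_nonneg _)]
  congr 1
  rw [hkf]
  simp only
  rw [mul_assoc, ← Complex.exp_add, norm_mul, Complex.norm_real, Complex.norm_exp, mul_pow, mul_pow,
    Real.norm_eq_abs, sq_abs]
  congr 2
  congr 1
  have : (-((x₁ : ℂ) * u) + -((d : ℂ) * u)) = ((-(x * u) : ℝ) : ℂ) := by
    rw [hd]
    push_cast
    ring
  rw [this, Complex.ofReal_re]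

end Pool.Agent.W5h24.SP
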