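import Pool.Agent.W5h24.SP.Diff

/-!
# The mean square of the differences of a function with a given Laplace transform
-/

set_option autoImplicit false

open MeasureTheory Filter Topology Set Complex
open scoped ENNReal
open Pool.Agent.TH270.MS

namespace Pool.Agent.W5h24.SP

/-- the shifted function -/
lemma shift_lap {S : ℝ → ℝ} {w : ℝ} {s : ℂ} {V : ℂ}
    (h1 : Integrable fun u : ℝ => (S u : ℂ) * exp (-(s * u)))
    (h2 : ∫ u : ℝ, (S u : ℂ) * exp (-(s * u)) = V) :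
    Integrable (fun u : ℝ => (S (u - w) : ℂ) * exp (-(s * u))) ∧
      ∫ u : ℝ, (S (u - w) : ℂ) * exp (-(s * u)) = exp (-((w : ℂ) * s)) * V := by
  have e1 : (fun u : ℝ => (S (u - w) : ℂ) * exp (-(s * u))) =
      fun u : ℝ => exp (-((w : ℂ) * s)) * ((S (u - w) : ℂ) * exp (-(s * ((u - w : ℝ) : ℂ)))) := by
    funext u
    rw [mul_left_comm, ← Complex.exp_add]
    congr 2
    push_cast
    ring
  have i1 : Integrable fun u : ℝ => (S (u - w) : ℂ) * exp (-(s * ((u - w : ℝ) : ℂ))) :=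
    h1.comp_sub_right w
  rw [e1]
  refine ⟨i1.const_mul _, ?_⟩
  rw [integral_const_mul, integral_sub_right_eq_self
    (fun u : ℝ => (S u : ℂ) * exp (-(s * (u : ℂ)))) w, h2]

/-- **The mean square of the differences.** `L (s - x₁) / s` is the Laplace transform of `S` for
`Re s > σ + x₁`, and `L` is holomorphic for `Re s > 0`, and `O((1 + |t|)^(ε / 4))` for
`Re s ≥ x - x₁`. -/
theorem diff_of {S : ℝ → ℝ} {L : ℂ → ℂ} {x₁ x σ B ε : ℝ} (hx₁ : 0 < x₁) (hx : x₁ < x)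
    (hσ : x ≤ x₁ + σ + 1) (hε : 0 < ε) (hε1 : ε < 1)
    (hLd : ∀ s : ℂ, 0 < s.re → DifferentiableAt ℂ L s)
    (hLi : ∀ s : ℂ, σ + x₁ < s.re → Integrable fun u : ℝ => (S u : ℂ) * exp (-(s * u)))
    (hLe : ∀ s : ℂ, σ + x₁ < s.re → ∫ u : ℝ, (S u : ℂ) * exp (-(s * u)) = L (s - x₁) / s)
    (hBB : ∀ s : ℂ, x - x₁ ≤ s.re → ‖L s‖ ≤ B * (1 + |s.im|) ^ (ε / 4)) :
    ∃ K : ℝ, 0 ≤ K ∧ ∀ w : ℝ, 0 < w →
      ∫⁻ u : ℝ, ENNReal.ofReal (((S u - S (u - w)) * Real.exp (-(x * u))) ^ 2) ≤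
        ENNReal.ofReal (K * w ^ (1 - ε)) := by
  have hx0 : 0 < x := hx₁.trans hx
  have hre : ∀ s : ℂ, (s + (x₁ : ℂ)).re = s.re + x₁ := fun s => by simp
  have hnz : ∀ s : ℂ, 0 < s.re → s + (x₁ : ℂ) ≠ 0 := by
    intro s hs h0
    have := hre s
    rw [h0, Complex.zero_re] at this
    linarith
  set d : ℝ := x - x₁ with hd
  have hd0 : 0 < d := by rw [hd]; linarith
  set m : ℝ := min x 1 / 2 with hm
  have hm0 : 0 < m := by
    rw [hm]
    have : 0 < min x 1 := lt_min hx0 one_pos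
    linarith
  set K₀ : ℝ := 4 * B ^ 2 * m ^ (-(1 + ε)) with hK₀
  have hK₀0 : 0 ≤ K₀ := by positivity
  set I₀ : ℝ := (∫⁻ t : ℝ, ENNReal.ofReal ((1 + |t|) ^ (-(1 + ε / 2)))).toReal with hI₀
  have hI₀f := decay (ε := ε / 2) (by linarith)
  refine ⟨K₀ * I₀, mul_nonneg hK₀0 ENNReal.toReal_nonneg, fun w hw => ?_⟩
  set kf : ℝ → ℂ := fun u => ((S u - S (u - w) : ℝ) : ℂ) * exp (-((x₁ : ℂ) * u)) with hkf
  set H : ℂ → ℂ := fun s => (1 - exp (-((w : ℂ) * (s + x₁)))) * L s / (s + x₁) with hH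
  -- the bound on vertical lines
  have hHb : ∀ s : ℂ, d ≤ s.re → ‖H s‖ ^ 2 ≤
      4 * B ^ 2 * w ^ (1 - ε) * (1 + |s.im|) ^ (ε / 2) * ‖s + (x₁ : ℂ)‖ ^ (-(1 + ε)) := by
    intro s hs
    have hs0 : 0 < s.re := hd0.trans_le hs
    have hz0 : 0 < ‖s + (x₁ : ℂ)‖ := norm_pos_iff.2 (hnz s hs0)
    have e1 : ‖1 - exp (-((w : ℂ) * (s + x₁)))‖ ^ 2 ≤ 4 * ‖(w : ℂ) * (s + x₁)‖ ^ (1 - ε) := by
      refine mult_sq ?_ (by linarith) (by linarith)
      rw [Complex.re_ofReal_mul, hre]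
      have : 0 < s.re + x₁ := by linarith
      positivity
    rw [norm_mul (w : ℂ), Complex.norm_real, Real.norm_of_nonneg hw.le,
      Real.mul_rpow hw.le (norm_nonneg _)] at e1
    have e2 : ‖L s‖ ^ 2 ≤ B ^ 2 * (1 + |s.im|) ^ (ε / 2) := by
      have := pow_le_pow_left₀ (norm_nonneg _) (hBB s hs) 2
      rw [mul_pow, ← Real.rpow_natCast ((1 + |s.im|) ^ (ε / 4)) 2, ← Real.rpow_mul (by positivity)] at this
      have h9 : ε / 4 * ((2 : ℕ) : ℝ) = ε / 2 := by push_cast; ring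
      rwa [h9] at this
    rw [hH]
    simp only
    rw [norm_div, norm_mul, div_pow, mul_pow]
    have e3 : ‖s + (x₁ : ℂ)‖ ^ (1 - ε) / ‖s + (x₁ : ℂ)‖ ^ 2 = ‖s + (x₁ : ℂ)‖ ^ (-(1 + ε)) := by
      rw [← Real.rpow_two, ← Real.rpow_sub hz0]
      congr 1
      ring
    rw [← e3]
    calc ‖1 - exp (-((w : ℂ) * (s + x₁)))‖ ^ 2 * ‖L s‖ ^ 2 / ‖s + (x₁ : ℂ)‖ ^ 2
        ≤ (4 * (w ^ (1 - ε) * ‖s + (x₁ : ℂ)‖ ^ (1 - ε))) * (B ^ 2 * (1 + |s.im|) ^ (ε / 2)) /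
          ‖s + (x₁ : ℂ)‖ ^ 2 := by gcongr
      _ = _ := by ring
  have hd1 : ∀ s : ℂ, 0 < s.re → DifferentiableAt ℂ H s := by
    intro s hs
    have h1 : DifferentiableAt ℂ (fun s : ℂ => 1 - exp (-((w : ℂ) * (s + x₁)))) s := by fun_prop
    have h2 : DifferentiableAt ℂ (fun s : ℂ => s + (x₁ : ℂ)) s := by fun_prop
    exact (h1.mul (hLd s hs)).div h2 (hnz s hs)
  -- the Laplace transform
  have hlap : ∀ s : ℂ, σ < s.re → Integrable (fun u : ℝ => kf u * exp (-(s * u))) ∧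
      H s = ∫ u : ℝ, kf u * exp (-(s * u)) := by
    intro s hs
    have hs1 : σ + x₁ < (s + (x₁ : ℂ)).re := by rw [hre]; linarith
    obtain ⟨i1, i2⟩ := shift_lap (w := w) (hLi _ hs1) (hLe _ hs1)
    have e1 : (fun u : ℝ => kf u * exp (-(s * u))) = fun u : ℝ =>
        (S u : ℂ) * exp (-((s + x₁) * u)) - (S (u - w) : ℂ) * exp (-((s + x₁) * u)) := by
      funext u
      rw [hkf]
      simp only
      rw [mul_assoc, ← Complex.exp_add, ← sub_mul]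
      push_cast
      congr 2
      ring
    rw [e1]
    refine ⟨(hLi _ hs1).sub i1, ?_⟩
    rw [integral_sub (hLi _ hs1) i1, hLe _ hs1, i2, hH]
    simp only [add_sub_cancel_right]
    ring
  have hpt : ∀ t : ℝ, ‖H (d + t * I)‖ₑ ^ 2 ≤
      ENNReal.ofReal (K₀ * w ^ (1 - ε)) * ENNReal.ofReal ((1 + |t|) ^ (-(1 + ε / 2))) := by
    intro t
    have h1 := hHb (d + t * I) (by simp)
    have him : ((d : ℂ) + t * I).im = t := by simp
    have hsum : ((d : ℂ) + t * I + x₁) = ((x : ℝ) : ℂ) + t * I := by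
      rw [hd]
      push_cast
      ring
    rw [him, hsum] at h1
    have h2 : m * (1 + |t|) ≤ ‖((x : ℝ) : ℂ) + t * I‖ := by
      have e1 : x ≤ ‖((x : ℝ) : ℂ) + t * I‖ := by
        have := Complex.re_le_norm (((x : ℝ) : ℂ) + t * I)
        simpa using this
      have e2 : |t| ≤ ‖((x : ℝ) : ℂ) + t * I‖ := by
        have := Complex.abs_im_le_norm (((x : ℝ) : ℂ) + t * I)
        simpa using this
      have e3 : min x 1 ≤ x := min_le_left _ _
      have e4 : min x 1 ≤ 1 := min_le_right _ _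
      have e5 := abs_nonneg t
      rw [hm]
      nlinarith
    have hm1 : 0 < m * (1 + |t|) := by positivity
    have h3 : ‖((x : ℝ) : ℂ) + t * I‖ ^ (-(1 + ε)) ≤ (m * (1 + |t|)) ^ (-(1 + ε)) :=
      Real.rpow_le_rpow_of_nonpos hm1 h2 (by linarith)
    rw [Real.mul_rpow hm0.le (by positivity)] at h3
    rw [← ofReal_norm, ← ENNReal.ofReal_pow (norm_nonneg _), ← ENNReal.ofReal_mul (by positivity)]
    apply ENNReal.ofReal_le_ofReal
    refine h1.trans ?_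
    calc 4 * B ^ 2 * w ^ (1 - ε) * (1 + |t|) ^ (ε / 2) * ‖((x : ℝ) : ℂ) + t * I‖ ^ (-(1 + ε))
        ≤ 4 * B ^ 2 * w ^ (1 - ε) * (1 + |t|) ^ (ε / 2) *
          (m ^ (-(1 + ε)) * (1 + |t|) ^ (-(1 + ε))) := by gcongr
      _ = K₀ * w ^ (1 - ε) * ((1 + |t|) ^ (ε / 2) * (1 + |t|) ^ (-(1 + ε))) := by
        rw [hK₀]
        ring
      _ = _ := by
        rw [← Real.rpow_add (by positivity)]
        congr 2
        ring
  have hfin : ∫⁻ t : ℝ, ‖H (d + t * I)‖ₑ ^ 2 ≤ ENNReal.ofReal (K₀ * I₀ * w ^ (1 - ε)) := by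
    refine (lintegral_mono hpt).trans ?_
    rw [lintegral_const_mul' _ _ ENNReal.ofReal_ne_top, ← ENNReal.ofReal_toReal hI₀f.ne, ← hI₀,
      ← ENNReal.ofReal_mul (by positivity)]
    apply ENNReal.ofReal_le_ofReal
    apply le_of_eq
    ring
  have hbd : ∀ s : ℂ, d ≤ s.re → s.re ≤ σ + 1 → ‖H s‖ ≤ (4 * B ^ 2 * w ^ (1 - ε) * m ^ (-(1 + ε)) + 1) := by
    intro s hs _
    have h1 := hHb s hs
    have h2 : m * (1 + |s.im|) ≤ ‖s + (x₁ : ℂ)‖ := by
      have e1 : x ≤ ‖s + (x₁ : ℂ)‖ := by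
        have := Complex.re_le_norm (s + (x₁ : ℂ))
        rw [hre] at this
        rw [hd] at hs
        linarith
      have e2 : |s.im| ≤ ‖s + (x₁ : ℂ)‖ := by
        have := Complex.abs_im_le_norm (s + (x₁ : ℂ))
        simpa using this
      have e3 : min x 1 ≤ x := min_le_left _ _
      have e4 : min x 1 ≤ 1 := min_le_right _ _
      have e5 := abs_nonneg s.im
      rw [hm]
      nlinarith
    have hm1 : 0 < m * (1 + |s.im|) := by positivity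
    have h3 : ‖s + (x₁ : ℂ)‖ ^ (-(1 + ε)) ≤ (m * (1 + |s.im|)) ^ (-(1 + ε)) :=
      Real.rpow_le_rpow_of_nonpos hm1 h2 (by linarith)
    rw [Real.mul_rpow hm0.le (by positivity)] at h3
    have h4 : (1 + |s.im|) ^ (ε / 2) * (1 + |s.im|) ^ (-(1 + ε)) ≤ 1 := by
      rw [← Real.rpow_add (by positivity)]
      apply Real.rpow_le_one_of_one_le_of_nonpos
      · linarith [abs_nonneg s.im]
      · linarith
    have h5 : ‖H s‖ ^ 2 ≤ 4 * B ^ 2 * w ^ (1 - ε) * m ^ (-(1 + ε)) := by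
      refine h1.trans ?_
      calc 4 * B ^ 2 * w ^ (1 - ε) * (1 + |s.im|) ^ (ε / 2) * ‖s + (x₁ : ℂ)‖ ^ (-(1 + ε))
          ≤ 4 * B ^ 2 * w ^ (1 - ε) * (1 + |s.im|) ^ (ε / 2) *
            (m ^ (-(1 + ε)) * (1 + |s.im|) ^ (-(1 + ε))) := by gcongr
        _ = 4 * B ^ 2 * w ^ (1 - ε) * m ^ (-(1 + ε)) *
            ((1 + |s.im|) ^ (ε / 2) * (1 + |s.im|) ^ (-(1 + ε))) := by ring
        _ ≤ 4 * B ^ 2 * w ^ (1 - ε) * m ^ (-(1 + ε)) * 1 :=
            mul_le_mul_of_nonneg_left h4 (by positivity)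
        _ = _ := mul_one _
    nlinarith [norm_nonneg (H s), sq_nonneg (‖H s‖ - 1)]
  have key := PW.strip (k := kf) (H := H) (a := σ) (δ := d) hd0 (by rw [hd]; linarith)
    (by
      have := (hlap ((σ + 1 : ℝ) : ℂ) (by simp)).1
      exact this)
    (fun s hs => (hlap s hs).2) hd1 hbd (lt_of_le_of_lt hfin ENNReal.ofReal_lt_top)
  refine le_trans (le_of_eq ?_) (key.trans hfin)
  refine lintegral_congr fun u => ?_
  rw [← ofReal_norm, ← ENNReal.ofReal_pow (norm_nonneg _)]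
  congr 1
  rw [hkf]
  simp only
  rw [mul_assoc, ← Complex.exp_add, norm_mul, Complex.norm_real, Complex.norm_exp, mul_pow, mul_pow,
    Real.norm_eq_abs, sq_abs]
  congr 2
  congr 1
  have : (-((x₁ : ℂ) * u) + -((d : ℂ) * u)) = ((-(x * u) : ℝ) : ℂ) := by
    rw [hd]
    push_cast
    ring
  rw [this, Complex.ofReal_re]

end Pool.Agent.W5h24.SP
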