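import Pool.Agent.W5h24.SP.Close

/-!
# Many large values at sparse sets of integers
-/

set_option autoImplicit false

open MeasureTheory Filter Topology Set Complex
open scoped ENNReal
open H313.TK (MM mm)
open Pool.Agent.H295R2 (fz Zs fz_eq fz_bound zeta_bounds Zs_eq fz_differentiableAt moebius_lseries)
open Pool.Agent.W5h26.ES (Thin US)
open Pool.Agent.W5h38.ML (Good ll Big RHS)

namespace Pool.Agent.W5h24.SP

/-- **Transfer for bounded coefficients, with the distance.** -/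
theorem sa_close {a : ℕ → ℝ} (ha : ∀ n, |a n| ≤ 1) {L : ℂ → ℂ} {x₁ l β : ℝ} (hx₁ : 1 / 2 ≤ x₁)
    (hL : ∀ s : ℂ, x₁ < s.re → DifferentiableAt ℂ L s)
    (hLS : ∀ s : ℂ, 1 < s.re → LSeries (fun n => (a n : ℂ)) s = L s)
    (hb : ∀ σ ε : ℝ, x₁ < σ → 0 < ε →
      ∃ B : ℝ, 0 < B ∧ ∀ s : ℂ, σ ≤ s.re → ‖L s‖ ≤ B * (1 + |s.im|) ^ ε)
    (hl : 0 < l) (hl2 : l ≤ 1) (hβ : x₁ - l / 2 < β) {G : Set ℝ} (hG : Meets G l) :
    ∃ l' : ℝ, 0 < l' ∧ Thin {u | ¬ ∃ g ∈ G, |g - u| ≤ 15 * Real.exp (-(l * u)) ∧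
      |Sa a u - Sa a g| ≤ Real.exp (β * u)} l' := by
  set d : ℝ := min ((β - (x₁ - l / 2)) / 2) (1 / 2) with hd
  have hd0 : 0 < d := lt_min (by linarith) (by norm_num)
  have hd1 : d ≤ (β - (x₁ - l / 2)) / 2 := min_le_left _ _
  have hd2 : d ≤ 1 / 2 := min_le_right _ _
  obtain ⟨B, hB, hBB⟩ := hb (x₁ + d) (d / 4) (by linarith) (by linarith)
  obtain ⟨K, hK, hdiff⟩ := diff_of (S := Sa a) (L := fun s => L (s + x₁)) (x₁ := x₁) (x := x₁ + d)
    (σ := 1) (B := B) (ε := d) (by linarith) (by linarith) (by linarith) hd0 (by linarith)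
    (fun s hs => by
      have h1 : DifferentiableAt ℂ L (s + x₁) := hL _ (by simpa using hs)
      have h2 : DifferentiableAt ℂ (fun s : ℂ => s + (x₁ : ℂ)) s := by fun_prop
      exact DifferentiableAt.comp (g := L) (f := fun s : ℂ => s + (x₁ : ℂ)) s h1 h2)
    (fun s hs => Sa_int ha (by linarith))
    (fun s hs => by
      have hs1 : 1 < s.re := by linarith
      rw [Sa_lap ha hs1, sub_add_cancel, hLS s hs1])
    (fun s hs => by
      have h1 := hBB (s + x₁) (by simp; linarith)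
      have h2 : (s + (x₁ : ℂ)).im = s.im := by simp
      rw [h2] at h1
      exact h1)
  exact transfer_close (Sa_meas a) (Sa_step a) (x := x₁ + d) (ε := d) (by linarith) hK hd0
    (by linarith) hdiff hl hl2 (by linarith) hG

/-- the transfer property, with the distance -/
def TrC (f : ℝ → ℝ) : Prop := ∀ x₁ l β : ℝ, 1 / 2 ≤ x₁ → (∀ s : ℂ, x₁ < s.re → riemannZeta s ≠ 0) →
  0 < l → l ≤ 1 → x₁ - l / 2 < β → ∀ G : Set ℝ, Meets G l →
  ∃ l' : ℝ, 0 < l' ∧ Thin {u | ¬ ∃ g ∈ G, |g - u| ≤ 15 * Real.exp (-(l * u)) ∧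
    |f u - f g| ≤ Real.exp (β * u)} l'

theorem trc_mm : TrC mm := by
  intro x₁ l β hx₁ hz hl hl2 hβ G hG
  have hmm : mm = Sa (fun n => ((ArithmeticFunction.moebius n : ℤ) : ℝ)) := funext mm_eq
  rw [hmm]
  have hZ := zs_free hz
  refine sa_close (L := fz) mu_le hx₁ (fun s hs => fz_differentiableAt (hZ s hs)) (fun s hs => ?_)
    (fun σ ε hσ hε => fz_all (θ := x₁) (by linarith) hZ hσ hε) hl hl2 hβ hG
  have := (moebius_lseries hs).LSeries_eq
  rw [← this]
  refine LSeries_congr (fun {n} _ => ?_) s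
  simp

theorem trc_ll : TrC ll := by
  intro x₁ l β hx₁ hz hl hl2 hβ G hG
  have hll : ll = Sa Pool.Agent.R303.SW.laR := rfl
  rw [hll]
  have hZ := zs_free hz
  refine sa_close (L := fun s => riemannZeta (2 * s) * fz s) Pool.Agent.R303.SW.laR_abs hx₁
    (fun s hs => ?_) (fun s hs => ?_) (fun σ ε hσ hε => ?_) hl hl2 hβ hG
  · have h1 : 2 * s ≠ 1 := by
      intro h
      have := congrArg Complex.re h
      simp at this
      linarith
    exact ((differentiableAt_riemannZeta h1).comp s (by fun_prop)).mul (fz_differentiableAt (hZ s hs))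
  · have h1 : s ≠ 1 := by
      rintro rfl
      simp at hs
    have h2 := Pool.Agent.R303.SW.LS_la hs
    have h3 : riemannZeta s ≠ 0 := riemannZeta_ne_zero_of_one_le_re hs.le
    show LSeries (fun n => ((Pool.Agent.R303.SW.laR n : ℝ) : ℂ)) s = riemannZeta (2 * s) * fz s
    rw [fz_eq h1, ← h2, mul_assoc, mul_inv_cancel₀ h3, mul_one]
  · obtain ⟨B, hB, hBB⟩ := fz_all (θ := x₁) (σ := σ) (ε := ε) (by linarith) hZ hσ hε
    obtain ⟨K, hK, hKK⟩ := zeta_bounds (a := 2 * σ) (by linarith)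
    refine ⟨K * B, by positivity, fun s hs => ?_⟩
    have h1 := (hKK (2 * s) (by simp; linarith)).1
    have h2 := hBB s hs
    rw [norm_mul, mul_assoc]
    exact mul_le_mul h1 h2 (norm_nonneg _) (by linarith)

/-- a positive power beats a logarithm -/
lemma log_gap {a : ℝ} (ha : 0 < a) (C : ℝ) : ∀ᶠ x : ℝ in atTop, C * Real.log x ≤ x ^ a := by
  have h := (isLittleO_log_rpow_atTop ha).bound (show (0 : ℝ) < 1 / (|C| + 1) by positivity)
  filter_upwards [h, eventually_ge_atTop 1] with y hy hy1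
  rw [Real.norm_eq_abs, Real.norm_eq_abs, abs_of_nonneg (Real.log_nonneg hy1),
    abs_of_nonneg (Real.rpow_nonneg (by linarith) _)] at hy
  have h1 : (|C| + 1) * Real.log y ≤ y ^ a := by
    have := mul_le_mul_of_nonneg_left hy (show 0 ≤ |C| + 1 by positivity)
    have e : (|C| + 1) * (1 / (|C| + 1) * y ^ a) = y ^ a := by field_simp
    linarith
  have h2 : C * Real.log y ≤ (|C| + 1) * Real.log y :=
    mul_le_mul_of_nonneg_right (by linarith [le_abs_self C]) (Real.log_nonneg hy1)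
  linarith

/-- **from large sets to many sampled integers** -/
theorem many {f : ℝ → ℝ} (hstep : ∀ u u' : ℝ, ⌊Real.exp u⌋₊ = ⌊Real.exp u'⌋₊ → f u = f u')
    {A : ℕ → Prop} {β l l' : ℝ} (hl : 0 < l) (hl1 : l ≤ 1) (hl' : 0 < l')
    (hT : Thin {u | ¬ ∃ q ∈ US A, |q - u| ≤ 15 * Real.exp (-(l * u)) ∧
      |f u - f q| ≤ Real.exp (β * u)} l')
    {T : ℝ → Set ℝ} (hsub : ∀ᶠ x : ℝ in atTop, T x ⊆ Icc x (x * Real.log x))
    (hB : ∀ lam : ℝ, 0 < lam → ∀ᶠ x : ℝ in atTop, x ^ (1 - lam) ≤ (volume (T x)).toReal)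
    {lam : ℝ} (hlam : 0 < lam) :
    ∀ᶠ x : ℝ in atTop, x ^ (l - lam) ≤ ({m : ℕ | A m ∧ ∃ y ∈ T x, |(m : ℝ) - y| ≤ 31 * y ^ (1 - l) ∧
      |f (Real.log y) - f (Real.log m)| ≤ y ^ β}.ncard : ℝ) := by
  obtain ⟨lam₁, hlam₁, hv⟩ := thin_exp hl' hT
  set lam₂ : ℝ := min (lam₁ / 2) (lam / 2) with hlam₂
  have hlam₂0 : 0 < lam₂ := lt_min (by linarith) (by linarith)
  have h21 : lam₂ ≤ lam₁ / 2 := min_le_left _ _
  have h22 : lam₂ ≤ lam / 2 := min_le_right _ _
  have e15 : ∀ᶠ x : ℝ in atTop, (30 : ℝ) ≤ x ^ l := (tendsto_rpow_atTop hl).eventually_ge_atTop _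
  filter_upwards [hv, hB lam₂ hlam₂0, hsub, pow_gap (show 1 - lam₁ < 1 - lam₂ by linarith) 2,
    log_gap (show 0 < lam - lam₂ by linarith) 124, ev_win e15, eventually_ge_atTop (Real.exp 1)]
    with x g1 g2 g3 g4 g5 g6 g7
  have hx0 : 0 < x := (Real.exp_pos 1).trans_le g7
  have he1 : 2 < Real.exp 1 := by
    have := Real.exp_one_gt_d9
    linarith
  have hlog1 : 1 ≤ Real.log x := by rwa [Real.le_log_iff_exp_le hx0]
  set Bd : Set ℝ := {u | ¬ ∃ q ∈ US A, |q - u| ≤ 15 * Real.exp (-(l * u)) ∧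
      |f u - f q| ≤ Real.exp (β * u)} with hBd
  set W : Set ℕ := {m : ℕ | A m ∧ ∃ y ∈ T x, |(m : ℝ) - y| ≤ 31 * y ^ (1 - l) ∧
      |f (Real.log y) - f (Real.log m)| ≤ y ^ β} with hW
  set Y : ℝ := x * Real.log x with hY
  set R : ℝ := 31 * Y ^ (1 - l) with hR
  have hY0 : 0 < Y := by positivity
  have hR0 : 0 < R := by positivity
  have hRy : ∀ y ∈ T x, 31 * y ^ (1 - l) ≤ R := by
    intro y hy
    obtain ⟨h1, h2⟩ := g3 hy
    exact mul_le_mul_of_nonneg_left (Real.rpow_le_rpow (by linarith) h2 (by linarith)) (by norm_num)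
  -- W is finite
  have hWfin : W.Finite := by
    refine (Set.finite_Iic ⌊Y + R⌋₊).subset ?_
    rintro m ⟨-, y, hy, h1, -⟩
    rw [mem_Iic]
    refine Nat.le_floor ?_
    have h2 := (abs_le.1 (h1.trans (hRy y hy))).2
    linarith [(g3 hy).2]
  -- the covering
  have hcov : T x ⊆ {y : ℝ | y ∈ Icc x (x * Real.log x) ∧ Real.log y ∈ Bd} ∪
      ⋃ m ∈ hWfin.toFinset, Icc ((m : ℝ) - R) (m + R) := by
    intro y hy
    by_cases hyB : Real.log y ∈ Bd
    · exact Or.inl ⟨g3 hy, hyB⟩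
    right
    obtain ⟨q, hq, hq1, hq2⟩ := not_not.1 hyB
    have hxy := (g3 hy).1
    have hy0 : 0 < y := hx0.trans_le hxy
    have h30 := g6 y hxy
    have hyl : Real.exp (-(l * Real.log y)) = y ^ (-l) := by
      rw [Real.rpow_def_of_pos hy0]
      congr 1
      ring
    have hyl2 : y ^ (-l) * y ^ l = 1 := by
      rw [← Real.rpow_add hy0, neg_add_cancel, Real.rpow_zero]
    have hyl0 : 0 < y ^ (-l) := Real.rpow_pos_of_pos hy0 _
    have hsm : 15 * y ^ (-l) ≤ 1 / 2 := by nlinarith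
    rw [hyl] at hq1
    have hexp : |Real.exp (q - Real.log y) - 1| ≤ 2 * |q - Real.log y| :=
      Real.abs_exp_sub_one_le (hq1.trans (by linarith))
    have hqy : Real.exp q = y * Real.exp (q - Real.log y) := by
      rw [Real.exp_sub, Real.exp_log hy0]
      field_simp
    have hd : |Real.exp q - y| ≤ 30 * y ^ (1 - l) := by
      have e1 : Real.exp q - y = y * (Real.exp (q - Real.log y) - 1) := by
        rw [hqy]
        ring
      rw [e1, abs_mul, abs_of_pos hy0]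
      have e2 : y ^ (1 - l) = y * y ^ (-l) := by
        rw [sub_eq_add_neg, Real.rpow_add hy0, Real.rpow_one]
      rw [e2]
      calc y * |Real.exp (q - Real.log y) - 1| ≤ y * (2 * (15 * y ^ (-l))) :=
            mul_le_mul_of_nonneg_left (hexp.trans (by linarith)) hy0.le
        _ = _ := by ring
    have hy1 : 1 ≤ y ^ (1 - l) := Real.one_le_rpow (by linarith) (by linarith)
    have hm1 : (⌊Real.exp q⌋₊ : ℝ) ≤ Real.exp q := Nat.floor_le (Real.exp_pos q).le
    have hm2 : Real.exp q < ⌊Real.exp q⌋₊ + 1 := Nat.lt_floor_add_one _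
    have hmy : |(⌊Real.exp q⌋₊ : ℝ) - y| ≤ 31 * y ^ (1 - l) := by
      have e1 := abs_le.1 hd
      rw [abs_le]
      constructor <;> linarith
    have hm0 : 0 < ⌊Real.exp q⌋₊ := by
      have h1 : y / 2 ≤ Real.exp q := by
        have h2 : 30 * y ^ (1 - l) ≤ y := by
          have e2 : y = y ^ (1 - l) * y ^ l := by
            rw [← Real.rpow_add hy0, sub_add_cancel, Real.rpow_one]
          calc 30 * y ^ (1 - l) = y ^ (1 - l) * 30 := by ring
            _ ≤ y ^ (1 - l) * y ^ l := mul_le_mul_of_nonneg_left h30 (by linarith)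
            _ = y := e2.symm
        have h3 : Real.exp (-(1 / 2) + Real.log y) ≤ Real.exp q := by
          apply Real.exp_le_exp.2
          have := (abs_le.1 (hq1.trans hsm)).1
          linarith
        rw [Real.exp_add, Real.exp_log hy0] at h3
        have h4 : (1 : ℝ) / 2 ≤ Real.exp (-(1 / 2)) := by
          have := Real.add_one_le_exp (-(1 / 2) : ℝ)
          linarith
        nlinarith
      rw [Nat.floor_pos]
      linarith
    have hm0' : (0 : ℝ) < ⌊Real.exp q⌋₊ := by exact_mod_cast hm0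
    have hfq : f q = f (Real.log ⌊Real.exp q⌋₊) := by
      apply hstep
      rw [Real.exp_log hm0', Nat.floor_natCast]
    rw [hfq] at hq2
    have h5 : Real.exp (β * Real.log y) = y ^ β := by rw [Real.rpow_def_of_pos hy0, mul_comm]
    rw [h5] at hq2
    refine mem_iUnion₂.2 ⟨⌊Real.exp q⌋₊, hWfin.mem_toFinset.2 ⟨hq, y, hy, hmy, hq2⟩, ?_⟩
    have h6 := abs_le.1 (hmy.trans (hRy y hy))
    exact ⟨by linarith, by linarith⟩
  -- the measures
  have hmeas : volume (T x) ≤ ENNReal.ofReal (x ^ (1 - lam₁)) +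
      ENNReal.ofReal (W.ncard * (2 * R)) := by
    refine (measure_mono hcov).trans ((measure_union_le _ _).trans (add_le_add g1.le ?_))
    refine (measure_biUnion_finset_le _ _).trans ?_
    have e1 : ∀ m ∈ hWfin.toFinset, volume (Icc ((m : ℝ) - R) (m + R)) =
        ENNReal.ofReal (2 * R) := by
      intro m _
      rw [Real.volume_Icc]
      congr 1
      ring
    rw [Finset.sum_congr rfl e1, Finset.sum_const, nsmul_eq_mul,
      ENNReal.ofReal_mul (Nat.cast_nonneg _), ENNReal.ofReal_natCast, Set.ncard_eq_toFinset_card W hWfin]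
  have hpx : 0 ≤ x ^ (1 - lam₁) := Real.rpow_nonneg hx0.le _
  have hreal : (volume (T x)).toReal ≤ x ^ (1 - lam₁) + W.ncard * (2 * R) := by
    rw [← ENNReal.ofReal_add hpx (by positivity)] at hmeas
    exact ENNReal.toReal_le_of_le_ofReal (by positivity) hmeas
  have h1 : x ^ (1 - lam₂) ≤ 4 * R * W.ncard := by linarith
  have h2 : R ≤ 31 * (x ^ (1 - l) * Real.log x) := by
    rw [hR, hY, Real.mul_rpow hx0.le (by linarith)]
    have e1 : Real.log x ^ (1 - l) ≤ Real.log x := by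
      calc Real.log x ^ (1 - l) ≤ Real.log x ^ (1 : ℝ) :=
            Real.rpow_le_rpow_of_exponent_le hlog1 (by linarith)
        _ = _ := Real.rpow_one _
    have e2 : 0 ≤ x ^ (1 - l) := Real.rpow_nonneg hx0.le _
    exact mul_le_mul_of_nonneg_left (mul_le_mul_of_nonneg_left e1 e2) (by norm_num)
  have hN : (0 : ℝ) ≤ W.ncard := Nat.cast_nonneg _
  have h3 : x ^ (1 - lam₂) ≤ x ^ (1 - l) * (x ^ (lam - lam₂) * W.ncard) := by
    calc x ^ (1 - lam₂) ≤ 4 * R * W.ncard := h1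
      _ ≤ 4 * (31 * (x ^ (1 - l) * Real.log x)) * W.ncard := by
        refine mul_le_mul_of_nonneg_right ?_ hN
        linarith
      _ = x ^ (1 - l) * ((124 * Real.log x) * W.ncard) := by ring
      _ ≤ _ := by
        refine mul_le_mul_of_nonneg_left ?_ (Real.rpow_nonneg hx0.le _)
        exact mul_le_mul_of_nonneg_right g5 hN
  have e1 : x ^ (1 - lam₂) = x ^ (1 - l) * (x ^ (lam - lam₂) * x ^ (l - lam)) := by
    rw [← Real.rpow_add hx0, ← Real.rpow_add hx0]
    congr 1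
    ring
  rw [e1] at h3
  have e2 : 0 < x ^ (1 - l) := Real.rpow_pos_of_pos hx0 _
  have e3 : 0 < x ^ (lam - lam₂) := Real.rpow_pos_of_pos hx0 _
  exact le_of_mul_le_mul_left (le_of_mul_le_mul_left h3 e2) e3

end Pool.Agent.W5h24.SP
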