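import Pool.Agent.W5h24.SP.Transfer
import Pool.Agent.W5h24.SP.DiffGen
import Pool.Agent.H295R2.WM1
import Pool.Agent.H353R3.S8
import Pool.Agent.H313R3.TK.J

/-!
# The Mertens function: short differences to the right of the zeros, and transfer
-/

set_option autoImplicit false

open MeasureTheory Filter Topology Set Complex
open scoped ENNReal
open H313.TK (MM mm)
open Pool.Agent.H295R2 (fz Zs fz_eq fz_bound zeta_bounds Zs_eq fz_differentiableAt moebius_lseries
  integral_Ioi_exp)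

namespace Pool.Agent.W5h24.SP

/-- the summatory function in the exponential scale -/
noncomputable def Sa (a : ℕ → ℝ) (u : ℝ) : ℝ := ∑ n ∈ Finset.Icc 1 ⌊Real.exp u⌋₊, a n

lemma Sa_meas (a : ℕ → ℝ) : Measurable (Sa a) := by
  have e : Sa a = (fun m : ℕ => ∑ k ∈ Finset.Icc 1 m, a k) ∘ fun u : ℝ => ⌊Real.exp u⌋₊ := rfl
  rw [e]
  exact (measurable_of_countable _).comp (Nat.measurable_floor.comp Real.measurable_exp)

lemma Sa_step (a : ℕ → ℝ) (u u' : ℝ) (h : ⌊Real.exp u⌋₊ = ⌊Real.exp u'⌋₊) : Sa a u = Sa a u' := by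
  unfold Sa
  rw [h]

lemma Sa_neg (a : ℕ → ℝ) {u : ℝ} (hu : u < 0) : Sa a u = 0 := by
  unfold Sa
  have h : Real.exp u < 1 := by rwa [Real.exp_lt_one_iff]
  rw [Nat.floor_eq_zero.2 h]
  simp

lemma Sa_le {a : ℕ → ℝ} (ha : ∀ n, |a n| ≤ 1) (u : ℝ) : |Sa a u| ≤ Real.exp u := by
  unfold Sa
  refine (Finset.abs_sum_le_sum_abs _ _).trans ?_
  refine (Finset.sum_le_sum fun n _ => ha n).trans ?_
  rw [Finset.sum_const, Nat.card_Icc]
  simp only [add_tsub_cancel_right, nsmul_eq_mul, mul_one]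
  exact Nat.floor_le (Real.exp_pos _).le

lemma Sa_int {a : ℕ → ℝ} (ha : ∀ n, |a n| ≤ 1) {s : ℂ} (hs : 1 < s.re) :
    Integrable fun u : ℝ => (Sa a u : ℂ) * exp (-(s * u)) := by
  have h1 : IntegrableOn (fun u : ℝ => Real.exp ((1 - s.re) * u)) (Ioi 0) :=
    integrableOn_exp_mul_Ioi (by linarith) 0
  have h2 : Integrable ((Ioi (0 : ℝ)).indicator fun u : ℝ => Real.exp ((1 - s.re) * u)) :=
    (integrable_indicator_iff measurableSet_Ioi).2 h1
  refine h2.mono' ?_ ?_
  · have h3 := Sa_meas a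
    exact (h3.complex_ofReal.mul (by fun_prop)).aestronglyMeasurable
  · have h0 : ∀ᵐ u : ℝ, u ≠ 0 := by
      rw [ae_iff]
      simp
    filter_upwards [h0] with u hu
    rw [norm_mul, Complex.norm_real, Complex.norm_exp, Real.norm_eq_abs]
    rcases lt_or_gt_of_ne hu with h | h
    · rw [Sa_neg a h, indicator_of_notMem (by simpa using h.le)]
      simp
    · rw [indicator_of_mem (show u ∈ Ioi (0 : ℝ) from h)]
      have e1 : (-(s * (u : ℂ))).re = -(s.re * u) := by simp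
      rw [e1]
      calc |Sa a u| * Real.exp (-(s.re * u)) ≤ Real.exp u * Real.exp (-(s.re * u)) :=
            mul_le_mul_of_nonneg_right (Sa_le ha u) (Real.exp_pos _).le
        _ = _ := by
          rw [← Real.exp_add]
          congr 1
          ring

/-- the Laplace transform -/
lemma Sa_lap {a : ℕ → ℝ} (ha : ∀ n, |a n| ≤ 1) {s : ℂ} (hs : 1 < s.re) :
    ∫ u : ℝ, (Sa a u : ℂ) * exp (-(s * u)) = LSeries (fun n => (a n : ℂ)) s / s := by
  have hs0 : s ≠ 0 := by
    rintro rfl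
    norm_num at hs
  have hsum : LSeriesSummable (fun n => (a n : ℂ)) s := by
    refine LSeriesSummable_of_bounded_of_one_lt_re (m := 1) (fun n _ => ?_) hs
    rw [Complex.norm_real]
    exact ha n
  have hO : (fun n : ℕ => ∑ k ∈ Finset.Icc 1 n, (a k : ℂ)) =O[atTop] fun n => (n : ℝ) ^ (1 : ℝ) := by
    refine Asymptotics.IsBigO.of_bound 1 (Eventually.of_forall fun n => ?_)
    rw [one_mul, Real.rpow_one, Real.norm_of_nonneg (Nat.cast_nonneg n)]
    refine (norm_sum_le _ _).trans ?_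
    refine (Finset.sum_le_sum fun k _ => ?_ : _ ≤ ∑ _k ∈ Finset.Icc 1 n, (1 : ℝ)).trans ?_
    · rw [Complex.norm_real]
      exact ha k
    · rw [Finset.sum_const, Nat.card_Icc]
      simp
  rw [LSeries_eq_mul_integral _ zero_le_one hs hsum hO, mul_div_cancel_left₀ _ hs0, integral_Ioi_exp]
  have e1 : ∫ u : ℝ, (Sa a u : ℂ) * exp (-(s * u)) =
      ∫ u in Ioi (0 : ℝ), (Sa a u : ℂ) * exp (-(s * u)) := by
    rw [← integral_Ici_eq_integral_Ioi]
    refine (setIntegral_eq_integral_of_forall_compl_eq_zero fun u hu => ?_).symm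
    have : u < 0 := by simpa using hu
    rw [Sa_neg a this, Complex.ofReal_zero, zero_mul]
  rw [e1]
  refine setIntegral_congr_fun measurableSet_Ioi fun u _ => ?_
  have hne : ((Real.exp u : ℝ) : ℂ) ≠ 0 := by exact_mod_cast (Real.exp_pos u).ne'
  rw [Complex.cpow_def_of_ne_zero hne, ← Complex.ofReal_log (Real.exp_pos u).le, Real.log_exp]
  have e2 : ((Real.exp u : ℝ) : ℂ) = exp (u : ℂ) := by push_cast; rfl
  have e3 : (∑ k ∈ Finset.Icc 1 ⌊Real.exp u⌋₊, (a k : ℂ)) = (Sa a u : ℂ) := by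
    unfold Sa
    push_cast
    rfl
  rw [e2, e3, mul_left_comm, ← Complex.exp_add]
  congr 2
  ring

/-- bound for `1 / ζ` in the whole half-plane -/
lemma fz_all {θ σ ε : ℝ} (hθ : 1 / 4 ≤ θ) (hz : ∀ s : ℂ, θ < s.re → Zs s ≠ 0) (hσ : θ < σ)
    (hε : 0 < ε) :
    ∃ C : ℝ, 0 < C ∧ ∀ s : ℂ, σ ≤ s.re → ‖fz s‖ ≤ C * (1 + |s.im|) ^ ε := by
  obtain ⟨C, hC, h1⟩ := fz_bound hθ hz hσ hε
  obtain ⟨K, hK, h2⟩ := zeta_bounds (a := 2) (by norm_num)
  refine ⟨max C K, lt_max_of_lt_left hC, fun s hs => ?_⟩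
  have h3 : (1 : ℝ) ≤ (1 + |s.im|) ^ ε := Real.one_le_rpow (by linarith [abs_nonneg s.im]) hε.le
  rcases le_total s.re 2 with h | h
  · refine (h1 s hs h).trans ?_
    exact mul_le_mul_of_nonneg_right (le_max_left _ _) (by linarith)
  · refine ((h2 s h).2).trans ?_
    have h4 : K ≤ max C K := le_max_right _ _
    nlinarith

lemma zs_free {θ : ℝ} (hz : ∀ s : ℂ, θ < s.re → riemannZeta s ≠ 0) : ∀ s : ℂ, θ < s.re → Zs s ≠ 0 := by
  intro s hs
  by_cases h : s = 1
  · rw [h]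
    unfold Pool.Agent.H295R2.Zs
    simp
  · rw [← Zs_eq h]
    exact mul_ne_zero (sub_ne_zero.2 h) (hz s hs)

lemma mm_eq (u : ℝ) : mm u = Sa (fun n => ((ArithmeticFunction.moebius n : ℤ) : ℝ)) u := rfl

lemma mu_le (n : ℕ) : |(((ArithmeticFunction.moebius n : ℤ) : ℝ))| ≤ 1 := by
  have := ArithmeticFunction.abs_moebius_le_one (n := n)
  exact_mod_cast this

/-- **Transfer for the Mertens function.** -/
theorem mob_transfer {x₁ l β : ℝ} (hx₁ : 1 / 2 ≤ x₁) (hz : ∀ s : ℂ, x₁ < s.re → riemannZeta s ≠ 0)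
    (hl : 0 < l) (hl2 : l ≤ 1 / 2) (hβ : x₁ - l / 2 < β) {G : Set ℝ} (hG : Meets G l) :
    ∃ l' : ℝ, 0 < l' ∧ Pool.Agent.W5h26.ES.Thin {u | ¬ ∃ g ∈ G, |g - u| ≤ 1 ∧
      |mm u - mm g| ≤ Real.exp (β * u)} l' := by
  set a : ℕ → ℝ := fun n => ((ArithmeticFunction.moebius n : ℤ) : ℝ) with ha
  have hmm : mm = Sa a := funext mm_eq
  rw [hmm]
  set d : ℝ := min ((β - (x₁ - l / 2)) / 2) (1 / 2) with hd
  have hd0 : 0 < d := lt_min (by linarith) (by norm_num)
  have hd1 : d ≤ (β - (x₁ - l / 2)) / 2 := min_le_left _ _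
  have hd2 : d ≤ 1 / 2 := min_le_right _ _
  have hZ := zs_free hz
  obtain ⟨B, hB, hBB⟩ := fz_all (θ := x₁) (σ := x₁ + d) (ε := d / 4) (by linarith) hZ (by linarith)
    (by linarith)
  obtain ⟨K, hK, hdiff⟩ := diff_of (S := Sa a) (L := fun s => fz (s + x₁)) (x₁ := x₁) (x := x₁ + d)
    (σ := 1) (B := B) (ε := d) (by linarith) (by linarith) (by linarith) hd0 (by linarith)
    (fun s hs => by
      have h1 : DifferentiableAt ℂ fz (s + x₁) := fz_differentiableAt (hZ _ (by simpa using hs))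
      have h2 : DifferentiableAt ℂ (fun s : ℂ => s + (x₁ : ℂ)) s := by fun_prop
      exact DifferentiableAt.comp (g := fz) (f := fun s : ℂ => s + (x₁ : ℂ)) s h1 h2)
    (fun s hs => Sa_int mu_le (by linarith))
    (fun s hs => by
      have hs1 : 1 < s.re := by linarith
      rw [Sa_lap mu_le hs1, sub_add_cancel]
      congr 1
      have := (moebius_lseries hs1).LSeries_eq
      rw [← this]
      refine LSeries_congr (fun {n} _ => ?_) s
      simp)
    (fun s hs => by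
      have h1 := hBB (s + x₁) (by simp; linarith)
      have h2 : (s + (x₁ : ℂ)).im = s.im := by simp
      rw [h2] at h1
      exact h1)
  exact transfer_of (Sa_meas a) (Sa_step a) (x := x₁ + d) (ε := d) (by linarith) hK hd0 (by linarith)
    hdiff hl hl2 (by linarith) hG

/-- a measurable thin set which contains a given thin set, up to a bounded part -/
lemma thin_meas {B : Set ℝ} {l : ℝ} (h : Pool.Agent.W5h26.ES.Thin B l) :
    ∃ B' : Set ℝ, MeasurableSet B' ∧ Pool.Agent.W5h26.ES.Thin B' l ∧ ∀ u ∈ B, 0 < u → u ∈ B' := by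
  set T : ℕ → Set ℝ := fun n => toMeasurable volume (B ∩ Ioc (n : ℝ) (n + 1)) ∩ Ioc (n : ℝ) (n + 1)
    with hT
  refine ⟨⋃ n, T n, MeasurableSet.iUnion fun n =>
    (measurableSet_toMeasurable _ _).inter measurableSet_Ioc, ?_, ?_⟩
  · filter_upwards [h] with n hn
    refine le_trans (measure_mono ?_) (le_trans (measure_toMeasurable
      (μ := volume) (B ∩ Ioc (n : ℝ) (n + 1))).le hn)
    rintro u ⟨hu, hu1, hu2⟩
    obtain ⟨m, hm⟩ := mem_iUnion.1 hu
    have h3 : m = n := by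
      have h1 : (m : ℝ) < n + 1 := hm.2.1.trans_le hu2
      have h2 : (n : ℝ) < m + 1 := hu1.trans_le hm.2.2
      have h1' : m < n + 1 := by exact_mod_cast h1
      have h2' : n < m + 1 := by exact_mod_cast h2
      omega
    subst h3
    exact hm.1
  · intro u hu hu0
    have h1 : (0 : ℝ) < u := hu0
    set n : ℕ := ⌈u⌉₊ - 1 with hn
    have hc : 0 < ⌈u⌉₊ := Nat.ceil_pos.2 h1
    have h2 : (n : ℝ) = (⌈u⌉₊ : ℝ) - 1 := by
      rw [hn, Nat.cast_sub hc, Nat.cast_one]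
    have h3 : (n : ℝ) < u := by
      have := Nat.ceil_lt_add_one h1.le
      linarith
    have h4 : u ≤ n + 1 := by
      have := Nat.le_ceil u
      linarith
    exact mem_iUnion.2 ⟨n, subset_toMeasurable _ _ ⟨hu, h3, h4⟩, h3, h4⟩

end Pool.Agent.W5h24.SP
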