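import Pool.Agent.W5h24.SP.Mob
import Pool.Agent.W5h24.SP.Forward
import Pool.Agent.W5h38.ML.E

/-!
# Large values of the summatory functions of Möbius and Liouville at sparse sets of integers
-/

set_option autoImplicit false

open MeasureTheory Filter Topology Set Complex
open scoped ENNReal
open H313.TK (MM mm)
open Pool.Agent.H295R2 (fz Zs fz_eq fz_bound zeta_bounds Zs_eq fz_differentiableAt moebius_lseries)
open Pool.Agent.W5h26.ES (Thin US)
open Pool.Agent.W5h38.ML (Good ll Big RHS)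

namespace Pool.Agent.W5h24.SP

/-- **Transfer for bounded coefficients.** -/
theorem sa_transfer {a : ℕ → ℝ} (ha : ∀ n, |a n| ≤ 1) {L : ℂ → ℂ} {x₁ l β : ℝ} (hx₁ : 1 / 2 ≤ x₁)
    (hL : ∀ s : ℂ, x₁ < s.re → DifferentiableAt ℂ L s)
    (hLS : ∀ s : ℂ, 1 < s.re → LSeries (fun n => (a n : ℂ)) s = L s)
    (hb : ∀ σ ε : ℝ, x₁ < σ → 0 < ε →
      ∃ B : ℝ, 0 < B ∧ ∀ s : ℂ, σ ≤ s.re → ‖L s‖ ≤ B * (1 + |s.im|) ^ ε)
    (hl : 0 < l) (hl2 : l ≤ 1 / 2) (hβ : x₁ - l / 2 < β) {G : Set ℝ} (hG : Meets G l) :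
    ∃ l' : ℝ, 0 < l' ∧ Thin {u | ¬ ∃ g ∈ G, |g - u| ≤ 1 ∧
      |Sa a u - Sa a g| ≤ Real.exp (β * u)} l' := by
  set d : ℝ := min ((β - (x₁ - l / 2)) / 2) (1 / 2) with hd
  have hd0 : 0 < d := lt_min (by linarith) (by norm_num)
  have hd1 : d ≤ (β - (x₁ - l / 2)) / 2 := min_le_left _ _
  have hd2 : d ≤ 1 / 2 := min_le_right _ _
  obtain ⟨B, hB, hBB⟩ := hb (x₁ + d) (d / 4) (by linarith) (by linarith)
  obtain ⟨K, hK, hdiff⟩ := diff_of (S := Sa a) (L := fun s => L (s + x₁)) (x₁ := x₁) (x := x₁ + d)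
    (σ := 1) (B := B) (ε := d) (by linarith) (by linarith) (by linarith) hd0 (by linarith)
    (fun s hs => by
      have h1 : DifferentiableAt ℂ L (s + x₁) := hL _ (by simpa using hs)
      have h2 : DifferentiableAt ℂ (fun s : ℂ => s + (x₁ : ℂ)) s := by fun_prop
      exact DifferentiableAt.comp (g := L) (f := fun s : ℂ => s + (x₁ : ℂ)) s h1 h2)
    (fun s hs => Sa_int ha (by linarith))
    (fun s hs => by
      have hs1 : 1 < s.re := by linarith
      rw [Sa_lap ha hs1, sub_add_cancel, hLS s hs1])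
    (fun s hs => by
      have h1 := hBB (s + x₁) (by simp; linarith)
      have h2 : (s + (x₁ : ℂ)).im = s.im := by simp
      rw [h2] at h1
      exact h1)
  exact transfer_of (Sa_meas a) (Sa_step a) (x := x₁ + d) (ε := d) (by linarith) hK hd0 (by linarith)
    hdiff hl hl2 (by linarith) hG

/-- the transfer property -/
def Tr (f : ℝ → ℝ) : Prop := ∀ x₁ l β : ℝ, 1 / 2 ≤ x₁ → (∀ s : ℂ, x₁ < s.re → riemannZeta s ≠ 0) →
  0 < l → l ≤ 1 / 2 → x₁ - l / 2 < β → ∀ G : Set ℝ, Meets G l →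
  ∃ l' : ℝ, 0 < l' ∧ Thin {u | ¬ ∃ g ∈ G, |g - u| ≤ 1 ∧ |f u - f g| ≤ Real.exp (β * u)} l'

theorem tr_mm : Tr mm := fun _ _ _ h1 h2 h3 h4 h5 _ hG => mob_transfer h1 h2 h3 h4 h5 hG

theorem tr_ll : Tr ll := by
  intro x₁ l β hx₁ hz hl hl2 hβ G hG
  have hll : ll = Sa Pool.Agent.R303.SW.laR := rfl
  rw [hll]
  have hZ := zs_free hz
  refine sa_transfer (L := fun s => riemannZeta (2 * s) * fz s) Pool.Agent.R303.SW.laR_abs hx₁
    (fun s hs => ?_) (fun s hs => ?_) (fun σ ε hσ hε => ?_) hl hl2 hβ hG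
  · have h1 : 2 * s ≠ 1 := by
      intro h
      have := congrArg Complex.re h
      simp at this
      linarith
    exact ((differentiableAt_riemannZeta h1).comp s (by fun_prop)).mul (fz_differentiableAt (hZ s hs))
  · have h1 : s ≠ 1 := by
      rintro rfl
      simp at hs
    have h2 := Pool.Agent.R303.SW.LS_la hs
    have h3 : riemannZeta s ≠ 0 := riemannZeta_ne_zero_of_one_le_re hs.le
    show LSeries (fun n => ((Pool.Agent.R303.SW.laR n : ℝ) : ℂ)) s = riemannZeta (2 * s) * fz s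
    rw [fz_eq h1, ← h2, mul_assoc, mul_inv_cancel₀ h3, mul_one]
  · obtain ⟨B, hB, hBB⟩ := fz_all (θ := x₁) (σ := σ) (ε := ε) (by linarith) hZ hσ hε
    obtain ⟨K, hK, hKK⟩ := zeta_bounds (a := 2 * σ) (by linarith)
    refine ⟨K * B, by positivity, fun s hs => ?_⟩
    have h1 := (hKK (2 * s) (by simp; linarith)).1
    have h2 := hBB s hs
    rw [norm_mul, mul_assoc]
    exact mul_le_mul h1 h2 (norm_nonneg _) (by linarith)

lemma thin_le' {B : Set ℝ} {l l' : ℝ} (h : Thin B l) (hl : l' ≤ l) : Thin B l' := by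
  filter_upwards [h] with n hn
  refine hn.trans (ENNReal.ofReal_le_ofReal (Real.exp_le_exp.2 ?_))
  have : (0 : ℝ) ≤ n := Nat.cast_nonneg n
  nlinarith

/-- the measure of the exponentials of a thin set -/
lemma thin_exp {B : Set ℝ} {l : ℝ} (hl : 0 < l) (h : Thin B l) :
    ∃ lam : ℝ, 0 < lam ∧ ∀ᶠ x : ℝ in atTop,
      volume {y : ℝ | y ∈ Icc x (x * Real.log x) ∧ Real.log y ∈ B} <
        ENNReal.ofReal (x ^ (1 - lam)) := by
  obtain ⟨B', hB', hT', hsub⟩ := thin_meas (thin_le' h (min_le_left l 1))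
  set r : ℝ := min l 1 with hr
  have hr0 : 0 < r := lt_min hl one_pos
  have hr1 : r ≤ 1 := min_le_right _ _
  refine ⟨r / 2, by linarith, ?_⟩
  obtain ⟨n₀, hn₀⟩ := eventually_atTop.1 hT'
  have hone : ∀ n : ℕ, n₀ ≤ n → volume {y : ℝ | 0 < y ∧ Real.log y ∈ B' ∩ Ioc (n : ℝ) (n + 1)} ≤
      ENNReal.ofReal (Real.exp 1 * Real.exp ((1 - r) * n)) := by
    intro n hn
    have hmeas : MeasurableSet (B' ∩ Ioc (n : ℝ) (n + 1)) := hB'.inter measurableSet_Ioc
    have e1 : {y : ℝ | 0 < y ∧ Real.log y ∈ B' ∩ Ioc (n : ℝ) (n + 1)} =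
        Real.exp '' (B' ∩ Ioc (n : ℝ) (n + 1)) := by
      ext y
      constructor
      · rintro ⟨h1, h2⟩
        exact ⟨Real.log y, h2, Real.exp_log h1⟩
      · rintro ⟨u, hu, rfl⟩
        exact ⟨Real.exp_pos u, by rwa [Real.log_exp]⟩
    have h1 := lintegral_image_eq_lintegral_abs_deriv_mul hmeas
      (fun u _ => (Real.hasDerivAt_exp u).hasDerivWithinAt) Real.exp_injective.injOn
      (fun _ => (1 : ℝ≥0∞))
    rw [setLIntegral_const, one_mul] at h1
    rw [e1, h1]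
    have h2 : ∫⁻ u in B' ∩ Ioc (n : ℝ) (n + 1), ENNReal.ofReal |Real.exp u| * 1 ≤
        ∫⁻ _ in B' ∩ Ioc (n : ℝ) (n + 1), ENNReal.ofReal (Real.exp (n + 1)) := by
      refine setLIntegral_mono' hmeas fun u hu => ?_
      rw [mul_one, abs_of_pos (Real.exp_pos u)]
      exact ENNReal.ofReal_le_ofReal (Real.exp_le_exp.2 hu.2.2)
    refine h2.trans ?_
    rw [setLIntegral_const]
    refine (mul_le_mul' le_rfl (hn₀ n hn)).trans ?_
    rw [← ENNReal.ofReal_mul (Real.exp_pos _).le]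
    refine ENNReal.ofReal_le_ofReal (le_of_eq ?_)
    rw [← Real.exp_add, ← Real.exp_add]
    congr 1
    ring
  have t1 : ∀ᶠ t : ℝ in atTop, 3 * Real.exp 1 * t ^ 2 < Real.exp (r / 2 * t) := by
    have h1 : Tendsto (fun t : ℝ => t ^ (2 : ℝ) * Real.exp (-(r / 2) * t)) atTop (𝓝 0) :=
      tendsto_rpow_mul_exp_neg_mul_atTop_nhds_zero 2 (r / 2) (by linarith)
    have h2 : (0 : ℝ) < 1 / (3 * Real.exp 1) := by positivity
    filter_upwards [h1.eventually (gt_mem_nhds h2)] with t ht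
    rw [Real.rpow_two, neg_mul, Real.exp_neg, lt_div_iff₀ (by positivity)] at ht
    have h3 := Real.exp_pos (r / 2 * t)
    have h4 : t ^ 2 * (Real.exp (r / 2 * t))⁻¹ * (3 * Real.exp 1) =
        (3 * Real.exp 1 * t ^ 2) / Real.exp (r / 2 * t) := by ring
    rw [h4, div_lt_one h3] at ht
    exact ht
  filter_upwards [Real.tendsto_log_atTop.eventually t1,
    Real.tendsto_log_atTop.eventually_ge_atTop (n₀ + 2), eventually_gt_atTop 0] with x hx1 hx2 hx0
  set t : ℝ := Real.log x with ht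
  have hn0 : (0 : ℝ) ≤ n₀ := Nat.cast_nonneg _
  have ht2 : 2 ≤ t := by linarith
  have hlt : Real.log t ≤ t - 1 := Real.log_le_sub_one_of_pos (by linarith)
  have hlt0 : 0 ≤ Real.log t := Real.log_nonneg (by linarith)
  set b : ℕ := ⌊t + Real.log t⌋₊ with hb
  have hbt : (b : ℝ) ≤ t + Real.log t := Nat.floor_le (by linarith)
  have hcov : {y : ℝ | y ∈ Icc x (x * t) ∧ Real.log y ∈ B} ⊆
      ⋃ n ∈ Finset.Icc n₀ b, {y : ℝ | 0 < y ∧ Real.log y ∈ B' ∩ Ioc (n : ℝ) (n + 1)} := by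
    rintro y ⟨⟨h1, h2⟩, h3⟩
    have hy0 : 0 < y := hx0.trans_le h1
    have h4 : t ≤ Real.log y := Real.log_le_log hx0 h1
    have h5 : Real.log y ≤ t + Real.log t := by
      have := Real.log_le_log hy0 h2
      rwa [Real.log_mul hx0.ne' (by linarith)] at this
    set c : ℕ := ⌈Real.log y⌉₊ with hc
    have hc1 : Real.log y ≤ c := Nat.le_ceil _
    have hc2 : (c : ℝ) < Real.log y + 1 := Nat.ceil_lt_add_one (by linarith)
    have hc0 : 1 ≤ c := by
      have : (0 : ℝ) < c := by linarith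
      exact_mod_cast this
    have hc3 : ((c - 1 : ℕ) : ℝ) = c - 1 := by rw [Nat.cast_sub hc0, Nat.cast_one]
    refine mem_iUnion₂.2 ⟨c - 1, Finset.mem_Icc.2 ⟨?_, ?_⟩, hy0, hsub _ h3 (by linarith), ?_, ?_⟩
    · have : (n₀ : ℝ) ≤ ((c - 1 : ℕ) : ℝ) := by rw [hc3]; linarith
      exact_mod_cast this
    · rw [hb]
      refine Nat.le_floor ?_
      rw [hc3]
      linarith
    · rw [hc3]; linarith
    · rw [hc3]; linarith
  refine (measure_mono hcov).trans_lt ?_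
  refine (measure_biUnion_finset_le _ _).trans_lt ?_
  refine (Finset.sum_le_sum (g := fun _ => ENNReal.ofReal (Real.exp 1 * Real.exp ((1 - r) * (t + Real.log t))))
    fun n hn => ?_).trans_lt ?_
  · obtain ⟨h1, h2⟩ := Finset.mem_Icc.1 hn
    refine (hone n h1).trans (ENNReal.ofReal_le_ofReal ?_)
    refine mul_le_mul_of_nonneg_left (Real.exp_le_exp.2 ?_) (Real.exp_pos 1).le
    have h3 : (n : ℝ) ≤ b := by exact_mod_cast h2
    exact mul_le_mul_of_nonneg_left (h3.trans hbt) (by linarith)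
  rw [Finset.sum_const, nsmul_eq_mul]
  have hcard : ((Finset.Icc n₀ b).card : ℝ≥0∞) ≤ ENNReal.ofReal (3 * t) := by
    rw [Nat.card_Icc]
    have h1 : ((b + 1 - n₀ : ℕ) : ℝ) ≤ 3 * t := by
      have h2 : ((b + 1 - n₀ : ℕ) : ℝ) ≤ (b + 1 : ℕ) := by exact_mod_cast Nat.sub_le _ _
      push_cast at h2
      linarith
    rw [← ENNReal.ofReal_natCast]
    exact ENNReal.ofReal_le_ofReal h1
  refine (mul_le_mul' hcard le_rfl).trans_lt ?_
  rw [← ENNReal.ofReal_mul (by linarith)]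
  refine (ENNReal.ofReal_lt_ofReal_iff (Real.rpow_pos_of_pos hx0 _)).2 ?_
  have e1 : x ^ (1 - r / 2) = Real.exp ((1 - r) * t) * Real.exp (r / 2 * t) := by
    rw [Real.rpow_def_of_pos hx0, ← Real.exp_add]
    congr 1
    rw [← ht]
    ring
  have e2 : Real.exp ((1 - r) * (t + Real.log t)) ≤ Real.exp ((1 - r) * t) * t := by
    have h1 : Real.exp (Real.log t) = t := Real.exp_log (by linarith)
    calc Real.exp ((1 - r) * (t + Real.log t)) ≤ Real.exp ((1 - r) * t + Real.log t) := by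
          apply Real.exp_le_exp.2
          nlinarith
      _ = _ := by rw [Real.exp_add, h1]
  rw [e1]
  have e3 := Real.exp_pos ((1 - r) * t)
  calc 3 * t * (Real.exp 1 * Real.exp ((1 - r) * (t + Real.log t))) ≤
        3 * t * (Real.exp 1 * (Real.exp ((1 - r) * t) * t)) := by
        refine mul_le_mul_of_nonneg_left (mul_le_mul_of_nonneg_left e2 (Real.exp_pos 1).le)
          (by linarith)
    _ = Real.exp ((1 - r) * t) * (3 * Real.exp 1 * t ^ 2) := by ring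
    _ < _ := mul_lt_mul_of_pos_left hx1 e3

/-- from large sets to sampled integers -/
theorem pick {f g : ℝ → ℝ} (hstep : ∀ u u' : ℝ, ⌊Real.exp u⌋₊ = ⌊Real.exp u'⌋₊ → f u = f u')
    {A : ℕ → Prop} {β l' : ℝ} (hl' : 0 < l')
    (hT : Thin {u | ¬ ∃ q ∈ US A, |q - u| ≤ 1 ∧ |f u - f q| ≤ Real.exp (β * u)} l')
    (hB : ∀ lam : ℝ, 0 < lam → ∀ᶠ x : ℝ in atTop, ∀ s : ℝ, s = 1 ∨ s = -1 →
      x ^ (1 - lam) ≤ (volume (Big f g s x)).toReal) :
    ∀ᶠ x : ℝ in atTop, ∀ s : ℝ, s = 1 ∨ s = -1 → ∃ (y : ℝ) (m : ℕ), x ≤ y ∧ y ≤ x * Real.log x ∧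
      A m ∧ y / 3 - 1 ≤ m ∧ (m : ℝ) ≤ 3 * y ∧ g y - y ^ β ≤ s * f (Real.log m) := by
  obtain ⟨lam, hlam, hv⟩ := thin_exp hl' hT
  filter_upwards [hv, hB lam hlam, eventually_ge_atTop 6] with x h1 h2 hx s hs
  have h3 := h2 s hs
  have hx0 : 0 < x := by linarith
  -- a point of the large set outside the thin set
  obtain ⟨y, hy1, hy2⟩ : ∃ y ∈ Big f g s x, Real.log y ∉
      {u | ¬ ∃ q ∈ US A, |q - u| ≤ 1 ∧ |f u - f q| ≤ Real.exp (β * u)} := by
    by_contra hcon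
    have h4 : volume (Big f g s x) < ENNReal.ofReal (x ^ (1 - lam)) := by
      refine (measure_mono ?_).trans_lt h1
      intro y hy
      exact ⟨hy.1, by_contra fun h => hcon ⟨y, hy, h⟩⟩
    have h5 : (volume (Big f g s x)).toReal < x ^ (1 - lam) := by
      refine (ENNReal.toReal_lt_toReal (ne_top_of_lt h4) ENNReal.ofReal_ne_top).2 h4 |>.trans_le ?_
      rw [ENNReal.toReal_ofReal (Real.rpow_nonneg hx0.le _)]
    linarith
  have hy0 : 0 < y := hx0.trans_le hy1.1.1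
  have hy6 : 6 ≤ y := hx.trans hy1.1.1
  obtain ⟨q, hq, hq1, hq2⟩ := not_not.1 hy2
  have hq3 := abs_le.1 hq1
  have e3 : Real.exp 1 < 3 := by
    have := Real.exp_one_lt_d9
    linarith
  have hqy : Real.exp q ≤ 3 * y := by
    have h4 : Real.exp q ≤ Real.exp (1 + Real.log y) := Real.exp_le_exp.2 (by linarith)
    rw [Real.exp_add, Real.exp_log hy0] at h4
    nlinarith
  have hqy' : y / 3 ≤ Real.exp q := by
    have h4 : Real.exp (-1 + Real.log y) ≤ Real.exp q := Real.exp_le_exp.2 (by linarith)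
    rw [Real.exp_add, Real.exp_log hy0, Real.exp_neg] at h4
    have h5 : 1 / 3 ≤ (Real.exp 1)⁻¹ := by
      rw [one_div]
      exact inv_anti₀ (Real.exp_pos 1) e3.le
    have h6 := mul_le_mul_of_nonneg_right h5 hy0.le
    linarith
  have hm1 : (⌊Real.exp q⌋₊ : ℝ) ≤ Real.exp q := Nat.floor_le (Real.exp_pos q).le
  have hm2 : Real.exp q < ⌊Real.exp q⌋₊ + 1 := Nat.lt_floor_add_one _
  have hm0 : (0 : ℝ) < ⌊Real.exp q⌋₊ := by linarith
  refine ⟨y, ⌊Real.exp q⌋₊, hy1.1.1, hy1.1.2, hq, by linarith, by linarith, ?_⟩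
  have h4 : f q = f (Real.log ⌊Real.exp q⌋₊) := by
    apply hstep
    rw [Real.exp_log hm0, Nat.floor_natCast]
  rw [← h4]
  have h5 : y ^ β = Real.exp (β * Real.log y) := by
    rw [Real.rpow_def_of_pos hy0, mul_comm]
  rw [h5]
  have h6 : g y ≤ s * f (Real.log y) := hy1.2
  have h7 : s * f (Real.log y) - s * f q ≤ |f (Real.log y) - f q| := by
    rw [← mul_sub]
    refine (le_abs_self _).trans ?_
    rw [abs_mul]
    rcases hs with rfl | rfl <;> simp
  linarith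

/-- from a power of `y` to a power of `m` -/
lemma windows : ∀ᶠ x : ℝ in atTop, ∀ (y : ℝ) (m : ℕ), 4 * x ≤ y → y ≤ 4 * x * Real.log (4 * x) →
    y / 3 - 1 ≤ m → (m : ℝ) ≤ 3 * y → x ≤ m ∧ (m : ℝ) ≤ x * Real.log x ^ 2 := by
  filter_upwards [Real.tendsto_log_atTop.eventually_ge_atTop 24, eventually_ge_atTop 4]
    with x h1 hx y m hy1 hy2 hm1 hm2
  refine ⟨by linarith, hm2.trans ?_⟩
  have h2 : Real.log (4 * x) ≤ 2 * Real.log x := by
    rw [Real.log_mul (by norm_num) (by linarith)]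
    have : Real.log 4 ≤ Real.log x := Real.log_le_log (by norm_num) hx
    linarith
  calc 3 * y ≤ 3 * (4 * x * (2 * Real.log x)) := by
        refine mul_le_mul_of_nonneg_left (hy2.trans ?_) (by norm_num)
        exact mul_le_mul_of_nonneg_left h2 (by linarith)
    _ = x * (24 * Real.log x) := by ring
    _ ≤ x * Real.log x ^ 2 := by
        refine mul_le_mul_of_nonneg_left ?_ (by linarith)
        rw [sq]
        exact mul_le_mul_of_nonneg_right h1 (by linarith)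

lemma pow_gap {a b : ℝ} (h : a < b) (C : ℝ) : ∀ᶠ y : ℝ in atTop, C * y ^ a ≤ y ^ b := by
  filter_upwards [(tendsto_rpow_atTop (show 0 < b - a by linarith)).eventually_ge_atTop C,
    eventually_gt_atTop 0] with y h1 h2
  have h3 : y ^ b = y ^ (b - a) * y ^ a := by
    rw [← Real.rpow_add h2]
    congr 1
    ring
  rw [h3]
  exact mul_le_mul_of_nonneg_right h1 (Real.rpow_nonneg h2.le _)

lemma ev_win {P : ℝ → Prop} (h : ∀ᶠ y : ℝ in atTop, P y) : ∀ᶠ x : ℝ in atTop, ∀ y : ℝ, x ≤ y → P y := by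
  obtain ⟨y₀, hy₀⟩ := eventually_atTop.1 h
  filter_upwards [eventually_ge_atTop y₀] with x hx y hy
  exact hy₀ y (hx.trans hy)

lemma four_mul_tendsto : Tendsto (fun x : ℝ => 4 * x) atTop atTop :=
  tendsto_id.const_mul_atTop (by norm_num)

/-- **Zeros to the right: large values at sampled integers.** -/
theorem sparse_right {f : ℝ → ℝ} (hf : Good f) (hTr : Tr f)
    (hstep : ∀ u u' : ℝ, ⌊Real.exp u⌋₊ = ⌊Real.exp u'⌋₊ → f u = f u') {A : ℕ → Prop} {l : ℝ}
    (hl : 0 < l) (hA : Samples l A) {θ : ℝ} (hθ : 1 / 2 ≤ θ)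
    (hz : ∃ z : ℂ, riemannZeta z = 0 ∧ θ < z.re) :
    ∀ᶠ x : ℝ in atTop, ∀ s : ℝ, s = 1 ∨ s = -1 → ∃ m : ℕ, A m ∧ x ≤ m ∧
      (m : ℝ) ≤ x * Real.log x ^ 2 ∧ (m : ℝ) ^ θ ≤ s * f (Real.log m) := by
  obtain ⟨σ0, h1, h2, h3, h4⟩ := Pool.Agent.R303.SW.supre hz
  obtain ⟨hl1, hl2, hl3, hl4⟩ := half_lt hl
  set l₁ : ℝ := min (l / 2) (1 / 2) with hl₁
  set β : ℝ := max θ (σ0 - l₁ / 4) with hβ
  have hβ1 : θ ≤ β := le_max_left _ _
  have hβ2 : σ0 - l₁ / 4 ≤ β := le_max_right _ _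
  have hβ3 : β < σ0 := max_lt h1 (by linarith)
  obtain ⟨ρ, hρ, hρe⟩ := h4 ((σ0 - β) / 2) (by linarith)
  obtain ⟨l', hl', hT⟩ := hTr σ0 l₁ β (by linarith) h3 hl1 hl2 (by linarith) (US A)
    (meets_of hA hl hl3 (by linarith))
  set θ₂ : ℝ := (β + σ0) / 2 with hθ₂
  have hp := pick hstep (g := fun y => y ^ θ₂) hl' hT fun lam hlam =>
    Pool.Agent.W5h38.ML.big1 hf θ₂ (by linarith) ⟨ρ, hρ, by linarith⟩ lam hlam
  filter_upwards [four_mul_tendsto.eventually hp, windows,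
    ev_win (pow_gap (show β < θ₂ by linarith) 4), eventually_ge_atTop 4] with x g1 g2 g3 g4 s hs
  obtain ⟨y, m, k1, k2, k3, k4, k5, k6⟩ := g1 s hs
  obtain ⟨w1, w2⟩ := g2 y m k1 k2 k4 k5
  refine ⟨m, k3, w1, w2, ?_⟩
  have hy0 : 0 < y := by linarith
  have e1 := g3 y (by linarith)
  have e2 : (m : ℝ) ^ θ ≤ 3 * y ^ β := by
    calc (m : ℝ) ^ θ ≤ (3 * y) ^ θ := Real.rpow_le_rpow (Nat.cast_nonneg m) k5 (by linarith)
      _ ≤ (3 * y) ^ β := Real.rpow_le_rpow_of_exponent_le (by linarith) hβ1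
      _ = 3 ^ β * y ^ β := Real.mul_rpow (by norm_num) hy0.le
      _ ≤ 3 * y ^ β := by
        refine mul_le_mul_of_nonneg_right ?_ (Real.rpow_nonneg hy0.le _)
        calc (3 : ℝ) ^ β ≤ 3 ^ (1 : ℝ) :=
              Real.rpow_le_rpow_of_exponent_le (by norm_num) (by linarith)
          _ = 3 := Real.rpow_one 3
  have k7 : y ^ θ₂ - y ^ β ≤ s * f (Real.log m) := k6
  linarith

/-- the exceptional set, all zeros on the left of `1/2` -/
lemma tr_half {f : ℝ → ℝ} (hTr : Tr f) (h0 : ∀ s : ℂ, 1 / 2 < s.re → riemannZeta s ≠ 0)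
    {A : ℕ → Prop} {l : ℝ} (hl : 0 < l) (hA : Samples l A) :
    ∃ β l' : ℝ, β < 1 / 2 ∧ 0 < l' ∧
      Thin {u | ¬ ∃ q ∈ US A, |q - u| ≤ 1 ∧ |f u - f q| ≤ Real.exp (β * u)} l' := by
  obtain ⟨hl1, hl2, hl3, hl4⟩ := half_lt hl
  obtain ⟨l', hl', hT⟩ := hTr (1 / 2) _ (1 / 2 - min (l / 2) (1 / 2) / 4) le_rfl h0 hl1 hl2
    (by linarith) (US A) (meets_of hA hl hl3 (by linarith))
  exact ⟨_, l', by linarith, hl', hT⟩

/-- **(S) fails: large values at sampled integers.** -/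
theorem sparse_fail {f : ℝ → ℝ} (hf : Good f) (hTr : Tr f)
    (hstep : ∀ u u' : ℝ, ⌊Real.exp u⌋₊ = ⌊Real.exp u'⌋₊ → f u = f u') (hn : ¬ RHS) :
    ∃ c : ℝ, 0 < c ∧ ∀ (l : ℝ) (A : ℕ → Prop), 0 < l → Samples l A →
    ∀ᶠ x : ℝ in atTop, ∀ s : ℝ, s = 1 ∨ s = -1 → ∃ m : ℕ, A m ∧ x ≤ m ∧
      (m : ℝ) ≤ x * Real.log x ^ 2 ∧ c * (√m * Real.log m) ≤ s * f (Real.log m) := by
  by_cases hoff : ∃ s : ℂ, riemannZeta s = 0 ∧ 1 / 2 < s.re
  · obtain ⟨s0, hs0, hs1⟩ := hoff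
    set θ := (1 / 2 + s0.re) / 2 with hθ
    have h1 : 1 / 2 < θ := by rw [hθ]; linarith
    have h2 : θ < s0.re := by rw [hθ]; linarith
    refine ⟨1, one_pos, fun l A hl hA => ?_⟩
    have t1 : ∀ᶠ y : ℝ in atTop, √y * Real.log y ≤ y ^ θ := by
      have h := (isLittleO_log_rpow_atTop (show 0 < θ - 1 / 2 by linarith)).bound
        (show (0 : ℝ) < 1 by norm_num)
      filter_upwards [h, eventually_ge_atTop 1] with y hy hy1
      rw [one_mul, Real.norm_eq_abs, Real.norm_eq_abs, abs_of_nonneg (Real.log_nonneg hy1),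
        abs_of_nonneg (Real.rpow_nonneg (by linarith) _)] at hy
      have e1 : y ^ θ = √y * y ^ (θ - 1 / 2) := by
        rw [Real.sqrt_eq_rpow, ← Real.rpow_add (by linarith)]; congr 1; ring
      rw [e1]
      exact mul_le_mul_of_nonneg_left hy (Real.sqrt_nonneg _)
    filter_upwards [sparse_right hf hTr hstep hl hA h1.le ⟨s0, hs0, h2⟩, ev_win t1]
      with x g1 g2 s hs
    obtain ⟨m, k1, k2, k3, k4⟩ := g1 s hs
    refine ⟨m, k1, k2, k3, ?_⟩
    rw [one_mul]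
    exact (g2 m k2).trans k4
  · push Not at hoff
    obtain ⟨c, hc, h⟩ := Pool.Agent.W5h38.ML.big2 hf hn
    refine ⟨c / 8, by positivity, fun l A hl hA => ?_⟩
    obtain ⟨β, l', hβ, hl', hT⟩ := tr_half hTr (fun s hs h0 => absurd (hoff s h0) (by linarith)) hl hA
    have hp := pick hstep hl' hT h
    filter_upwards [four_mul_tendsto.eventually hp, windows, ev_win (pow_gap hβ (2 / c)),
      eventually_ge_atTop 4] with x g1 g2 g3 g4 s hs
    obtain ⟨y, m, k1, k2, k3, k4, k5, k6⟩ := g1 s hs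
    obtain ⟨w1, w2⟩ := g2 y m k1 k2 k4 k5
    refine ⟨m, k3, w1, w2, ?_⟩
    have hy4 : 4 ≤ y := by linarith
    have hm0 : (0 : ℝ) < m := by linarith
    have e1 := g3 y (by linarith)
    rw [← Real.sqrt_eq_rpow, div_mul_eq_mul_div, div_le_iff₀ hc] at e1
    have e2 : √(m : ℝ) ≤ 2 * √y := by
      rw [show (2 : ℝ) = √4 by rw [show (4 : ℝ) = 2 ^ 2 by norm_num]; exact (Real.sqrt_sq (by norm_num)).symm,
        ← Real.sqrt_mul (by norm_num)]
      exact Real.sqrt_le_sqrt (by linarith)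
    have e3 : Real.log m ≤ 2 * Real.log y := by
      have h1 : Real.log m ≤ Real.log (3 * y) := Real.log_le_log hm0 k5
      rw [Real.log_mul (by norm_num) (by linarith)] at h1
      have h2 : Real.log 3 ≤ Real.log y := Real.log_le_log (by norm_num) (by linarith)
      linarith
    have e4 : 1 ≤ Real.log y := by
      rw [Real.le_log_iff_exp_le (by linarith)]
      have := Real.exp_one_lt_d9
      linarith
    have e5 : 0 ≤ Real.log m := Real.log_nonneg (by linarith)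
    have e6 : √(m : ℝ) * Real.log m ≤ 4 * (√y * Real.log y) := by
      calc √(m : ℝ) * Real.log m ≤ (2 * √y) * (2 * Real.log y) := mul_le_mul e2 e3 e5 (by positivity)
        _ = _ := by ring
    have e7 : √y * 1 ≤ √y * Real.log y := mul_le_mul_of_nonneg_left e4 (Real.sqrt_nonneg _)
    have e8 : 2 * y ^ β ≤ c * (√y * Real.log y) := by
      calc 2 * y ^ β ≤ √y * c := e1
        _ = c * (√y * 1) := by ring
        _ ≤ _ := mul_le_mul_of_nonneg_left e7 hc.le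
    have e9 := mul_le_mul_of_nonneg_left e6 (show 0 ≤ c / 8 by positivity)
    have k7 : c * (√y * Real.log y) - y ^ β ≤ s * f (Real.log m) := k6
    linarith

/-- **Large values of `M` at sampled integers, unconditionally.** -/
theorem sparse_mob : ∃ c : ℝ, 0 < c ∧ ∀ (l : ℝ) (A : ℕ → Prop), 0 < l → Samples l A →
    ∀ᶠ x : ℝ in atTop, ∀ s : ℝ, s = 1 ∨ s = -1 → ∃ m : ℕ, A m ∧ x ≤ m ∧
      (m : ℝ) ≤ x * Real.log x ^ 2 ∧ c * √m ≤ s * mm (Real.log m) := by
  have hstep : ∀ u u' : ℝ, ⌊Real.exp u⌋₊ = ⌊Real.exp u'⌋₊ → mm u = mm u' := fun u u' h => by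
    rw [mm_eq, mm_eq]
    exact Sa_step _ u u' h
  by_cases hn : RHS
  · obtain ⟨ρ, hρ, hρ1, hρ2⟩ := H313.TK.exists_zero
    have hρ3 : ρ.re = 1 / 2 := (hn ρ hρ (by linarith) hρ2).1
    have hfree : ∀ s : ℂ, 1 / 2 < s.re → riemannZeta s ≠ 0 := by
      intro s hs h0
      have := (hn s h0 (by linarith) (Pool.Agent.W190.zero_FF h0).2).1
      linarith
    obtain ⟨c, hc, hcore⟩ := H313.TK.core1' ρ hρ (by linarith) hρ2
    rw [hρ3] at hcore
    set c' : ℝ := c / (4 * (4 * H313.TK.C0 * H313.TK.D1 + 1)) with hc'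
    have hc'0 : 0 < c' := by
      have := H313.TK.C0_nonneg
      have := H313.TK.D1_nonneg
      positivity
    have hB : ∀ lam : ℝ, 0 < lam → ∀ᶠ x : ℝ in atTop, ∀ s : ℝ, s = 1 ∨ s = -1 →
        x ^ (1 - lam) ≤ (volume (Big mm (fun y => c' * y ^ (1 / 2 : ℝ)) s x)).toReal := by
      intro lam hlam
      obtain ⟨K, hK, hup⟩ := Pool.Agent.W5h38.ML.good_mm.up (1 / 2) le_rfl hfree (1 / 2 + lam / 2)
        (by linarith)
      have H := Pool.Agent.W5h38.ML.large_of_core mm H313.TK.mm_meas H313.TK.abs_mm_le (1 / 2)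
        (1 / 2 + lam / 2) K le_rfl (by norm_num) (by linarith) hK hup (fun _ => 1)
        (Eventually.of_forall fun _ => le_rfl) c hc hcore lam (by linarith)
      refine Pool.Agent.W5h38.ML.big_of (fun y => y ^ (1 / 2 : ℝ)) (fun _ => c') lam ?_ _
        (Eventually.of_forall fun x y _ => le_rfl)
      filter_upwards [H] with t ht s hs
      simpa only [one_mul] using ht s hs
    refine ⟨c' / 4, by positivity, fun l A hl hA => ?_⟩
    obtain ⟨β, l', hβ, hl', hT⟩ := tr_half tr_mm hfree hl hA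
    have hp := pick hstep hl' hT hB
    filter_upwards [four_mul_tendsto.eventually hp, windows, ev_win (pow_gap hβ (2 / c')),
      eventually_ge_atTop 4] with x g1 g2 g3 g4 s hs
    obtain ⟨y, m, k1, k2, k3, k4, k5, k6⟩ := g1 s hs
    obtain ⟨w1, w2⟩ := g2 y m k1 k2 k4 k5
    refine ⟨m, k3, w1, w2, ?_⟩
    have e1 := g3 y (by linarith)
    have k7 : c' * y ^ (1 / 2 : ℝ) - y ^ β ≤ s * mm (Real.log m) := k6
    rw [← Real.sqrt_eq_rpow] at e1 k7
    rw [div_mul_eq_mul_div, div_le_iff₀ hc'0] at e1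
    have e2 : √(m : ℝ) ≤ 2 * √y := by
      rw [show (2 : ℝ) = √4 by rw [show (4 : ℝ) = 2 ^ 2 by norm_num]; exact (Real.sqrt_sq (by norm_num)).symm,
        ← Real.sqrt_mul (by norm_num)]
      exact Real.sqrt_le_sqrt (by linarith)
    have e3 := mul_le_mul_of_nonneg_left e2 (show 0 ≤ c' / 4 by positivity)
    linarith
  · obtain ⟨c, hc, h⟩ := sparse_fail Pool.Agent.W5h38.ML.good_mm tr_mm hstep hn
    refine ⟨c, hc, fun l A hl hA => ?_⟩
    filter_upwards [h l A hl hA, eventually_ge_atTop (Real.exp 1)] with x g1 g2 s hs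
    obtain ⟨m, k1, k2, k3, k4⟩ := g1 s hs
    refine ⟨m, k1, k2, k3, le_trans ?_ k4⟩
    refine mul_le_mul_of_nonneg_left ?_ hc.le
    have h1 : 1 ≤ Real.log m := by
      rw [Real.le_log_iff_exp_le (by linarith [Real.exp_pos 1])]
      linarith
    nlinarith [Real.sqrt_nonneg (m : ℝ)]

end Pool.Agent.W5h24.SP
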