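import Pool.Agent.W5h24.SP.Count

/-!
# Large values at sparse sets of integers in short windows
-/

set_option autoImplicit false

open MeasureTheory Filter Topology Set Complex
open scoped ENNReal
open H313.TK (MM mm)
open Pool.Agent.W5h26.ES (Thin US)
open Pool.Agent.W5h38.ML (Good ll Big RHS)

namespace Pool.Agent.W5h24.SP

lemma logpow_gap {a : ℝ} (ha : 0 < a) (κ C : ℝ) : ∀ᶠ x : ℝ in atTop, C * Real.log x ^ κ ≤ x ^ a := by
  have h := (isLittleO_log_rpow_rpow_atTop κ ha).bound (show (0 : ℝ) < 1 / (|C| + 1) by positivity)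
  filter_upwards [h, eventually_ge_atTop 1] with y hy hy1
  have h0 : 0 ≤ Real.log y ^ κ := Real.rpow_nonneg (Real.log_nonneg hy1) _
  rw [Real.norm_eq_abs, Real.norm_eq_abs, abs_of_nonneg h0,
    abs_of_nonneg (Real.rpow_nonneg (by linarith) _)] at hy
  have h1 : (|C| + 1) * Real.log y ^ κ ≤ y ^ a := by
    have := mul_le_mul_of_nonneg_left hy (show 0 ≤ |C| + 1 by positivity)
    have e : (|C| + 1) * (1 / (|C| + 1) * y ^ a) = y ^ a := by field_simp
    linarith
  have h2 : C * Real.log y ^ κ ≤ (|C| + 1) * Real.log y ^ κ :=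
    mul_le_mul_of_nonneg_right (by linarith [le_abs_self C]) h0
  linarith

/-- **Short windows.** -/
theorem count_short {f : ℝ → ℝ} (hTr : TrC f)
    (hstep : ∀ u u' : ℝ, ⌊Real.exp u⌋₊ = ⌊Real.exp u'⌋₊ → f u = f u')
    (hshort : ∀ θ κ c lam : ℝ, 1 / 2 ≤ θ → 0 ≤ κ → 4 * θ * (1 - θ) * (κ + 1) ≤ 1 → 0 < c → 0 < lam →
      (∃ z : ℂ, riemannZeta z = 0 ∧ θ < z.re) → ∀ᶠ x : ℝ in atTop, x ^ (1 - lam) ≤
      (volume {y : ℝ | y ∈ Icc x (x + c * x / Real.log x ^ κ) ∧ y ^ θ ≤ |f (Real.log y)|}).toReal)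
    {A : ℕ → Prop} {l : ℝ} (hl : 0 < l) (hl1 : l ≤ 1) (hA : Samples l A) {θ κ c : ℝ}
    (hθ : 1 / 2 ≤ θ) (hκ : 0 ≤ κ) (hcond : 4 * θ * (1 - θ) * (κ + 1) ≤ 1) (hc : 0 < c)
    (hz : ∃ z : ℂ, riemannZeta z = 0 ∧ θ < z.re) {lam : ℝ} (hlam : 0 < lam) :
    ∀ᶠ x : ℝ in atTop, x ^ (l - lam) ≤ ({m : ℕ | A m ∧ x ≤ m ∧ (m : ℝ) ≤ x + c * x / Real.log x ^ κ ∧
      (m : ℝ) ^ θ ≤ |f (Real.log m)|}.ncard : ℝ) := by
  obtain ⟨σ0, h1, h2, h3, h4⟩ := Pool.Agent.R303.SW.supre hz
  obtain ⟨l₁, hl₁, hl₂, hl₃⟩ := near_exp hl hlam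
  set β : ℝ := max θ (σ0 - l₁ / 4) with hβ
  have hβ1 : θ ≤ β := le_max_left _ _
  have hβ2 : σ0 - l₁ / 4 ≤ β := le_max_right _ _
  have hβ3 : β < σ0 := max_lt h1 (by linarith)
  obtain ⟨ρ, hρ, hρe⟩ := h4 ((σ0 - β) / 2) (by linarith)
  obtain ⟨l', hl', hT⟩ := hTr σ0 l₁ β (by linarith) h3 hl₁ (by linarith) (by linarith) (US A)
    (meets_of hA hl hl₂ (by linarith))
  set θ₂ : ℝ := (β + σ0) / 2 with hθ₂
  have hθ₂' : θ ≤ θ₂ := by linarith
  have hcond₂ : 4 * θ₂ * (1 - θ₂) * (κ + 1) ≤ 1 := by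
    refine le_trans ?_ hcond
    refine mul_le_mul_of_nonneg_right ?_ (by linarith)
    nlinarith
  set d : ℝ := min c 1 / 4 with hd
  have hd0 : 0 < d := by
    have : 0 < min c 1 := lt_min hc one_pos
    linarith
  have hdc : 4 * d ≤ c := by
    have := min_le_left c 1
    linarith
  have hd1 : 4 * d ≤ 1 := by
    have := min_le_right c 1
    linarith
  set T : ℝ → Set ℝ := fun x => {y : ℝ | y ∈ Icc x (x + d * x / Real.log x ^ κ) ∧
    y ^ θ₂ ≤ |f (Real.log y)|} with hTdef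
  have hlog := Real.tendsto_log_atTop
  have hlκ : ∀ x : ℝ, 1 ≤ Real.log x → 1 ≤ Real.log x ^ κ := fun x hx => Real.one_le_rpow hx hκ
  have hmany := many hstep (A := A) hl₁ (by linarith) hl' hT (T := T)
    (by
      filter_upwards [hlog.eventually_ge_atTop 2, eventually_ge_atTop 1] with x g1 g2
      rintro y ⟨⟨hy1, hy2⟩, -⟩
      refine ⟨hy1, hy2.trans ?_⟩
      have e1 : d * x / Real.log x ^ κ ≤ x := by
        rw [div_le_iff₀ (by linarith [hlκ x (by linarith)])]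
        have := hlκ x (by linarith)
        nlinarith
      nlinarith)
    (fun lam hlam => hshort θ₂ κ d lam (by linarith) hκ hcond₂ hd0 hlam ⟨ρ, hρ, by linarith⟩)
    (show 0 < lam / 4 by linarith)
  -- the shifted window
  set X : ℝ → ℝ := fun x => x + d * x / Real.log x ^ κ with hX
  have hX1 : ∀ᶠ x : ℝ in atTop, x ≤ X x ∧ X x ≤ 2 * x := by
    filter_upwards [hlog.eventually_ge_atTop 1, eventually_ge_atTop 1] with x g1 g2
    have h0 := hlκ x g1
    constructor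
    · have : 0 ≤ d * x / Real.log x ^ κ := by positivity
      show x ≤ x + d * x / Real.log x ^ κ
      linarith
    · have e1 : d * x / Real.log x ^ κ ≤ x := by
        rw [div_le_iff₀ (by linarith)]
        nlinarith
      show x + d * x / Real.log x ^ κ ≤ 2 * x
      linarith
  have hXt : Tendsto X atTop atTop := tendsto_atTop_mono' _ (hX1.mono fun x hx => hx.1) tendsto_id
  have hpow : ∀ᶠ x : ℝ in atTop, x ^ (l - lam) ≤ (X x) ^ (l₁ - lam / 4) := by
    filter_upwards [hX1, two_pow (l₁ - lam / 4) (show 0 < lam / 4 by linarith),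
      eventually_ge_atTop 1] with x g1 g2 g3
    have e0 : x ^ (l - lam) ≤ x ^ (l₁ - lam / 4 - lam / 4) :=
      Real.rpow_le_rpow_of_exponent_le g3 (by linarith)
    rcases le_total 0 (l₁ - lam / 4) with h | h
    · have e1 : x ^ (l₁ - lam / 4 - lam / 4) ≤ x ^ (l₁ - lam / 4) :=
        Real.rpow_le_rpow_of_exponent_le g3 (by linarith)
      exact e0.trans (e1.trans (Real.rpow_le_rpow (by linarith) g1.1 h))
    · exact e0.trans (g2.trans (Real.rpow_le_rpow_of_nonpos (by linarith [g1.1]) g1.2 h))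
  filter_upwards [hXt.eventually hmany, hpow, hX1, logpow_gap hl₁ κ (124 / d),
    ev_win (near_le hl₁), ev_win (pow_gap (show β < θ₂ by linarith) 3),
    hlog.eventually_ge_atTop 1, eventually_ge_atTop 2] with x g1 g2 g3 g4 g5 g6 g7 g8
  refine g2.trans (g1.trans ?_)
  have hx0 : 0 < x := by linarith
  have hL0 : 1 ≤ Real.log x ^ κ := hlκ x g7
  have hLp : 0 < Real.log x ^ κ := by linarith
  have hDx : 0 < d * x / Real.log x ^ κ := by positivity
  have hsub : {m : ℕ | A m ∧ ∃ y ∈ T (X x), |(m : ℝ) - y| ≤ 31 * y ^ (1 - l₁) ∧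
      |f (Real.log y) - f (Real.log m)| ≤ y ^ β} ⊆ {m : ℕ | A m ∧ x ≤ m ∧
      (m : ℝ) ≤ x + c * x / Real.log x ^ κ ∧ (m : ℝ) ^ θ ≤ |f (Real.log m)|} := by
    rintro m ⟨k1, y, ⟨⟨k2, k3⟩, k4⟩, k5, k6⟩
    have hxy : x ≤ y := g3.1.trans k2
    have hy0 : 0 < y := by linarith
    have hXx0 : 0 < X x := by linarith [g3.1]
    -- the upper end
    have u1 : d * X x / Real.log (X x) ^ κ ≤ 2 * (d * x / Real.log x ^ κ) := by
      have e1 : Real.log x ^ κ ≤ Real.log (X x) ^ κ :=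
        Real.rpow_le_rpow (by linarith) (Real.log_le_log hx0 g3.1) hκ
      calc d * X x / Real.log (X x) ^ κ ≤ d * (2 * x) / Real.log x ^ κ :=
            div_le_div₀ (by positivity) (mul_le_mul_of_nonneg_left g3.2 hd0.le) hLp e1
        _ = _ := by ring
    have hXe : X x = x + d * x / Real.log x ^ κ := rfl
    have u2 : y ≤ x + 3 * (d * x / Real.log x ^ κ) := by linarith
    have u3 : d * x / Real.log x ^ κ ≤ d * x := div_le_self (by positivity) hL0
    have u4 : y ≤ 4 * x := by nlinarith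
    have u5 : 31 * y ^ (1 - l₁) ≤ d * x / Real.log x ^ κ := by
      have e1 : y ^ (1 - l₁) ≤ 4 * x ^ (1 - l₁) := by
        calc y ^ (1 - l₁) ≤ (4 * x) ^ (1 - l₁) := Real.rpow_le_rpow hy0.le u4 (by linarith)
          _ = 4 ^ (1 - l₁) * x ^ (1 - l₁) := Real.mul_rpow (by norm_num) hx0.le
          _ ≤ 4 * x ^ (1 - l₁) := by
            refine mul_le_mul_of_nonneg_right ?_ (Real.rpow_nonneg hx0.le _)
            calc (4 : ℝ) ^ (1 - l₁) ≤ 4 ^ (1 : ℝ) :=
                  Real.rpow_le_rpow_of_exponent_le (by norm_num) (by linarith)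
              _ = 4 := Real.rpow_one 4
      have e2 : x = x ^ (1 - l₁) * x ^ l₁ := by
        rw [← Real.rpow_add hx0, sub_add_cancel, Real.rpow_one]
      rw [le_div_iff₀ hLp]
      have e3 : 124 * Real.log x ^ κ ≤ d * x ^ l₁ := by
        have := mul_le_mul_of_nonneg_left g4 hd0.le
        have e4 : d * (124 / d * Real.log x ^ κ) = 124 * Real.log x ^ κ := by field_simp
        linarith
      calc 31 * y ^ (1 - l₁) * Real.log x ^ κ ≤ 31 * (4 * x ^ (1 - l₁)) * Real.log x ^ κ := by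
            gcongr
        _ = x ^ (1 - l₁) * (124 * Real.log x ^ κ) := by ring
        _ ≤ x ^ (1 - l₁) * (d * x ^ l₁) :=
            mul_le_mul_of_nonneg_left e3 (Real.rpow_nonneg hx0.le _)
        _ = d * (x ^ (1 - l₁) * x ^ l₁) := by ring
        _ = d * x := by rw [← e2]
    have k7 := abs_le.1 k5
    have hm1 : x ≤ m := by
      have : x + d * x / Real.log x ^ κ ≤ y := k2
      linarith
    have hm2 : (m : ℝ) ≤ x + c * x / Real.log x ^ κ := by
      have e1 : (m : ℝ) ≤ x + 4 * (d * x / Real.log x ^ κ) := by linarith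
      refine e1.trans ?_
      have e2 : 4 * (d * x / Real.log x ^ κ) = 4 * d * x / Real.log x ^ κ := by ring
      rw [e2]
      have e3 : 4 * d * x / Real.log x ^ κ ≤ c * x / Real.log x ^ κ :=
        div_le_div_of_nonneg_right (mul_le_mul_of_nonneg_right hdc hx0.le) hLp.le
      linarith
    refine ⟨k1, hm1, hm2, ?_⟩
    have e5 := g5 y hxy
    have hm3 : (m : ℝ) ≤ 2 * y := by linarith
    have e6 := g6 y hxy
    have e2 : (m : ℝ) ^ θ ≤ 2 * y ^ β := by
      calc (m : ℝ) ^ θ ≤ (2 * y) ^ θ := Real.rpow_le_rpow (Nat.cast_nonneg m) hm3 (by linarith)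
        _ ≤ (2 * y) ^ β := Real.rpow_le_rpow_of_exponent_le (by linarith) hβ1
        _ = 2 ^ β * y ^ β := Real.mul_rpow (by norm_num) hy0.le
        _ ≤ 2 * y ^ β := by
          refine mul_le_mul_of_nonneg_right ?_ (Real.rpow_nonneg hy0.le _)
          calc (2 : ℝ) ^ β ≤ 2 ^ (1 : ℝ) :=
                Real.rpow_le_rpow_of_exponent_le (by norm_num) (by linarith)
            _ = 2 := Real.rpow_one 2
    have e7 : |f (Real.log y)| ≤ |f (Real.log y) - f (Real.log m)| + |f (Real.log m)| := by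
      have := abs_add_le (f (Real.log y) - f (Real.log m)) (f (Real.log m))
      rwa [sub_add_cancel] at this
    have k4' : y ^ θ₂ ≤ |f (Real.log y)| := k4
    linarith
  have hfin : {m : ℕ | A m ∧ x ≤ m ∧ (m : ℝ) ≤ x + c * x / Real.log x ^ κ ∧
      (m : ℝ) ^ θ ≤ |f (Real.log m)|}.Finite :=
    (Set.finite_Iic ⌊x + c * x / Real.log x ^ κ⌋₊).subset fun _ hm => Nat.le_floor hm.2.2.1
  exact_mod_cast Set.ncard_le_ncard hsub hfin

end Pool.Agent.W5h24.SP
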