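import Pool.Agent.W5h24.SP.Transfer
import Pool.Agent.W5h26.OS.Grow

/-!
# One-sided bounds at sparse sets of integers
-/

set_option autoImplicit false

open MeasureTheory Filter Topology Set
open scoped ENNReal
open Pool.Agent.TH942.LS (Dat)
open Pool.Agent.TH942.SL
open Pool.Agent.TH942.ES
open Pool.Agent.TH270.MS
open Pool.Agent.TH270.RS (cS' dat' DD_neg)
open Pool.Agent.W5h26.ES
open Pool.Agent.W5h26.ML
open Pool.Agent.W5h26.OS

namespace Pool.Agent.W5h24.SP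

/-- `P` holds for some integer of each of the intervals `[x, x + x^(1 - l)]`, `x` large -/
def Samples (l : ℝ) (P : ℕ → Prop) : Prop :=
  ∀ᶠ x : ℕ in atTop, ∃ n : ℕ, x ≤ n ∧ (n : ℝ) ≤ x + (x : ℝ) ^ (1 - l) ∧ P n

lemma Samples.mono {l : ℝ} {P Q : ℕ → Prop} (h : Samples l P) (hPQ : ∀ᶠ n in atTop, P n → Q n) :
    Samples l Q := by
  obtain ⟨n₀, hn₀⟩ := eventually_atTop.1 hPQ
  filter_upwards [h, eventually_ge_atTop n₀] with x ⟨n, h1, h2, h3⟩ hx
  exact ⟨n, h1, h2, hn₀ n (hx.trans h1) h3⟩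

/-- from integers to real numbers -/
theorem meets_of {l l' : ℝ} {P : ℕ → Prop} (h : Samples l P) (hl0 : 0 < l) (hl : l' < l)
    (hl1 : l' < 1) : Meets (US P) l' := by
  have hc : Tendsto (fun u : ℝ => ⌈Real.exp u⌉₊) atTop atTop :=
    tendsto_nat_ceil_atTop.comp Real.tendsto_exp_atTop
  have hexpt : ∀ r : ℝ, 0 < r → Tendsto (fun u : ℝ => Real.exp (r * u)) atTop atTop := fun r hr =>
    Real.tendsto_exp_atTop.comp (tendsto_id.const_mul_atTop hr)
  filter_upwards [hc.eventually h, (hexpt (l - l') (by linarith)).eventually_ge_atTop 2,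
    (hexpt (1 - l') (by linarith)).eventually_ge_atTop 2, eventually_ge_atTop 0] with u hu h1 h2 hu0
  obtain ⟨n, hn1, hn2, hn3⟩ := hu
  set x : ℕ := ⌈Real.exp u⌉₊ with hx
  have e0 := Real.exp_pos u
  have e1 : Real.exp u ≤ x := Nat.le_ceil _
  have e2 : (x : ℝ) < Real.exp u + 1 := Nat.ceil_lt_add_one e0.le
  have e3 : (x : ℝ) ≤ n := by exact_mod_cast hn1
  have hx0 : (0 : ℝ) < x := by linarith
  have hn0 : (0 : ℝ) < n := by linarith
  refine ⟨Real.log n, ?_, ?_, ?_⟩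
  · show P ⌊Real.exp (Real.log n)⌋₊
    rw [Real.exp_log hn0, Nat.floor_natCast]
    exact hn3
  · rw [Real.le_log_iff_exp_le hn0]
    linarith
  · have e4 : (x : ℝ) ^ (1 - l) = x * (x : ℝ) ^ (-l) := by
      rw [show 1 - l = 1 + (-l) by ring, Real.rpow_add hx0, Real.rpow_one]
    have e5 : (x : ℝ) ^ (-l) ≤ Real.exp (-(l * u)) := by
      have e6 : (x : ℝ) ^ (-l) ≤ (Real.exp u) ^ (-l) :=
        Real.rpow_le_rpow_of_nonpos e0 e1 (by linarith)
      rw [← Real.exp_mul] at e6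
      have e7 : u * -l = -(l * u) := by ring
      rwa [e7] at e6
    have e6 : (n : ℝ) ≤ (Real.exp u + 1) * (1 + Real.exp (-(l * u))) := by
      calc (n : ℝ) ≤ x * (1 + (x : ℝ) ^ (-l)) := by rw [e4] at hn2; linarith
        _ ≤ _ := mul_le_mul e2.le (by linarith) (by positivity) (by positivity)
    have e7 : Real.log n ≤ Real.log ((Real.exp u + 1) * (1 + Real.exp (-(l * u)))) :=
      Real.log_le_log hn0 e6
    have e8 : (Real.exp u + 1) = Real.exp u * (1 + Real.exp (-u)) := by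
      rw [mul_add, mul_one, ← Real.exp_add, add_neg_cancel, Real.exp_zero]
    rw [e8, Real.log_mul (by positivity) (by positivity), Real.log_mul (by positivity)
      (by positivity), Real.log_exp] at e7
    have e9 : Real.log (1 + Real.exp (-u)) ≤ Real.exp (-u) := by
      have := Real.log_le_sub_one_of_pos (x := 1 + Real.exp (-u)) (by positivity)
      linarith
    have e10 : Real.log (1 + Real.exp (-(l * u))) ≤ Real.exp (-(l * u)) := by
      have := Real.log_le_sub_one_of_pos (x := 1 + Real.exp (-(l * u))) (by positivity)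
      linarith
    have e11 : 2 * Real.exp (-(l * u)) ≤ Real.exp (-(l' * u)) := by
      calc 2 * Real.exp (-(l * u)) ≤ Real.exp ((l - l') * u) * Real.exp (-(l * u)) :=
            mul_le_mul_of_nonneg_right h1 (Real.exp_pos _).le
        _ = _ := by
          rw [← Real.exp_add]
          congr 1
          ring
    have e12 : 2 * Real.exp (-u) ≤ Real.exp (-(l' * u)) := by
      calc 2 * Real.exp (-u) ≤ Real.exp ((1 - l') * u) * Real.exp (-u) :=
            mul_le_mul_of_nonneg_right h2 (Real.exp_pos _).le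
        _ = _ := by
          rw [← Real.exp_add]
          congr 1
          ring
    linarith

variable {X : Type} {d : ℕ} {N : X → ℕ} {α : X → Fin d → ℂ} {e : X × ℕ → ℕ}
  {Ψ G₀ : ℂ → ℂ} {k κ : ℕ} {η C : ℝ}

/-- the partial sums depend only on the integral part -/
theorem sh_floor (E : Sys N α) (he : Function.Injective e) (u u' : ℝ)
    (h : ⌊Real.exp u⌋₊ = ⌊Real.exp u'⌋₊) :
    Sh (lamS N e) (cS' N α e) u = Sh (lamS N e) (cS' N α e) u' := by
  rw [sh_eq E he, sh_eq E he]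
  congr 1
  unfold Pl
  have h1 : ∀ (y : ℝ) (p : X × ℕ), ((N p.1 : ℝ) ^ (p.2 + 1) ≤ Real.exp y) ↔
      N p.1 ^ (p.2 + 1) ≤ ⌊Real.exp y⌋₊ := by
    intro y p
    rw [Nat.le_floor_iff (Real.exp_pos y).le]
    push_cast
    rfl
  simp only [h1, h]

section cn

variable {lam c : ℕ → ℝ} {δ σ : ℝ} {g : ℂ → ℂ} {p : ℕ}

/-- the exceptional set, from a bound `A e^{θ u}` on `G` -/
theorem thin_type (E : Cn lam c δ σ G₀ g k p κ η C)
    (hstep : ∀ u u' : ℝ, ⌊Real.exp u⌋₊ = ⌊Real.exp u'⌋₊ → Sh lam c u = Sh lam c u')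
    {x₁ l β θ A t : ℝ} (hx₁ : 0 < x₁) (hne : ∀ s : ℂ, x₁ < s.re → G₀ s ≠ 0) (hl : 0 < l)
    (hl2 : l ≤ 1 / 2) (hβ : x₁ - l / 2 < β) (hθ : 0 ≤ θ) (hβθ : β ≤ θ) (hA : 0 ≤ A) (ht : |t| = 1)
    {G : Set ℝ} (hG : Meets G l) {u₀ : ℝ} (hb : ∀ g ∈ G, u₀ ≤ g → t * Sh lam c g ≤ A * Real.exp (θ * g)) :
    ∃ l' : ℝ, 0 < l' ∧ Thin {u | (A * Real.exp θ + 1) * Real.exp (θ * u) < t * Sh lam c u} l' := by
  obtain ⟨l', hl', hT⟩ := transfer E hstep hx₁ hne hl hl2 hβ hG
  refine ⟨l', hl', hT.mono ?_⟩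
  filter_upwards [tendsto_natCast_atTop_atTop.eventually_ge_atTop (max u₀ 0 + 1)] with n hn
  rintro u ⟨h1, h2, -⟩ ⟨q, hq, hq1, hq2⟩
  have hu1 : max u₀ 0 + 1 ≤ u := hn.trans h2.le
  have hu0 : 0 ≤ u := by linarith [le_max_right u₀ 0]
  have hqu := abs_le.1 hq1
  have h3 := hb q hq (by linarith [le_max_left u₀ 0])
  have h4 : t * Sh lam c u ≤ t * Sh lam c q + |Sh lam c u - Sh lam c q| := by
    have e1 : t * (Sh lam c u - Sh lam c q) ≤ |t * (Sh lam c u - Sh lam c q)| := le_abs_self _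
    rw [abs_mul, ht, one_mul] at e1
    linarith
  have h5 : Real.exp (θ * q) ≤ Real.exp θ * Real.exp (θ * u) := by
    rw [← Real.exp_add]
    apply Real.exp_le_exp.2
    have := mul_le_mul_of_nonneg_left (show q ≤ 1 + u by linarith) hθ
    linarith
  have h6 : Real.exp (β * u) ≤ Real.exp (θ * u) :=
    Real.exp_le_exp.2 (mul_le_mul_of_nonneg_right hβθ hu0)
  have h7 : A * Real.exp (θ * q) ≤ A * (Real.exp θ * Real.exp (θ * u)) :=
    mul_le_mul_of_nonneg_left h5 hA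
  have h8 : (A * Real.exp θ + 1) * Real.exp (θ * u) < t * Sh lam c u := h1
  linarith

/-- **upper bounds on a sparse set: no zeros** -/
theorem sparse_upper (E : Cn lam c δ σ G₀ g k p κ η C)
    (hstep : ∀ u u' : ℝ, ⌊Real.exp u⌋₊ = ⌊Real.exp u'⌋₊ → Sh lam c u = Sh lam c u')
    {l θ A u₀ : ℝ} (hl : 0 < l) (hl2 : l ≤ 1 / 2) (hθ : 0 ≤ θ) (hA : 0 ≤ A) {G : Set ℝ}
    (hG : Meets G l) (hb : ∀ g ∈ G, u₀ ≤ g → Sh lam c g ≤ A * Real.exp (θ * g)) :
    ∀ s : ℂ, θ < s.re → G₀ s ≠ 0 := by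
  refine descend E hl hθ fun x₁ hx₁ hne s hs => ?_
  set m : ℝ := max θ (x₁ - l / 2) with hm
  set θ' : ℝ := (m + s.re) / 2 with hθ'
  have h1 : m < θ' := by rw [hθ']; linarith
  have h2 : θ' < s.re := by rw [hθ']; linarith
  have hθm : θ ≤ m := le_max_left _ _
  obtain ⟨l', hl', hT⟩ := thin_type E hstep (β := θ') (θ := θ') (A := A) (t := 1) (u₀ := max u₀ 0)
    hx₁ hne hl hl2 ((le_max_right _ _).trans_lt h1) (by linarith) le_rfl hA abs_one hG
    (fun q hq hq0 => by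
      rw [one_mul]
      refine (hb q hq ((le_max_left _ _).trans hq0)).trans (mul_le_mul_of_nonneg_left ?_ hA)
      exact Real.exp_le_exp.2 (mul_le_mul_of_nonneg_right (by linarith)
        ((le_max_right _ _).trans hq0)))
  simp only [one_mul] at hT
  exact quasi_upper E hl' (by linarith) (M := fun u => (A * Real.exp θ' + 1) * Real.exp (θ' * u))
    (by fun_prop) (fun u => by positivity) (fun x hx => exp_int hx _) hT s h2

/-- **lower bounds on a sparse set: no zeros** -/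
theorem sparse_lower (E : Cn lam c δ σ G₀ g k p κ η C)
    (hstep : ∀ u u' : ℝ, ⌊Real.exp u⌋₊ = ⌊Real.exp u'⌋₊ → Sh lam c u = Sh lam c u')
    {l θ A u₀ : ℝ} (hl : 0 < l) (hl2 : l ≤ 1 / 2) (hθ : 0 ≤ θ) (hA : 0 ≤ A) {G : Set ℝ}
    (hG : Meets G l) (hb : ∀ g ∈ G, u₀ ≤ g → -Sh lam c g ≤ A * Real.exp (θ * g))
    (hreal : ∀ x : ℝ, θ < x → G₀ x ≠ 0) :
    ∀ s : ℂ, θ < s.re → G₀ s ≠ 0 := by
  refine descend E hl hθ fun x₁ hx₁ hne s hs => ?_
  set m : ℝ := max θ (x₁ - l / 2) with hm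
  set θ' : ℝ := (m + s.re) / 2 with hθ'
  have h1 : m < θ' := by rw [hθ']; linarith
  have h2 : θ' < s.re := by rw [hθ']; linarith
  have hθm : θ ≤ m := le_max_left _ _
  obtain ⟨l', hl', hT⟩ := thin_type E hstep (β := θ') (θ := θ') (A := A) (t := -1)
    (u₀ := max u₀ 0) hx₁ hne hl hl2 ((le_max_right _ _).trans_lt h1) (by linarith) le_rfl hA
    (by rw [abs_neg, abs_one]) hG
    (fun q hq hq0 => by
      rw [neg_one_mul]
      refine (hb q hq ((le_max_left _ _).trans hq0)).trans (mul_le_mul_of_nonneg_left ?_ hA)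
      exact Real.exp_le_exp.2 (mul_le_mul_of_nonneg_right (by linarith)
        ((le_max_right _ _).trans hq0)))
  simp only [neg_one_mul] at hT
  exact quasi_lower E hl' (by linarith) (M := fun u => (A * Real.exp θ' + 1) * Real.exp (θ' * u))
    (by fun_prop) (fun u => by positivity) (fun x hx => exp_int hx _) hT
    (fun x hx => hreal x (by linarith)) s h2

/-- the deviations outside a thin set, if there are no zeros -/
theorem thin_dev (E : Cn lam c δ σ G₀ g k p κ η C)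
    (hstep : ∀ u u' : ℝ, ⌊Real.exp u⌋₊ = ⌊Real.exp u'⌋₊ → Sh lam c u = Sh lam c u')
    (hne : ∀ s : ℂ, 0 < s.re → G₀ s ≠ 0) {l : ℝ} (hl : 0 < l) (hl2 : l ≤ 1 / 2)
    {G : Set ℝ} (hG : Meets G l) (r : ℝ) {ε : ℝ} (hε : 0 < ε) :
    ∃ l' : ℝ, 0 < l' ∧ Thin {u | ¬ ∃ g ∈ G, |g - u| ≤ 1 ∧
      |(Sh lam c u - r * Real.log u) - (Sh lam c g - r * Real.log g)| ≤ ε} l' := by
  obtain ⟨l', hl', hT⟩ := transfer E hstep (x₁ := l / 8) (β := -(l / 8)) (by linarith)
    (fun s hs => hne s (by linarith)) hl hl2 (by linarith) hG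
  refine ⟨l', hl', hT.mono ?_⟩
  have ev1 : ∀ᶠ n : ℕ in atTop, Real.exp (-(l / 8) * n) ≤ ε / 2 := by
    have h1 : Tendsto (fun n : ℕ => Real.exp (-(l / 8) * n)) atTop (𝓝 0) := by
      refine Real.tendsto_exp_atBot.comp ?_
      exact tendsto_natCast_atTop_atTop.const_mul_atTop_of_neg (by linarith)
    exact (h1.eventually (gt_mem_nhds (by linarith : (0 : ℝ) < ε / 2))).mono fun n hn => hn.le
  have ev2 : ∀ᶠ n : ℕ in atTop, |r| * (2 / (n : ℝ)) ≤ ε / 2 := by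
    have h1 : Tendsto (fun n : ℕ => |r| * (2 / (n : ℝ))) atTop (𝓝 (|r| * 0)) :=
      (tendsto_const_nhds.div_atTop tendsto_natCast_atTop_atTop).const_mul _
    rw [mul_zero] at h1
    exact (h1.eventually (gt_mem_nhds (by linarith : (0 : ℝ) < ε / 2))).mono fun n hn => hn.le
  filter_upwards [ev1, ev2, eventually_ge_atTop 2] with n h1 h2 h3
  rintro u ⟨hu, hu1, hu2⟩ ⟨q, hq, hq1, hq2⟩
  apply hu
  refine ⟨q, hq, hq1, ?_⟩
  have hn2 : (2 : ℝ) ≤ n := by exact_mod_cast h3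
  have hqu := abs_le.1 hq1
  have hu0 : 0 < u := by linarith
  have hq0 : 0 < q := by linarith
  have e1 : |Sh lam c u - Sh lam c q| ≤ ε / 2 := by
    refine hq2.trans (le_trans (Real.exp_le_exp.2 ?_) h1)
    have := mul_le_mul_of_nonneg_left hu1.le (show 0 ≤ l / 8 by linarith)
    linarith
  have e2 : |Real.log u - Real.log q| ≤ 2 / n := by
    have hq' : (n : ℝ) / 2 ≤ q := by linarith
    have hu' : (n : ℝ) / 2 ≤ u := by linarith
    have hm : (0 : ℝ) < n / 2 := by linarith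
    have key : ∀ a b : ℝ, (n : ℝ) / 2 ≤ a → (n : ℝ) / 2 ≤ b → |a - b| ≤ 1 →
        Real.log a - Real.log b ≤ 2 / n := by
      intro a b ha hb hab
      have ha0 : 0 < a := by linarith
      have hb0 : 0 < b := by linarith
      rw [← Real.log_div ha0.ne' hb0.ne']
      have := Real.log_le_sub_one_of_pos (x := a / b) (by positivity)
      refine this.trans ?_
      have e3 : a / b - 1 = (a - b) / b := by field_simp
      rw [e3, div_le_div_iff₀ hb0 (by linarith)]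
      have := (abs_le.1 hab).2
      nlinarith
    rw [abs_le]
    constructor
    · have := key q u hq' hu' hq1
      linarith
    · have := key u q hu' hq' (by rw [abs_sub_comm]; exact hq1)
      linarith
  have e3 : (Sh lam c u - r * Real.log u) - (Sh lam c q - r * Real.log q) =
      (Sh lam c u - Sh lam c q) - r * (Real.log u - Real.log q) := by ring
  rw [e3]
  refine (abs_sub _ _).trans ?_
  rw [abs_mul]
  have e4 : |r| * |Real.log u - Real.log q| ≤ |r| * (2 / n) :=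
    mul_le_mul_of_nonneg_left e2 (abs_nonneg r)
  linarith

end cn

/-! ### systems of primes -/

lemma half_lt {l : ℝ} (hl : 0 < l) : 0 < min (l / 2) (1 / 2) ∧ min (l / 2) (1 / 2) ≤ 1 / 2 ∧
    min (l / 2) (1 / 2) < l ∧ min (l / 2) (1 / 2) < 1 :=
  ⟨lt_min (by linarith) (by norm_num), min_le_right _ _,
    (min_le_left _ _).trans_lt (by linarith), (min_le_right _ _).trans_lt (by norm_num)⟩

lemma pow_bound {M θ : ℝ} (hM : 0 ≤ M) (hθ : 0 ≤ θ) {y : ℝ} (hy : 0 ≤ y) :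
    (⌊Real.exp y⌋₊ : ℝ) ^ θ + M ≤ (1 + M) * Real.exp (θ * y) := by
  obtain ⟨f1, f2, f3⟩ := floor_bounds hy
  have q1 : (⌊Real.exp y⌋₊ : ℝ) ^ θ ≤ Real.exp (θ * y) := by
    rw [mul_comm θ y, Real.exp_mul]
    exact Real.rpow_le_rpow (Nat.cast_nonneg _) f1 hθ
  have q2 : 1 ≤ Real.exp (θ * y) := Real.one_le_exp (mul_nonneg hθ hy)
  nlinarith

/-- **Upper bounds at a sparse set of integers: zero-free half-planes.** -/
theorem free_upper (H : Mc N α Ψ G₀ k κ η C) {θ : ℝ} (hθ : 0 ≤ θ)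
    (h : ∀ ε : ℝ, 0 < ε → ∃ l : ℝ, 0 < l ∧ Samples l fun n => LP N α n ≤ (n : ℝ) ^ (θ + ε)) :
    ∀ s : ℂ, θ < s.re → G₀ s ≠ 0 := by
  obtain ⟨e, g, p, he, Q⟩ := H.cn
  obtain ⟨M, hM0, hM⟩ := sh_lp H.E he
  intro s hs
  set ε : ℝ := (s.re - θ) / 2 with hε
  have hε0 : 0 < ε := by rw [hε]; linarith
  obtain ⟨l, hl, hs1⟩ := h ε hε0
  obtain ⟨m0, m1, m2, m3⟩ := half_lt hl
  refine sparse_upper Q (sh_floor H.E he) (l := min (l / 2) (1 / 2)) (θ := θ + ε) (A := 1 + M)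
    (u₀ := 0) m0 m1 (by linarith) (by linarith) (meets_of hs1 hl m2 m3) (fun y hy hy0 => ?_) s
    (by rw [hε]; linarith)
  have h1 : LP N α (⌊Real.exp y⌋₊ : ℝ) ≤ (⌊Real.exp y⌋₊ : ℝ) ^ (θ + ε) := hy
  have h2 := (abs_le.1 (hM y hy0)).2
  have h3 := pow_bound hM0 (show 0 ≤ θ + ε by linarith) hy0
  linarith

/-- **Lower bounds at a sparse set of integers: zero-free half-planes.** -/
theorem free_lower (H : Mc N α Ψ G₀ k κ η C) {θ : ℝ} (hθ : 0 ≤ θ)
    (h : ∀ ε : ℝ, 0 < ε → ∃ l : ℝ, 0 < l ∧ Samples l fun n => -(n : ℝ) ^ (θ + ε) ≤ LP N α n)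
    (hreal : ∀ x : ℝ, θ < x → G₀ x ≠ 0) :
    ∀ s : ℂ, θ < s.re → G₀ s ≠ 0 := by
  obtain ⟨e, g, p, he, Q⟩ := H.cn
  obtain ⟨M, hM0, hM⟩ := sh_lp H.E he
  intro s hs
  set ε : ℝ := (s.re - θ) / 2 with hε
  have hε0 : 0 < ε := by rw [hε]; linarith
  obtain ⟨l, hl, hs1⟩ := h ε hε0
  obtain ⟨m0, m1, m2, m3⟩ := half_lt hl
  refine sparse_lower Q (sh_floor H.E he) (l := min (l / 2) (1 / 2)) (θ := θ + ε) (A := 1 + M)
    (u₀ := 0) m0 m1 (by linarith) (by linarith) (meets_of hs1 hl m2 m3) (fun y hy hy0 => ?_)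
    (fun x hx => hreal x (by linarith)) s (by rw [hε]; linarith)
  have h1 : -(⌊Real.exp y⌋₊ : ℝ) ^ (θ + ε) ≤ LP N α (⌊Real.exp y⌋₊ : ℝ) := hy
  have h2 := (abs_le.1 (hM y hy0)).1
  have h3 := pow_bound hM0 (show 0 ≤ θ + ε by linarith) hy0
  linarith

/-- `log log n` is less than any power -/
lemma loglog_le {ε : ℝ} (hε : 0 < ε) (ρ q : ℝ) :
    ∀ᶠ n : ℕ in atTop, |ρ * Real.log (Real.log n)| + |q| ≤ (n : ℝ) ^ ε := by
  have h1 : Tendsto (fun u : ℝ => Real.exp (ε * u) / u ^ 1) atTop atTop := by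
    have h2 := tendsto_exp_mul_div_rpow_atTop 1 ε hε
    simpa using h2
  have h3 : Tendsto (fun n : ℕ => Real.log n) atTop atTop :=
    Real.tendsto_log_atTop.comp tendsto_natCast_atTop_atTop
  filter_upwards [(h1.comp h3).eventually_ge_atTop (|ρ| + |q|), h3.eventually_ge_atTop 1,
    eventually_ge_atTop 1] with n h4 h5 h6
  simp only [Function.comp_apply, pow_one] at h4
  have hn : (0 : ℝ) < n := by exact_mod_cast h6
  have h7 : (n : ℝ) ^ ε = Real.exp (ε * Real.log n) := by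
    rw [Real.rpow_def_of_pos hn, mul_comm]
  have hL : 0 < Real.log n := by linarith
  rw [le_div_iff₀ hL] at h4
  rw [h7, abs_mul]
  have h8 : |Real.log (Real.log n)| ≤ Real.log n := log_le_self' h5
  have h9 : |ρ| * |Real.log (Real.log n)| ≤ |ρ| * Real.log n :=
    mul_le_mul_of_nonneg_left h8 (abs_nonneg ρ)
  have h10 : |q| ≤ |q| * Real.log n := le_mul_of_one_le_right (abs_nonneg q) h5
  linarith

/-- **Upper bounds at a sparse set of integers: the order.** -/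
theorem order_upper (H : Mc N α Ψ G₀ k κ η C) {l ρ q : ℝ} (hl : 0 < l)
    (h : Samples l fun n => LP N α n ≤ ρ * Real.log (Real.log n) + q) :
    (∀ s : ℂ, 0 < s.re → G₀ s ≠ 0) ∧ ∀ p : ℕ, analyticOrderAt G₀ 0 = p → (p : ℝ) ≤ k + ρ := by
  have hne : ∀ s : ℂ, 0 < s.re → G₀ s ≠ 0 := by
    refine free_upper H le_rfl fun ε hε => ⟨l, hl, h.mono ?_⟩
    filter_upwards [loglog_le (show 0 < 0 + ε by linarith) ρ q] with n hn h1
    have h2 := le_abs_self (ρ * Real.log (Real.log n))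
    have h3 := le_abs_self q
    linarith
  obtain ⟨e, g, p, he, Q⟩ := H.cn
  obtain ⟨M, hM0, hM⟩ := sh_lp H.E he
  obtain ⟨m0, m1, m2, m3⟩ := half_lt hl
  obtain ⟨l', hl', hT⟩ := thin_dev Q (sh_floor H.E he) hne m0 m1 (meets_of h hl m2 m3) ρ one_pos
  have hT2 : Thin {u | (M + q + |ρ|) + 1 < Sh (lamS N e) (cS' N α e) u - ρ * Real.log u} l' := by
    refine hT.mono ?_
    filter_upwards [eventually_ge_atTop 3] with n hn
    rintro u ⟨h1, h2, -⟩ ⟨y, hy, hy1, hy2⟩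
    have hn3 : (3 : ℝ) ≤ n := by exact_mod_cast hn
    have hyu := abs_le.1 hy1
    have hy2' : 2 ≤ y := by linarith
    have f1 : LP N α (⌊Real.exp y⌋₊ : ℝ) ≤
        ρ * Real.log (Real.log (⌊Real.exp y⌋₊ : ℝ)) + q := hy
    have f2 := (abs_le.1 (hM y (by linarith))).2
    have f3 := loglog_floor hy2'
    have f4 : |ρ * (Real.log (Real.log (⌊Real.exp y⌋₊ : ℝ)) - Real.log y)| ≤ |ρ| := by
      rw [abs_mul]
      calc |ρ| * _ ≤ |ρ| * 1 := mul_le_mul_of_nonneg_left f3 (abs_nonneg ρ)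
        _ = _ := mul_one _
    have f5 := (abs_le.1 f4).2
    have f6 := (abs_le.1 hy2).2
    have f7 : (M + q + |ρ|) + 1 < Sh (lamS N e) (cS' N α e) u - ρ * Real.log u := h1
    rw [mul_sub] at f5
    linarith
  obtain ⟨h2, h3⟩ := lead_upper Q hl' hT2
  refine ⟨h2, fun p' hp' => ?_⟩
  have h4 := Mc.order_of H Q
  have : p' = p := by
    rw [hp'] at h4
    exact_mod_cast h4
  rwa [this]

/-- **Lower bounds at a sparse set of integers: the order.** -/
theorem order_lower (H : Mc N α Ψ G₀ k κ η C) {l ρ q : ℝ} (hl : 0 < l)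
    (h : Samples l fun n => ρ * Real.log (Real.log n) - q ≤ LP N α n)
    (hreal : ∀ x : ℝ, 0 < x → G₀ x ≠ 0) :
    (∀ s : ℂ, 0 < s.re → G₀ s ≠ 0) ∧ ∀ p : ℕ, analyticOrderAt G₀ 0 = p → (k : ℝ) + ρ ≤ p := by
  have hne : ∀ s : ℂ, 0 < s.re → G₀ s ≠ 0 := by
    refine free_lower H le_rfl (fun ε hε => ⟨l, hl, h.mono ?_⟩) hreal
    filter_upwards [loglog_le (show 0 < 0 + ε by linarith) ρ q] with n hn h1
    have h2 := neg_abs_le (ρ * Real.log (Real.log n))
    have h3 := le_abs_self q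
    linarith
  obtain ⟨e, g, p, he, Q⟩ := H.cn
  obtain ⟨M, hM0, hM⟩ := sh_lp H.E he
  obtain ⟨m0, m1, m2, m3⟩ := half_lt hl
  obtain ⟨l', hl', hT⟩ := thin_dev Q (sh_floor H.E he) hne m0 m1 (meets_of h hl m2 m3) ρ one_pos
  have hT2 : Thin {u | (M + q + |ρ|) + 1 < ρ * Real.log u - Sh (lamS N e) (cS' N α e) u} l' := by
    refine hT.mono ?_
    filter_upwards [eventually_ge_atTop 3] with n hn
    rintro u ⟨h1, h2, -⟩ ⟨y, hy, hy1, hy2⟩
    have hn3 : (3 : ℝ) ≤ n := by exact_mod_cast hn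
    have hyu := abs_le.1 hy1
    have hy2' : 2 ≤ y := by linarith
    have f1 : ρ * Real.log (Real.log (⌊Real.exp y⌋₊ : ℝ)) - q ≤
        LP N α (⌊Real.exp y⌋₊ : ℝ) := hy
    have f2 := (abs_le.1 (hM y (by linarith))).1
    have f3 := loglog_floor hy2'
    have f4 : |ρ * (Real.log (Real.log (⌊Real.exp y⌋₊ : ℝ)) - Real.log y)| ≤ |ρ| := by
      rw [abs_mul]
      calc |ρ| * _ ≤ |ρ| * 1 := mul_le_mul_of_nonneg_left f3 (abs_nonneg ρ)
        _ = _ := mul_one _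
    have f5 := (abs_le.1 f4).1
    have f6 := (abs_le.1 hy2).1
    have f7 : (M + q + |ρ|) + 1 < ρ * Real.log u - Sh (lamS N e) (cS' N α e) u := h1
    rw [mul_sub] at f5
    linarith
  obtain ⟨h2, h3⟩ := lead_lower Q hl' hT2 hreal
  refine ⟨h2, fun p' hp' => ?_⟩
  have h4 := Mc.order_of H Q
  have : p' = p := by
    rw [hp'] at h4
    exact_mod_cast h4
  rwa [this]

end Pool.Agent.W5h24.SP
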