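import Pool.Agent.W5h24.SP.Diff
import Pool.Agent.W5h24.SP.Chain

/-!
# From one point in each short interval to almost all points
-/

set_option autoImplicit false

open MeasureTheory Filter Topology Set
open scoped ENNReal
open Pool.Agent.TH942.LS (Dat)
open Pool.Agent.TH942.SL
open Pool.Agent.TH270.MS
open Pool.Agent.W5h26.ES

namespace Pool.Agent.W5h24.SP

/-- `G` meets all the intervals `[u, u + e^{-l u}]`, `u` large -/
def Meets (G : Set ℝ) (l : ℝ) : Prop :=
  ∀ᶠ u : ℝ in atTop, ∃ g ∈ G, u ≤ g ∧ g ≤ u + Real.exp (-(l * u))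

lemma Meets.le {G : Set ℝ} {l l' : ℝ} (h : Meets G l) (hl : l' ≤ l) : Meets G l' := by
  filter_upwards [h, eventually_ge_atTop 0] with u ⟨g, hg, h1, h2⟩ hu
  refine ⟨g, hg, h1, h2.trans ?_⟩
  have : Real.exp (-(l * u)) ≤ Real.exp (-(l' * u)) := by
    apply Real.exp_le_exp.2
    have := mul_le_mul_of_nonneg_right hl hu
    linarith
  linarith

/-- a good position of the blocks -/
lemma exists_position {F : ℝ → ℝ} {n v M : ℝ} (hv : 0 < v) (hM : 0 ≤ M)
    (h : ∫⁻ a in Ioc (n - v) (n - v + v), ENNReal.ofReal (F a) ≤ ENNReal.ofReal (v * M)) :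
    ∃ a : ℝ, n - v < a ∧ a ≤ n ∧ F a ≤ M + 1 := by
  by_contra hcon
  push Not at hcon
  have h1 : ∫⁻ _ in Ioc (n - v) (n - v + v), ENNReal.ofReal (M + 1) ≤
      ∫⁻ a in Ioc (n - v) (n - v + v), ENNReal.ofReal (F a) := by
    refine setLIntegral_mono' measurableSet_Ioc fun a ha => ?_
    exact ENNReal.ofReal_le_ofReal (hcon a ha.1 (by linarith [ha.2])).le
  rw [setLIntegral_const, Real.volume_Ioc] at h1
  have h2 := h1.trans h
  rw [← ENNReal.ofReal_mul (by linarith), ENNReal.ofReal_le_ofReal_iff (by positivity)] at h2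
  have h3 : n - v + v - (n - v) = v := by ring
  rw [h3] at h2
  nlinarith

/-- **transfer**, for a step function with small increments in the mean -/
theorem transfer_of {S : ℝ → ℝ} (hS : Measurable S)
    (hstep : ∀ u u' : ℝ, ⌊Real.exp u⌋₊ = ⌊Real.exp u'⌋₊ → S u = S u')
    {x K ε l β : ℝ} (hx : 0 < x) (hK : 0 ≤ K) (hε : 0 < ε) (hε1 : ε < 1)
    (hd : ∀ w : ℝ, 0 < w → ∫⁻ u : ℝ, ENNReal.ofReal (((S u - S (u - w)) *
      Real.exp (-(x * u))) ^ 2) ≤ ENNReal.ofReal (K * w ^ (1 - ε)))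
    (hl : 0 < l) (hl2 : l ≤ 1 / 2) (hβ : 2 * x + ε - l < 2 * β) {G : Set ℝ} (hG : Meets G l) :
    ∃ l' : ℝ, 0 < l' ∧
      Thin {u | ¬ ∃ g ∈ G, |g - u| ≤ 1 ∧ |S u - S g| ≤ Real.exp (β * u)} l' := by
  set γ : ℝ := 2 * β - (2 * x + ε - l) with hγ
  have hγ0 : 0 < γ := by rw [hγ]; linarith
  refine ⟨γ / 2, by linarith, ?_⟩
  obtain ⟨u₀, hu₀⟩ := eventually_atTop.1 hG
  set C₁ : ℝ := 2 * Real.exp l * ((K + 1) * Real.exp (8 * ε + 12 * x)) * (4 * Real.exp (2 * |β|))
    with hC₁
  have hexpt : ∀ r : ℝ, 0 < r → Tendsto (fun n : ℕ => Real.exp (r * n)) atTop atTop := fun r hr =>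
    Real.tendsto_exp_atTop.comp (tendsto_natCast_atTop_atTop.const_mul_atTop hr)
  have ev1 : ∀ᶠ n : ℕ in atTop, 2 * Real.exp l ≤ Real.exp (l * n) :=
    (hexpt l hl).eventually_ge_atTop _
  have ev2 : ∀ᶠ n : ℕ in atTop, C₁ ≤ Real.exp (γ / 4 * n) :=
    (hexpt (γ / 4) (by linarith)).eventually_ge_atTop _
  have ev3 : ∀ᶠ n : ℕ in atTop, 2 * (n : ℝ) + 30 ≤ Real.exp (γ / 8 * n) := by
    have h1 : Tendsto (fun t : ℝ => t ^ 1 * Real.exp (-(γ / 8) * t)) atTop (𝓝 0) := by
      have := tendsto_rpow_mul_exp_neg_mul_atTop_nhds_zero 1 (γ / 8) (by linarith)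
      simpa using this
    have h2 := h1.comp tendsto_natCast_atTop_atTop (f := fun n : ℕ => (n : ℝ))
    filter_upwards [h2.eventually (gt_mem_nhds (show (0 : ℝ) < 1 / 4 by norm_num)),
      (hexpt (γ / 8) (by linarith)).eventually_ge_atTop 60] with n h3 h4
    simp only [Function.comp_apply, pow_one] at h3
    have h5 : Real.exp (-(γ / 8) * n) * Real.exp (γ / 8 * n) = 1 := by
      rw [← Real.exp_add, neg_mul, neg_add_cancel, Real.exp_zero]
    have h6 : (n : ℝ) < 1 / 4 * Real.exp (γ / 8 * n) := by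
      calc (n : ℝ) = n * Real.exp (-(γ / 8) * n) * Real.exp (γ / 8 * n) := by
            rw [mul_assoc, h5, mul_one]
        _ < _ := mul_lt_mul_of_pos_right h3 (Real.exp_pos _)
    linarith
  have ev4 : ∀ᶠ n : ℕ in atTop, max u₀ 0 + 1 ≤ (n : ℝ) :=
    tendsto_natCast_atTop_atTop.eventually_ge_atTop _
  filter_upwards [ev1, ev2, ev3, ev4] with n h1 h2 h3 h4
  have hn0 : (0 : ℝ) ≤ n := Nat.cast_nonneg n
  have hnu : u₀ ≤ (n : ℝ) - 1 := by linarith [le_max_left u₀ 0]
  have hn1 : (1 : ℝ) ≤ n := by linarith [le_max_right u₀ 0]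
  -- the finest scale and the length of the blocks
  set w : ℝ := Real.exp (-((n : ℝ) + 8)) with hw
  have hw0 : 0 < w := Real.exp_pos _
  set y : ℝ := (n : ℝ) + 8 - l * (n - 1) with hy
  have hy0 : 0 ≤ y := by
    rw [hy]
    nlinarith
  have hlog2 : 0 < Real.log 2 := Real.log_pos (by norm_num)
  set J : ℕ := ⌈y / Real.log 2⌉₊ with hJ
  have hJ1 : y / Real.log 2 ≤ J := Nat.le_ceil _
  have hJ2 : (J : ℝ) < y / Real.log 2 + 1 := Nat.ceil_lt_add_one (div_nonneg hy0 hlog2.le)
  have h2J : (2 : ℝ) ^ J = Real.exp (J * Real.log 2) := by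
    rw [Real.exp_nat_mul, Real.exp_log (by norm_num)]
  have hJlow : Real.exp y ≤ 2 ^ J := by
    rw [h2J]
    apply Real.exp_le_exp.2
    rwa [div_le_iff₀ hlog2] at hJ1
  have hJup : (2 : ℝ) ^ J ≤ 2 * Real.exp y := by
    have e1 : (J : ℝ) * Real.log 2 ≤ y + Real.log 2 := by
      have := mul_le_mul_of_nonneg_right hJ2.le hlog2.le
      have e2 : (y / Real.log 2 + 1) * Real.log 2 = y + Real.log 2 := by field_simp
      linarith
    rw [h2J]
    calc Real.exp (J * Real.log 2) ≤ Real.exp (y + Real.log 2) := Real.exp_le_exp.2 e1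
      _ = 2 * Real.exp y := by rw [Real.exp_add, Real.exp_log (by norm_num)]; ring
  set v : ℝ := 2 ^ J * w with hv
  have hv0 : 0 < v := by positivity
  have hyw : Real.exp y * w = Real.exp (-(l * (n - 1))) := by
    rw [hw, ← Real.exp_add]
    congr 1
    rw [hy]
    ring
  have hvlow : Real.exp (-(l * (n - 1))) ≤ v := by
    rw [← hyw, hv]
    exact mul_le_mul_of_nonneg_right hJlow hw0.le
  have hvup : v ≤ 2 * Real.exp (-(l * (n - 1))) := by
    rw [← hyw, hv, ← mul_assoc]
    exact mul_le_mul_of_nonneg_right hJup hw0.le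
  have hvup2 : v ≤ 2 * Real.exp l * Real.exp (-(l * n)) := by
    refine hvup.trans (le_of_eq ?_)
    rw [mul_assoc, ← Real.exp_add]
    congr 2
    ring
  have hv1 : v ≤ 1 := by
    refine hvup2.trans ?_
    calc 2 * Real.exp l * Real.exp (-(l * n)) ≤ Real.exp (l * n) * Real.exp (-(l * n)) :=
          mul_le_mul_of_nonneg_right h1 (Real.exp_pos _).le
      _ = 1 := by rw [← Real.exp_add, add_neg_cancel, Real.exp_zero]
  have hw1 : w ≤ 1 := by
    rw [hw, Real.exp_le_one_iff]
    linarith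
  have hJ3 : (J : ℝ) + 1 ≤ Real.exp (γ / 8 * n) := by
    refine le_trans ?_ h3
    have e1 : y / Real.log 2 ≤ 2 * y := by
      rw [div_le_iff₀ hlog2]
      have := Real.log_two_gt_d9
      nlinarith
    have e2 : y ≤ n + 9 := by
      rw [hy]
      nlinarith
    linarith
  set B : ℕ := ⌈2 / v⌉₊ + 1 with hB
  have hB1 : 2 / v ≤ (⌈2 / v⌉₊ : ℝ) := Nat.le_ceil _
  have hB2 : (⌈2 / v⌉₊ : ℝ) < 2 / v + 1 := Nat.ceil_lt_add_one (by positivity)
  have hBv : (B : ℝ) * v ≤ 4 := by
    have e1 : (B : ℝ) ≤ 2 / v + 2 := by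
      rw [hB]
      push_cast
      linarith
    have e2 := mul_le_mul_of_nonneg_right e1 hv0.le
    have e3 : (2 / v + 2) * v = 2 + 2 * v := by field_simp
    linarith
  -- the position of the blocks
  have hav := average hS hx hK hε hε1 hd hw0 J hv hv1 (n := n) hBv
  set M : ℝ := (J + 1) * (w ^ (-ε) * Real.exp (2 * (x * (n + 6))) * K) with hM
  have hM0 : 0 ≤ M := by positivity
  have hav2 : ∫⁻ a in Ioc ((n : ℝ) - v) (n - v + v),
      ENNReal.ofReal (∑ b ∈ Finset.range B, Qb S w J (a + b * v)) ≤ ENNReal.ofReal (v * M) := by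
    refine hav.trans (ENNReal.ofReal_le_ofReal (le_of_eq ?_))
    rw [hM]
    ring
  obtain ⟨a, ha1, ha2, ha3⟩ := exists_position hv0 hM0 hav2
  set τ : ℝ := Real.exp (β * n - |β|) / 2 with hτ
  have hτ0 : 0 < τ := by positivity
  set Bd : Finset ℕ := (Finset.range B).filter fun b => τ ^ 2 < (J + 1) * Qb S w J (a + b * v)
    with hBd
  have hcard : (Bd.card : ℝ) * τ ^ 2 ≤ (J + 1) * (M + 1) := by
    calc (Bd.card : ℝ) * τ ^ 2 = ∑ _b ∈ Bd, τ ^ 2 := by rw [Finset.sum_const, nsmul_eq_mul]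
      _ ≤ ∑ b ∈ Bd, (J + 1) * Qb S w J (a + b * v) :=
          Finset.sum_le_sum fun b hb => (Finset.mem_filter.1 hb).2.le
      _ ≤ ∑ b ∈ Finset.range B, (J + 1) * Qb S w J (a + b * v) :=
          Finset.sum_le_sum_of_subset_of_nonneg (Finset.filter_subset _ _) fun b _ _ =>
            mul_nonneg (by positivity) (Qb_nonneg _ _ _ _)
      _ = (J + 1) * ∑ b ∈ Finset.range B, Qb S w J (a + b * v) := by rw [Finset.mul_sum]
      _ ≤ _ := mul_le_mul_of_nonneg_left ha3 (by positivity)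
  -- the bad set is covered by the bad blocks
  have hcov : {u | ¬ ∃ g ∈ G, |g - u| ≤ 1 ∧ |S u - S g| ≤ Real.exp (β * u)} ∩
      Ioc (n : ℝ) (n + 1) ⊆ ⋃ b ∈ Bd, Icc (a + b * v) (a + b * v + v) := by
    rintro u ⟨hu, hu1, hu2⟩
    set b : ℕ := ⌊(u - a) / v⌋₊ with hb
    have hua : 0 ≤ (u - a) / v := div_nonneg (by linarith) hv0.le
    have hb1 : (b : ℝ) ≤ (u - a) / v := Nat.floor_le hua
    have hb2 : (u - a) / v < b + 1 := Nat.lt_floor_add_one _
    have hbB : b < B := by
      have e1 : (u - a) / v ≤ 2 / v := div_le_div_of_nonneg_right (by linarith) hv0.le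
      have e2 : (b : ℝ) < B := by
        rw [hB]
        push_cast
        linarith
      exact_mod_cast e2
    rw [le_div_iff₀ hv0] at hb1
    rw [div_lt_iff₀ hv0] at hb2
    simp only [mem_iUnion]
    by_cases hbd : b ∈ Bd
    · exact ⟨b, hbd, by linarith, by linarith⟩
    · exfalso
      apply hu
      have hQ : (J + 1) * Qb S w J (a + b * v) ≤ τ ^ 2 := by
        by_contra hcon
        exact hbd (Finset.mem_filter.2 ⟨Finset.mem_range.2 hbB, not_le.1 hcon⟩)
      set A : ℝ := a + b * v with hA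
      have hbv : 0 ≤ (b : ℝ) * v := by positivity
      have hA1 : (n : ℝ) - 1 ≤ A := by rw [hA]; linarith
      have hA2 : A + v ≤ n + 2 := by rw [hA]; linarith
      have hsmall : Real.exp (A + 2 ^ J * w) * (2 * w) < 1 := by
        rw [← hv]
        calc Real.exp (A + v) * (2 * w) ≤ Real.exp (n + 2) * (2 * w) :=
              mul_le_mul_of_nonneg_right (Real.exp_le_exp.2 hA2) (by positivity)
          _ = 2 * (Real.exp (n + 2) * w) := by ring
          _ = 2 * Real.exp (-6) := by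
              rw [hw, ← Real.exp_add]
              congr 2
              ring
          _ < 1 := by
              have e1 : Real.exp (-6) ≤ Real.exp (-1) := Real.exp_le_exp.2 (by norm_num)
              have e2 := Real.exp_neg_one_lt_d9
              linarith
      obtain ⟨g, hg, hg1, hg2⟩ := hu₀ A (hnu.trans hA1)
      have hg3 : g ≤ A + v := by
        refine hg2.trans ?_
        have : Real.exp (-(l * A)) ≤ Real.exp (-(l * (n - 1))) := by
          apply Real.exp_le_exp.2
          have := mul_le_mul_of_nonneg_left hA1 hl.le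
          linarith
        linarith
      have q1 := block_all hstep hw0 J hsmall hw1 (y := u) (A := A) (by rw [hA]; linarith)
        (by rw [← hv, hA]; linarith)
      have q2 := block_all hstep hw0 J hsmall hw1 (y := g) (A := A) hg1 (by rw [← hv]; exact hg3)
      have r1 : |S u - S A| ≤ τ := abs_le_of_sq_le_sq (q1.trans hQ) hτ0.le
      have r2 : |S g - S A| ≤ τ := abs_le_of_sq_le_sq (q2.trans hQ) hτ0.le
      refine ⟨g, hg, ?_, ?_⟩
      · rw [abs_le]
        constructor
        · have : u ≤ A + v := by rw [hA]; linarith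
          linarith
        · have : A ≤ u := by rw [hA]; linarith
          linarith
      · have r3 : |S u - S g| ≤ |S u - S A| + |S g - S A| := by
          have e1 : S u - S g = (S u - S A) - (S g - S A) := by ring
          rw [e1]
          exact abs_sub _ _
        have r4 : 2 * τ ≤ Real.exp (β * u) := by
          have e1 : 2 * τ = Real.exp (β * n - |β|) := by rw [hτ]; ring
          rw [e1]
          apply Real.exp_le_exp.2
          have e2 : -|β| * 1 ≤ -|β| * (u - n) := by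
            have := abs_nonneg β
            nlinarith
          have e3 : -|β| * (u - n) ≤ β * (u - n) :=
            mul_le_mul_of_nonneg_right (neg_abs_le β) (by linarith)
          linarith
        linarith
  -- the volume
  have hvol : volume ({u | ¬ ∃ g ∈ G, |g - u| ≤ 1 ∧ |S u - S g| ≤ Real.exp (β * u)} ∩
      Ioc (n : ℝ) (n + 1)) ≤ ENNReal.ofReal (Bd.card * v) := by
    refine (measure_mono hcov).trans ((measure_biUnion_finset_le _ _).trans ?_)
    have e1 : ∀ b ∈ Bd, volume (Icc (a + b * v) (a + b * v + v)) = ENNReal.ofReal v := by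
      intro b _
      rw [Real.volume_Icc]
      congr 1
      ring
    rw [Finset.sum_congr rfl e1, Finset.sum_const, nsmul_eq_mul,
      ENNReal.ofReal_mul (Nat.cast_nonneg _), ENNReal.ofReal_natCast]
  refine hvol.trans (ENNReal.ofReal_le_ofReal ?_)
  -- the estimate
  have hτ2 : τ ^ 2 * (4 * Real.exp (2 * |β|)) = Real.exp (2 * β * n) := by
    rw [hτ, div_pow, ← Real.exp_nat_mul]
    have e1 : Real.exp (((2 : ℕ) : ℝ) * (β * n - |β|)) * Real.exp (2 * |β|) =
        Real.exp (2 * β * n) := by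
      rw [← Real.exp_add]
      congr 1
      push_cast
      ring
    linear_combination e1
  have hMb : M + 1 ≤ Real.exp (γ / 8 * n) * ((K + 1) * Real.exp (8 * ε + 12 * x) *
      Real.exp ((ε + 2 * x) * n)) := by
    have e1 : w ^ (-ε) = Real.exp (ε * (n + 8)) := by
      rw [hw, ← Real.exp_mul]
      congr 1
      ring
    have e2 : w ^ (-ε) * Real.exp (2 * (x * (n + 6))) =
        Real.exp (8 * ε + 12 * x) * Real.exp ((ε + 2 * x) * n) := by
      rw [e1, ← Real.exp_add, ← Real.exp_add]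
      congr 1
      ring
    have e3 : 1 ≤ Real.exp (γ / 8 * n) * (Real.exp (8 * ε + 12 * x) *
        Real.exp ((ε + 2 * x) * n)) := by
      rw [← Real.exp_add, ← Real.exp_add]
      apply Real.one_le_exp
      positivity
    rw [hM, e2]
    calc (J + 1) * (Real.exp (8 * ε + 12 * x) * Real.exp ((ε + 2 * x) * n) * K) + 1
        ≤ Real.exp (γ / 8 * n) * (Real.exp (8 * ε + 12 * x) * Real.exp ((ε + 2 * x) * n) * K) +
          Real.exp (γ / 8 * n) * (Real.exp (8 * ε + 12 * x) * Real.exp ((ε + 2 * x) * n)) := by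
          gcongr
      _ = _ := by ring
  have hmain : (Bd.card * v) * τ ^ 2 ≤ Real.exp (-(γ / 2 * n)) * τ ^ 2 := by
    have e1 : (Bd.card * v) * τ ^ 2 ≤ v * ((J + 1) * (M + 1)) := by
      calc (Bd.card * v) * τ ^ 2 = v * (Bd.card * τ ^ 2) := by ring
        _ ≤ _ := mul_le_mul_of_nonneg_left hcard hv0.le
    have e2 : v * ((J + 1) * (M + 1)) * (4 * Real.exp (2 * |β|)) ≤
        Real.exp (-(γ / 2 * n)) * τ ^ 2 * (4 * Real.exp (2 * |β|)) := by
      rw [mul_assoc (Real.exp (-(γ / 2 * n))), hτ2]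
      calc v * ((J + 1) * (M + 1)) * (4 * Real.exp (2 * |β|))
          ≤ (2 * Real.exp l * Real.exp (-(l * n))) * (Real.exp (γ / 8 * n) *
            (Real.exp (γ / 8 * n) * ((K + 1) * Real.exp (8 * ε + 12 * x) *
              Real.exp ((ε + 2 * x) * n)))) * (4 * Real.exp (2 * |β|)) := by gcongr
        _ = C₁ * (Real.exp (-(l * n)) * Real.exp (γ / 8 * n) * Real.exp (γ / 8 * n) *
              Real.exp ((ε + 2 * x) * n)) := by
            rw [hC₁]
            ring
        _ ≤ Real.exp (γ / 4 * n) * (Real.exp (-(l * n)) * Real.exp (γ / 8 * n) *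
              Real.exp (γ / 8 * n) * Real.exp ((ε + 2 * x) * n)) :=
            mul_le_mul_of_nonneg_right h2 (by positivity)
        _ = Real.exp (-(γ / 2 * n)) * Real.exp (2 * β * n) := by
            simp only [← Real.exp_add]
            congr 1
            rw [hγ]
            ring
    have e3 : 0 < 4 * Real.exp (2 * |β|) := by positivity
    exact e1.trans (le_of_mul_le_mul_right e2 e3)
  exact le_of_mul_le_mul_right hmain (by positivity)

variable {lam c : ℕ → ℝ} {δ σ : ℝ} {G₀ g : ℂ → ℂ} {k p κ : ℕ} {η C : ℝ}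

/-- **Transfer.** Let there be no zeros with `Re s > x₁`, and let `G` meet all the intervals
`[u, u + e^{-l u}]`. Outside an exponentially thin set of the `u` the partial sum at `u` differs from
the partial sum at some point of `G` at distance at most one by at most `e^{β u}`,
`β > x₁ - l / 2`. -/
theorem transfer (E : Cn lam c δ σ G₀ g k p κ η C)
    (hstep : ∀ u u' : ℝ, ⌊Real.exp u⌋₊ = ⌊Real.exp u'⌋₊ → Sh lam c u = Sh lam c u')
    {x₁ l β : ℝ} (hx₁ : 0 < x₁) (hne : ∀ s : ℂ, x₁ < s.re → G₀ s ≠ 0) (hl : 0 < l)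
    (hl2 : l ≤ 1 / 2) (hβ : x₁ - l / 2 < β) {G : Set ℝ} (hG : Meets G l) :
    ∃ l' : ℝ, 0 < l' ∧ Thin {u | ¬ ∃ g ∈ G, |g - u| ≤ 1 ∧
      |Sh lam c u - Sh lam c g| ≤ Real.exp (β * u)} l' := by
  set d : ℝ := min ((β - (x₁ - l / 2)) / 2) (1 / 2) with hd
  have hd0 : 0 < d := lt_min (by linarith) (by norm_num)
  have hd1 : d ≤ (β - (x₁ - l / 2)) / 2 := min_le_left _ _
  have hd2 : d ≤ 1 / 2 := min_le_right _ _
  obtain ⟨K, hK, hdiff⟩ := diff_sq E hx₁ (x := x₁ + d) (by linarith) (by linarith) hne hd0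
    (by linarith)
  exact transfer_of (sh_meas E.D) hstep (x := x₁ + d) (ε := d) (by linarith) hK hd0 (by linarith)
    hdiff hl hl2 (by linarith) hG

end Pool.Agent.W5h24.SP
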